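import Mathlib

open InnerProductSpace Laplacian

noncomputable section

namespace Pool.Agent.Lib.MP_9ca4ac_an

/-- `(-Δ)^m u`: the `m`-fold iterate of `v ↦ -Δ v` applied to `u`. -/
def nlap {E : Type*} [NormedAddCommGroup E] [InnerProductSpace ℝ E] [FiniteDimensional ℝ E]
    (m : ℕ) (u : E → ℝ) : E → ℝ := (fun v : E → ℝ => -(Δ v))^[m] u

end Pool.Agent.Lib.MP_9ca4ac_an
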