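import Mathlib
import Pool.Agent.Lib.MP_9ca4ac_an.NDef

open MeasureTheory Metric Set Filter Topology InnerProductSpace Laplacian
open scoped ContDiff ENNReal NNReal

noncomputable section

namespace Pool.Agent.Lib.MP_9ca4ac_an

variable {E : Type*} [NormedAddCommGroup E] [InnerProductSpace ℝ E] [FiniteDimensional ℝ E]

@[simp] lemma nlap_zero (u : E → ℝ) : nlap 0 u = u := rfl

lemma nlap_succ (m : ℕ) (u : E → ℝ) : nlap (m + 1) u = nlap m (-(Δ u)) := rfl

lemma nlap_succ' (m : ℕ) (u : E → ℝ) : nlap (m + 1) u = -(Δ (nlap m u)) := by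
  simp only [nlap, Function.iterate_succ_apply']

lemma laplacian_eq_sum_fderiv (u : E → ℝ) (x : E) :
    Δ u x = ∑ i, fderiv ℝ (fderiv ℝ u) x (stdOrthonormalBasis ℝ E i)
      (stdOrthonormalBasis ℝ E i) := by
  rw [laplacian_eq_iteratedFDeriv_stdOrthonormalBasis]
  simp [iteratedFDeriv_two_apply]

lemma laplacian_eq_sum_fderiv' (u : E → ℝ) :
    Δ u = fun x => ∑ i, fderiv ℝ (fderiv ℝ u) x (stdOrthonormalBasis ℝ E i)
      (stdOrthonormalBasis ℝ E i) := by
  ext x; exact laplacian_eq_sum_fderiv u x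

lemma contDiffAt_laplacian {k : ℕ} {u : E → ℝ} {x : E}
    (h : ContDiffAt ℝ ((k + 2 : ℕ) : ℕ∞ω) u x) : ContDiffAt ℝ (k : ℕ∞ω) (Δ u) x := by
  rw [laplacian_eq_sum_fderiv']
  apply ContDiffAt.sum
  intro i _
  have h1 : ContDiffAt ℝ ((k + 1 : ℕ) : ℕ∞ω) (fderiv ℝ u) x := by
    apply h.fderiv_right
    norm_cast
  have h2 : ContDiffAt ℝ (k : ℕ∞ω) (fderiv ℝ (fderiv ℝ u)) x := by
    apply h1.fderiv_right
    norm_cast
  exact (h2.clm_apply contDiffAt_const).clm_apply contDiffAt_const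

lemma contDiffAt_nlap {k m : ℕ} {u : E → ℝ} {x : E}
    (h : ContDiffAt ℝ ((k + 2 * m : ℕ) : ℕ∞ω) u x) : ContDiffAt ℝ (k : ℕ∞ω) (nlap m u) x := by
  induction m generalizing u with
  | zero => simpa using h
  | succ m ih =>
    rw [nlap_succ]
    apply ih
    apply ContDiffAt.neg
    apply contDiffAt_laplacian
    rw [show k + 2 * m + 2 = k + 2 * (m + 1) by ring]
    exact h

lemma contDiffAt_nlap_infty {m : ℕ} {u : E → ℝ} {x : E}
    (h : ContDiffAt ℝ ∞ u x) : ContDiffAt ℝ ∞ (nlap m u) x := by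
  rw [contDiffAt_infty]
  intro k
  apply contDiffAt_nlap
  exact contDiffAt_infty.1 h _

lemma contDiff_nlap_infty {m : ℕ} {u : E → ℝ}
    (h : ContDiff ℝ ∞ u) : ContDiff ℝ ∞ (nlap m u) := by
  rw [contDiff_iff_contDiffAt] at *
  intro x; exact contDiffAt_nlap_infty (h x)

lemma nlap_congr {m : ℕ} {u v : E → ℝ} {x : E} (h : u =ᶠ[𝓝 x] v) :
    nlap m u =ᶠ[𝓝 x] nlap m v := by
  induction m generalizing u v with
  | zero => simpa using h
  | succ m ih =>
    rw [nlap_succ, nlap_succ]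
    exact ih (laplacian_congr_nhds h).neg

lemma nlap_congr_at {m : ℕ} {u v : E → ℝ} {x : E} (h : u =ᶠ[𝓝 x] v) :
    nlap m u x = nlap m v x := (nlap_congr h).eq_of_nhds

lemma nlap_add {m : ℕ} {u v : E → ℝ} {x : E}
    (hu : ContDiffAt ℝ ((2 * m : ℕ) : ℕ∞ω) u x) (hv : ContDiffAt ℝ ((2 * m : ℕ) : ℕ∞ω) v x) :
    nlap m (u + v) x = nlap m u x + nlap m v x := by
  induction m generalizing u v with
  | zero => simp
  | succ m ih =>
    rw [nlap_succ, nlap_succ, nlap_succ]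
    have hu' : ContDiffAt ℝ ((2 * m : ℕ) : ℕ∞ω) (-(Δ u)) x :=
      (contDiffAt_laplacian (by rw [show 2 * m + 2 = 2 * (m + 1) by ring]; exact hu)).neg
    have hv' : ContDiffAt ℝ ((2 * m : ℕ) : ℕ∞ω) (-(Δ v)) x :=
      (contDiffAt_laplacian (by rw [show 2 * m + 2 = 2 * (m + 1) by ring]; exact hv)).neg
    rw [← ih hu' hv']
    apply nlap_congr_at
    have h2u : ContDiffAt ℝ 2 u x := hu.of_le (by norm_cast; omega)
    have h2v : ContDiffAt ℝ 2 v x := hv.of_le (by norm_cast; omega)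
    filter_upwards [h2u.laplacian_add_nhds h2v] with y hy
    simp only [Pi.neg_apply, Pi.add_apply] at *
    rw [hy]; ring

lemma nlap_const_smul {m : ℕ} (c : ℝ) {u : E → ℝ} {x : E}
    (hu : ContDiffAt ℝ ((2 * m : ℕ) : ℕ∞ω) u x) :
    nlap m (c • u) x = c * nlap m u x := by
  induction m generalizing u with
  | zero => simp
  | succ m ih =>
    rw [nlap_succ, nlap_succ]
    have hu' : ContDiffAt ℝ ((2 * m : ℕ) : ℕ∞ω) (-(Δ u)) x :=
      (contDiffAt_laplacian (by rw [show 2 * m + 2 = 2 * (m + 1) by ring]; exact hu)).neg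
    rw [← ih hu']
    apply nlap_congr_at
    have h2u : ContDiffAt ℝ 2 u x := hu.of_le (by norm_cast; omega)
    filter_upwards [laplacian_smul_nhds c h2u] with y hy
    simp only [Pi.neg_apply, Pi.smul_apply, smul_eq_mul] at *
    rw [hy]; ring

lemma nlap_neg {m : ℕ} {u : E → ℝ} {x : E}
    (hu : ContDiffAt ℝ ((2 * m : ℕ) : ℕ∞ω) u x) :
    nlap m (-u) x = - nlap m u x := by
  have := nlap_const_smul (m := m) (-1) hu
  simpa using this

lemma nlap_sub {m : ℕ} {u v : E → ℝ} {x : E}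
    (hu : ContDiffAt ℝ ((2 * m : ℕ) : ℕ∞ω) u x) (hv : ContDiffAt ℝ ((2 * m : ℕ) : ℕ∞ω) v x) :
    nlap m (u - v) x = nlap m u x - nlap m v x := by
  have hv' : ContDiffAt ℝ ((2 * m : ℕ) : ℕ∞ω) (-v) x := hv.neg
  rw [sub_eq_add_neg, nlap_add hu hv', nlap_neg hv]; ring

lemma nlap_sum {m : ℕ} {ι : Type*} (s : Finset ι) {u : ι → E → ℝ} {x : E}
    (hu : ∀ i ∈ s, ContDiffAt ℝ ((2 * m : ℕ) : ℕ∞ω) (u i) x) :
    nlap m (∑ i ∈ s, u i) x = ∑ i ∈ s, nlap m (u i) x := by
  classical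
  induction s using Finset.induction_on with
  | empty =>
    simp only [Finset.sum_empty]
    have := nlap_const_smul (m := m) 0 (u := (0 : E → ℝ)) (x := x) contDiffAt_const
    simpa using this
  | insert i s hi ih =>
    rw [Finset.sum_insert hi, Finset.sum_insert hi, nlap_add, ih]
    · intro j hj; exact hu j (Finset.mem_insert_of_mem hj)
    · exact hu i (Finset.mem_insert_self _ _)
    · have := ContDiffAt.sum (fun j hj => hu j (Finset.mem_insert_of_mem hj))
      convert this using 1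
      ext y; simp

lemma nlap_const {m : ℕ} (hm : 1 ≤ m) (c : ℝ) : nlap m (fun _ : E => c) = 0 := by
  obtain ⟨m, rfl⟩ : ∃ k, m = k + 1 := ⟨m - 1, by omega⟩
  induction m with
  | zero => simp [nlap_succ]
  | succ m ih =>
    rw [nlap_succ', ih (by omega)]
    have : (0 : E → ℝ) = fun _ => (0:ℝ) := rfl
    rw [this, laplacian_const, neg_zero]; rfl

end Pool.Agent.Lib.MP_9ca4ac_an
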