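import Mathlib
import Pool.Agent.Lib.MP_9ca4ac_an.Calc

open MeasureTheory Metric Set Filter Topology InnerProductSpace Laplacian
open scoped ContDiff ENNReal NNReal

noncomputable section

namespace Pool.Agent.Lib.MP_9ca4ac_an

set_option linter.unusedSectionVars false

variable {E : Type*} [NormedAddCommGroup E] [InnerProductSpace ℝ E] [FiniteDimensional ℝ E]

lemma norm_iteratedFDeriv_laplacian_le {k : ℕ} {u : E → ℝ} {x : E}
    (h : ContDiffAt ℝ ((k + 2 : ℕ) : ℕ∞ω) u x) :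
    ‖iteratedFDeriv ℝ k (Δ u) x‖ ≤ Module.finrank ℝ E * ‖iteratedFDeriv ℝ (k + 2) u x‖ := by
  rw [laplacian_eq_sum_fderiv']
  have h1 : ContDiffAt ℝ ((k + 1 : ℕ) : ℕ∞ω) (fderiv ℝ u) x := by
    apply h.fderiv_right
    norm_cast
  have h2 : ContDiffAt ℝ (k : ℕ∞ω) (fderiv ℝ (fderiv ℝ u)) x := by
    apply h1.fderiv_right
    norm_cast
  have h3 : ∀ v : E, ContDiffAt ℝ (k : ℕ∞ω) (fun x => fderiv ℝ (fderiv ℝ u) x v) x :=
    fun v => h2.clm_apply contDiffAt_const
  rw [iteratedFDeriv_fun_sum_apply (fun i _ => (h3 _).clm_apply contDiffAt_const)]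
  calc ‖∑ i, iteratedFDeriv ℝ k (fun x => fderiv ℝ (fderiv ℝ u) x (stdOrthonormalBasis ℝ E i)
          (stdOrthonormalBasis ℝ E i)) x‖
      ≤ ∑ i : Fin (Module.finrank ℝ E), ‖iteratedFDeriv ℝ (k + 2) u x‖ := by
        refine norm_sum_le_of_le _ fun i _ => ?_
        have e1 := norm_iteratedFDeriv_clm_apply_const (c := stdOrthonormalBasis ℝ E i)
          (h3 (stdOrthonormalBasis ℝ E i)) (n := k) le_rfl
        have e2 := norm_iteratedFDeriv_clm_apply_const (c := stdOrthonormalBasis ℝ E i)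
          h2 (n := k) le_rfl
        simp only [OrthonormalBasis.norm_eq_one, one_mul] at e1 e2
        rw [norm_iteratedFDeriv_fderiv, norm_iteratedFDeriv_fderiv] at e2
        exact e1.trans e2
    _ = _ := by simp

lemma norm_iteratedFDeriv_nlap_le {k m : ℕ} {u : E → ℝ} {x : E}
    (h : ContDiffAt ℝ ((k + 2 * m : ℕ) : ℕ∞ω) u x) :
    ‖iteratedFDeriv ℝ k (nlap m u) x‖ ≤
      (Module.finrank ℝ E : ℝ) ^ m * ‖iteratedFDeriv ℝ (k + 2 * m) u x‖ := by
  induction m generalizing k with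
  | zero => simp
  | succ m ih =>
    rw [nlap_succ']
    have e1 : iteratedFDeriv ℝ k (-(Δ (nlap m u))) x = - iteratedFDeriv ℝ k (Δ (nlap m u)) x := by
      exact iteratedFDeriv_neg_apply
    rw [e1, norm_neg]
    have h' : ContDiffAt ℝ (((k + 2) + 2 * m : ℕ) : ℕ∞ω) u x := by
      rw [show (k + 2) + 2 * m = k + 2 * (m + 1) by ring]; exact h
    refine (norm_iteratedFDeriv_laplacian_le (contDiffAt_nlap h')).trans ?_
    have := ih h'
    rw [show k + 2 * (m + 1) = (k + 2) + 2 * m by ring]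
    calc (Module.finrank ℝ E : ℝ) * ‖iteratedFDeriv ℝ (k + 2) (nlap m u) x‖
        ≤ (Module.finrank ℝ E : ℝ) *
          ((Module.finrank ℝ E : ℝ) ^ m * ‖iteratedFDeriv ℝ (k + 2 + 2 * m) u x‖) := by gcongr
      _ = _ := by ring

lemma abs_nlap_le {m : ℕ} {u : E → ℝ} {x : E}
    (h : ContDiffAt ℝ ((2 * m : ℕ) : ℕ∞ω) u x) :
    |nlap m u x| ≤ (Module.finrank ℝ E : ℝ) ^ m * ‖iteratedFDeriv ℝ (2 * m) u x‖ := by
  have := norm_iteratedFDeriv_nlap_le (k := 0) (m := m) (u := u) (x := x)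
    (by rw [zero_add]; exact h)
  rw [zero_add] at this
  simpa using this

lemma norm_iteratedFDeriv_mul_le_at {k : ℕ} {u v : E → ℝ} {x : E}
    (hu : ContDiffAt ℝ (k : ℕ∞ω) u x) (hv : ContDiffAt ℝ (k : ℕ∞ω) v x) :
    ‖iteratedFDeriv ℝ k (fun y => u y * v y) x‖ ≤ ∑ i ∈ Finset.range (k + 1),
      (k.choose i : ℝ) * ‖iteratedFDeriv ℝ i u x‖ * ‖iteratedFDeriv ℝ (k - i) v x‖ := by
  obtain ⟨s, hs, hsu⟩ := hu.contDiffOn le_rfl (by simp)
  obtain ⟨t, ht, htv⟩ := hv.contDiffOn le_rfl (by simp)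
  obtain ⟨w, hw, hwo, hxw⟩ := _root_.mem_nhds_iff.1 (inter_mem hs ht)
  have h1 := norm_iteratedFDerivWithin_mul_le (hsu.mono (hw.trans inter_subset_left))
    (htv.mono (hw.trans inter_subset_right)) hwo.uniqueDiffOn hxw (n := k) le_rfl
  rw [iteratedFDerivWithin_of_isOpen k hwo hxw] at h1
  refine h1.trans (le_of_eq ?_)
  refine Finset.sum_congr rfl fun i _ => ?_
  rw [iteratedFDerivWithin_of_isOpen i hwo hxw, iteratedFDerivWithin_of_isOpen (k - i) hwo hxw]

lemma fderiv_comp_smul_sub {F : Type*} [NormedAddCommGroup F] [NormedSpace ℝ F]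
    (c : ℝ) (p : E) (f : E → F) :
    fderiv ℝ (fun y => f (c • (y - p))) = fun y => c • fderiv ℝ f (c • (y - p)) := by
  ext1 y
  have h := fderiv_comp_sub (𝕜 := ℝ) (f := fun z => f (c • z)) (x := y) p
  rw [h, fderiv_comp_smul]

lemma fderiv_const_smul_fun {F : Type*} [NormedAddCommGroup F] [NormedSpace ℝ F]
    (c : ℝ) (f : E → F) :
    fderiv ℝ (fun y => c • f y) = fun y => c • fderiv ℝ f y := by
  have := fderiv_const_smul_field (𝕜 := ℝ) (f := f) c
  exact this

lemma iteratedFDeriv_comp_smul_sub {F : Type*} [NormedAddCommGroup F] [NormedSpace ℝ F]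
    (k : ℕ) (c : ℝ) (p : E) (f : E → F) (x : E) :
    iteratedFDeriv ℝ k (fun y => f (c • (y - p))) x = c ^ k • iteratedFDeriv ℝ k f (c • (x - p)) := by
  induction k generalizing x with
  | zero => ext; simp
  | succ k ih =>
    ext v
    rw [iteratedFDeriv_succ_apply_left]
    have : iteratedFDeriv ℝ k (fun y => f (c • (y - p))) =
        fun y => c ^ k • iteratedFDeriv ℝ k f (c • (y - p)) := by
      ext1 y; rw [ih y]
    rw [this, fderiv_const_smul_fun (c ^ k) (fun y => iteratedFDeriv ℝ k f (c • (y - p))),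
      fderiv_comp_smul_sub c p (iteratedFDeriv ℝ k f)]
    simp only [ContinuousMultilinearMap.smul_apply, ContinuousLinearMap.smul_apply]
    rw [iteratedFDeriv_succ_apply_left, smul_smul, pow_succ]

lemma laplacian_comp_smul_sub (c : ℝ) (p : E) (u : E → ℝ) :
    Δ (fun y => u (c • (y - p))) = fun y => c ^ 2 * Δ u (c • (y - p)) := by
  ext y
  rw [laplacian_eq_sum_fderiv, fderiv_comp_smul_sub]
  rw [fderiv_const_smul_fun c (fun y => fderiv ℝ u (c • (y - p))),
    fderiv_comp_smul_sub c p (fderiv ℝ u), laplacian_eq_sum_fderiv, Finset.mul_sum]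
  refine Finset.sum_congr rfl fun i _ => ?_
  simp only [ContinuousLinearMap.smul_apply, smul_eq_mul]
  ring

lemma laplacian_const_mul_field (c : ℝ) (u : E → ℝ) :
    Δ (fun y => c * u y) = fun y => c * Δ u y := by
  ext y
  rw [laplacian_eq_sum_fderiv, laplacian_eq_sum_fderiv]
  have : (fun y => c * u y) = fun y => c • u y := rfl
  rw [this, fderiv_const_smul_fun c u, fderiv_const_smul_fun c (fderiv ℝ u), Finset.mul_sum]
  rfl

lemma nlap_const_mul_field (m : ℕ) (c : ℝ) (u : E → ℝ) :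
    nlap m (fun y => c * u y) = fun y => c * nlap m u y := by
  induction m generalizing u with
  | zero => rfl
  | succ m ih =>
    rw [nlap_succ, nlap_succ, laplacian_const_mul_field]
    have : -(fun y => c * Δ u y) = fun y => c * (-(Δ u)) y := by
      ext y; simp
    rw [this, ih]

lemma nlap_comp_smul_sub (m : ℕ) (c : ℝ) (p : E) (u : E → ℝ) :
    nlap m (fun y => u (c • (y - p))) = fun y => c ^ (2 * m) * nlap m u (c • (y - p)) := by
  induction m generalizing u with
  | zero => ext y; simp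
  | succ m ih =>
    rw [nlap_succ, laplacian_comp_smul_sub]
    have : -(fun y => c ^ 2 * Δ u (c • (y - p))) =
        fun y => c ^ 2 * (-(Δ u)) (c • (y - p)) := by
      ext y; simp
    rw [this, nlap_const_mul_field, ih, nlap_succ]
    ext y
    ring

end Pool.Agent.Lib.MP_9ca4ac_an
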