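import Mathlib
import Pool.Agent.Lib.MP_9ca4ac_an.Calc2

open MeasureTheory Metric Set Filter Topology InnerProductSpace Laplacian
open scoped ContDiff ENNReal NNReal

noncomputable section

namespace Pool.Agent.Lib.MP_9ca4ac_an

set_option linter.unusedSectionVars false

variable {E : Type*} [NormedAddCommGroup E] [InnerProductSpace ℝ E] [FiniteDimensional ℝ E]

lemma laplacian_eq_sum_fderiv_apply {u : E → ℝ} {x : E} (h : ContDiffAt ℝ 2 u x) :
    Δ u x = ∑ i, fderiv ℝ (fun y => fderiv ℝ u y (stdOrthonormalBasis ℝ E i)) x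
      (stdOrthonormalBasis ℝ E i) := by
  rw [laplacian_eq_sum_fderiv]
  refine Finset.sum_congr rfl fun i _ => ?_
  have h1 : ContDiffAt ℝ 1 (fderiv ℝ u) x := h.fderiv_right (by norm_num)
  have hd : DifferentiableAt ℝ (fderiv ℝ u) x := h1.differentiableAt (by norm_num)
  rw [fderiv_clm_apply hd (differentiableAt_const _)]
  simp

/-- `(‖y‖²)^p` -/
def rp (p : ℝ) (y : E) : ℝ := (‖y‖ ^ 2) ^ p

lemma contDiffAt_rp {n : ℕ∞ω} (p : ℝ) {x : E} (hx : x ≠ 0) : ContDiffAt ℝ n (rp p) x := by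
  unfold rp
  apply ContDiffAt.rpow_const_of_ne
  · exact (contDiff_norm_sq ℝ).contDiffAt
  · positivity

lemma hasFDerivAt_rp (p : ℝ) {x : E} (hx : x ≠ 0) :
    HasFDerivAt (rp p : E → ℝ) ((2 * p * rp (p - 1) x) • innerSL ℝ x) x := by
  have h1 := (hasStrictFDerivAt_norm_sq x).hasFDerivAt
  have h2 := h1.rpow_const (p := p) (Or.inl (by positivity))
  unfold rp
  convert h2 using 1
  ext v
  simp
  ring

lemma fderiv_rp_apply (p : ℝ) {x : E} (hx : x ≠ 0) (v : E) :
    fderiv ℝ (rp p : E → ℝ) x v = 2 * p * rp (p - 1) x * inner ℝ x v := by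
  rw [(hasFDerivAt_rp p hx).fderiv]
  simp

lemma laplacian_rp (p : ℝ) {x : E} (hx : x ≠ 0) :
    Δ (rp p : E → ℝ) x = 2 * p * (2 * p - 2 + Module.finrank ℝ E) * rp (p - 1) x := by
  rw [laplacian_eq_sum_fderiv_apply (contDiffAt_rp p hx)]
  have hne : ∀ᶠ y in 𝓝 x, y ≠ 0 := isOpen_ne.mem_nhds hx
  have key : ∀ i, fderiv ℝ (fun y => fderiv ℝ (rp p : E → ℝ) y (stdOrthonormalBasis ℝ E i)) x
      (stdOrthonormalBasis ℝ E i) =
      4 * p * (p - 1) * rp (p - 2) x * (inner ℝ x (stdOrthonormalBasis ℝ E i)) ^ 2 +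
        2 * p * rp (p - 1) x := by
    intro i
    set e := stdOrthonormalBasis ℝ E i with he
    have hee : inner ℝ e e = (1 : ℝ) := by
      rw [real_inner_self_eq_norm_sq, he]; simp
    have h1 : (fun y => fderiv ℝ (rp p : E → ℝ) y e) =ᶠ[𝓝 x]
        fun y => 2 * p * rp (p - 1) y * inner ℝ y e := by
      filter_upwards [hne] with y hy
      exact fderiv_rp_apply p hy e
    rw [h1.fderiv_eq]
    have h2 : HasFDerivAt (fun y => 2 * p * rp (p - 1) y * inner ℝ y e)
        (((2 * p * rp (p - 1) x) • (innerSL ℝ e)) +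
          (inner ℝ x e) • ((2 * p) • ((2 * (p - 1) * rp (p - 1 - 1) x) • innerSL ℝ x))) x := by
      have ha := (hasFDerivAt_rp (p - 1) hx).const_mul (2 * p)
      have hb : HasFDerivAt (fun y : E => (inner ℝ y e : ℝ)) (innerSL ℝ e) x := by
        have := (innerSL ℝ e).hasFDerivAt (x := x)
        refine this.congr_of_eventuallyEq ?_
        filter_upwards with y
        simp [real_inner_comm]
      exact ha.mul hb
    rw [h2.fderiv]
    simp only [ContinuousLinearMap.add_apply, ContinuousLinearMap.smul_apply, innerSL_apply_apply,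
      smul_eq_mul, hee]
    rw [show p - 1 - 1 = p - 2 by ring]
    ring
  rw [Finset.sum_congr rfl fun i _ => key i, Finset.sum_add_distrib, ← Finset.mul_sum]
  have hs : ∑ i, (inner ℝ x (stdOrthonormalBasis ℝ E i)) ^ 2 = ‖x‖ ^ 2 := by
    have := (stdOrthonormalBasis ℝ E).sum_sq_norm_inner_left x
    simpa using this
  rw [hs]
  have hm : rp (p - 2) x * ‖x‖ ^ 2 = rp (p - 1) x := by
    unfold rp
    have : (‖x‖ ^ 2) ≠ 0 := by positivity
    rw [show p - 1 = (p - 2) + 1 by ring, Real.rpow_add_one this]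
  simp only [Finset.sum_const, Finset.card_univ, Fintype.card_fin, nsmul_eq_mul]
  linear_combination (4 * p * (p - 1)) * hm

lemma nlap_rp (m : ℕ) (p : ℝ) {x : E} (hx : x ≠ 0) :
    nlap m (rp p : E → ℝ) x =
      (∏ i ∈ Finset.range m, (-(2 * (p - i) * (2 * (p - i) - 2 + Module.finrank ℝ E)))) *
        rp (p - m) x := by
  induction m generalizing x with
  | zero => simp
  | succ m ih =>
    rw [nlap_succ']
    have hne : ∀ᶠ y in 𝓝 x, y ≠ 0 := isOpen_ne.mem_nhds hx
    have h1 : nlap m (rp p : E → ℝ) =ᶠ[𝓝 x] fun y =>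
        (∏ i ∈ Finset.range m, (-(2 * (p - i) * (2 * (p - i) - 2 + Module.finrank ℝ E)))) *
        rp (p - m) y := by
      filter_upwards [hne] with y hy
      exact ih hy
    rw [Pi.neg_apply, (laplacian_congr_nhds h1).eq_of_nhds, laplacian_const_mul_field]
    simp only
    rw [laplacian_rp _ hx, Finset.prod_range_succ]
    push_cast
    rw [show p - (m : ℝ) - 1 = p - ((m : ℝ) + 1) by ring]
    ring

end Pool.Agent.Lib.MP_9ca4ac_an
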