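import Mathlib
import Pool.Agent.Lib.MP_9ca4ac_an.Radial

open MeasureTheory Metric Set Filter Topology InnerProductSpace Laplacian
open scoped ContDiff ENNReal NNReal

noncomputable section

namespace Pool.Agent.Lib.MP_9ca4ac_an

set_option linter.unusedSectionVars false

variable {E : Type*} [NormedAddCommGroup E] [InnerProductSpace ℝ E] [FiniteDimensional ℝ E]

/-- `‖y‖^(-s)` -/
def ip (s : ℕ) (y : E) : ℝ := (‖y‖ ^ s)⁻¹

lemma ip_nonneg (s : ℕ) (y : E) : 0 ≤ ip s y := by unfold ip; positivity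

lemma ip_neg (s : ℕ) (y : E) : ip s (-y) = ip s y := by unfold ip; rw [norm_neg]

lemma ip_eq_rp (s : ℕ) {y : E} (hy : y ≠ 0) : ip s y = rp (-(s : ℝ) / 2) y := by
  unfold ip rp
  have h0 : 0 < ‖y‖ := norm_pos_iff.2 hy
  rw [← Real.rpow_natCast ‖y‖ 2, ← Real.rpow_mul h0.le, ← Real.rpow_natCast ‖y‖ s,
    ← Real.rpow_neg h0.le]
  congr 1
  push_cast
  ring

lemma ip_eventuallyEq (s : ℕ) {x : E} (hx : x ≠ 0) : (ip s : E → ℝ) =ᶠ[𝓝 x] rp (-(s : ℝ) / 2) := by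
  have hne : ∀ᶠ y in 𝓝 x, y ≠ 0 := isOpen_ne.mem_nhds hx
  filter_upwards [hne] with y hy
  exact ip_eq_rp s hy

lemma contDiffAt_ip {n : ℕ∞ω} (s : ℕ) {x : E} (hx : x ≠ 0) : ContDiffAt ℝ n (ip s) x :=
  (contDiffAt_rp _ hx).congr_of_eventuallyEq (ip_eventuallyEq s hx)

lemma nlap_ip {N m l : ℕ} (hl : l < m) (hE : Module.finrank ℝ E = N + 2 * m) {x : E}
    (hx : x ≠ 0) : nlap m (ip (N + 2 * l) : E → ℝ) x = 0 := by
  rw [nlap_congr_at (ip_eventuallyEq _ hx), nlap_rp m _ hx, hE]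
  apply mul_eq_zero_of_left
  apply Finset.prod_eq_zero (i := m - 1 - l)
  · rw [Finset.mem_range]; omega
  · have : ((m - 1 - l : ℕ) : ℝ) = (m : ℝ) - 1 - l := by
      rw [Nat.cast_sub (by omega), Nat.cast_sub (by omega)]; simp
    rw [this]
    push_cast
    ring

lemma ip_scale (s : ℕ) {c : ℝ} (hc : 0 < c) (y : E) : ip s y = c ^ s * ip s (c • y) := by
  unfold ip
  rw [norm_smul, Real.norm_of_nonneg hc.le, mul_pow, mul_inv, ← mul_assoc,
    mul_inv_cancel₀ (by positivity), one_mul]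

lemma exists_bound_ip (s k : ℕ) : ∃ C : ℝ, 0 ≤ C ∧ ∀ x : E, x ≠ 0 →
    ‖iteratedFDeriv ℝ k (ip s : E → ℝ) x‖ ≤ C * ip (s + k) x := by
  have hcont : ContinuousOn (fun x => ‖iteratedFDeriv ℝ k (ip s : E → ℝ) x‖) (sphere (0:E) 1) := by
    intro x hx
    have hx0 : x ≠ 0 := by
      rintro rfl; simp at hx
    have h1 : ContDiffAt ℝ ((k + 0 : ℕ) : ℕ∞ω) (ip s : E → ℝ) x := contDiffAt_ip s hx0
    have h2 : ContinuousAt (iteratedFDeriv ℝ k (ip s : E → ℝ)) x := by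
      have h3 : ContDiffAt ℝ (0 : ℕ∞ω) (iteratedFDeriv ℝ k (ip s : E → ℝ)) x := by
        apply ContDiffAt.iteratedFDeriv_right (n := (k : ℕ∞ω)) (contDiffAt_ip s hx0)
        simp
      exact h3.continuousAt
    exact h2.norm.continuousWithinAt
  obtain ⟨C, hC⟩ := (isCompact_sphere (0 : E) 1).bddAbove_image hcont
  refine ⟨max C 0, le_max_right _ _, fun x hx => ?_⟩
  have h0 : 0 < ‖x‖ := norm_pos_iff.2 hx
  set c : ℝ := ‖x‖⁻¹ with hcdef
  have hc : 0 < c := by positivity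
  have e1 : (ip s : E → ℝ) = c ^ s • fun y => ip s (c • (y - (0:E))) := by
    ext y
    simp only [Pi.smul_apply, smul_eq_mul, sub_zero]
    exact ip_scale s hc y
  have hcx : c • (x - 0) ≠ 0 := by
    rw [sub_zero]; exact smul_ne_zero hc.ne' hx
  have hsm : ContDiffAt ℝ (k : ℕ∞ω) (fun y => ip s (c • (y - (0:E)))) x := by
    have hg : ContDiffAt ℝ (k : ℕ∞ω) (fun y : E => c • (y - (0:E))) x := by fun_prop
    exact ContDiffAt.comp (g := (ip s : E → ℝ)) x (contDiffAt_ip s hcx) hg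
  rw [e1, iteratedFDeriv_const_smul_apply hsm, iteratedFDeriv_comp_smul_sub, norm_smul, norm_smul]
  have hmem : c • (x - 0) ∈ sphere (0 : E) 1 := by
    rw [sub_zero, mem_sphere_zero_iff_norm, norm_smul, Real.norm_of_nonneg hc.le, hcdef,
      inv_mul_cancel₀ h0.ne']
  have h4 : ‖iteratedFDeriv ℝ k (ip s : E → ℝ) (c • (x - 0))‖ ≤ C :=
    hC (mem_image_of_mem _ hmem)
  have e2 : ip (s + k) x = c ^ s * c ^ k := by
    unfold ip; rw [pow_add, mul_inv, hcdef, inv_pow, inv_pow]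
  rw [e2, Real.norm_of_nonneg (by positivity), Real.norm_of_nonneg (by positivity)]
  calc c ^ s * (c ^ k * ‖iteratedFDeriv ℝ k (ip s : E → ℝ) (c • (x - 0))‖)
      ≤ c ^ s * (c ^ k * max C 0) := by
        gcongr; exact h4.trans (le_max_left _ _)
    _ = _ := by ring

end Pool.Agent.Lib.MP_9ca4ac_an
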