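import Mathlib

open Polynomial

noncomputable section

namespace Pool.Agent.Lib.MP_9ca4ac_an

/-- `(N/2)_l / l!` -/
def ecoef (N : ℕ) : ℕ → ℝ
  | 0 => 1
  | l + 1 => ecoef N l * ((N : ℝ) / 2 + l) / (l + 1)

lemma ecoef_nonneg (N l : ℕ) : 0 ≤ ecoef N l := by
  induction l with
  | zero => simp [ecoef]
  | succ l ih => unfold ecoef; positivity

lemma ecoef_succ (N l : ℕ) : (2 * ((l : ℝ) + 1)) * ecoef N (l + 1) = (N + 2 * l) * ecoef N l := by
  rw [ecoef]
  field_simp

/-- `∑_{l<m} e_l (1-X)^l` -/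
def Ppoly (N m : ℕ) : ℝ[X] := ∑ l ∈ Finset.range m, C (ecoef N l) * (1 - X) ^ l

/-- `1 - X^N ∑_{l<m} e_l (1-X^2)^l` -/
def Dpoly (N m : ℕ) : ℝ[X] := 1 - X ^ N * ∑ l ∈ Finset.range m, C (ecoef N l) * (1 - X ^ 2) ^ l

lemma Ppoly_natDegree_lt (N : ℕ) {m : ℕ} (hm : 1 ≤ m) : (Ppoly N m).natDegree < m := by
  unfold Ppoly
  have : (∑ l ∈ Finset.range m, C (ecoef N l) * (1 - X) ^ l : ℝ[X]).natDegree ≤ m - 1 := by
    apply natDegree_sum_le_of_forall_le
    intro l hl
    rw [Finset.mem_range] at hl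
    calc (C (ecoef N l) * (1 - X) ^ l : ℝ[X]).natDegree
        ≤ ((1 - X) ^ l : ℝ[X]).natDegree := natDegree_C_mul_le _ _
      _ ≤ l * (1 - X : ℝ[X]).natDegree := natDegree_pow_le
      _ ≤ l * 1 := by
          gcongr
          refine (natDegree_sub_le _ _).trans ?_
          simp
      _ ≤ m - 1 := by omega
  omega

lemma Ppoly_coeff_zero_pos (N : ℕ) {m : ℕ} (hm : 1 ≤ m) : 0 < (Ppoly N m).coeff 0 := by
  rw [coeff_zero_eq_eval_zero]
  unfold Ppoly
  rw [eval_finsetSum]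
  simp only [eval_mul, eval_C, eval_pow, eval_sub, eval_one, eval_X, sub_zero, one_pow, mul_one]
  have : ecoef N 0 ≤ ∑ l ∈ Finset.range m, ecoef N l :=
    Finset.single_le_sum (fun l _ => ecoef_nonneg N l) (Finset.mem_range.2 (by omega))
  have h0 : ecoef N 0 = 1 := rfl
  linarith

lemma Dpoly_eval (N m : ℕ) (t : ℝ) : (Dpoly N m).eval t = 1 - t ^ N * (Ppoly N m).eval (t ^ 2) := by
  unfold Dpoly Ppoly
  simp [eval_finsetSum]

lemma Dpoly_eval_one (N : ℕ) {m : ℕ} (hm : 1 ≤ m) : (Dpoly N m).eval 1 = 0 := by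
  obtain ⟨m, rfl⟩ : ∃ k, m = k + 1 := ⟨m - 1, by omega⟩
  rw [Dpoly_eval]
  unfold Ppoly
  rw [eval_finsetSum, Finset.sum_range_succ']
  simp [ecoef]

lemma Dpoly_derivative (N : ℕ) (hN : 1 ≤ N) (m : ℕ) :
    derivative (Dpoly N (m + 1)) =
      -(C (2 * ((m : ℝ) + 1) * ecoef N (m + 1)) * X ^ (N - 1) * (1 - X ^ 2) ^ m) := by
  obtain ⟨N, rfl⟩ : ∃ k, N = k + 1 := ⟨N - 1, by omega⟩
  simp only [Nat.add_sub_cancel]
  induction m with
  | zero =>
    unfold Dpoly
    have := ecoef_succ (N + 1) 0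
    simp only [zero_add, Finset.range_one, Finset.sum_singleton, pow_zero, mul_one] at *
    have h0 : ecoef (N + 1) 0 = 1 := rfl
    rw [h0] at this ⊢
    simp only [map_one, mul_one] at *
    rw [derivative_sub, derivative_one, zero_sub, derivative_X_pow]
    have h2 : (2 * (((0:ℕ) : ℝ) + 1) * ecoef (N + 1) 1) = ((N + 1 : ℕ) : ℝ) := by
      rw [this]; push_cast; ring
    rw [h2]
    simp
  | succ m ih =>
    have h1 : Dpoly (N + 1) (m + 1 + 1) = Dpoly (N + 1) (m + 1) -
        C (ecoef (N + 1) (m + 1)) * (X ^ (N + 1) * (1 - X ^ 2) ^ (m + 1)) := by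
      unfold Dpoly
      rw [Finset.sum_range_succ _ (m + 1)]
      ring
    rw [h1, derivative_sub, ih, derivative_C_mul, derivative_mul, derivative_X_pow,
      derivative_pow]
    have h3 : derivative (1 - X ^ 2 : ℝ[X]) = -(2 * X) := by
      rw [derivative_sub, derivative_one, derivative_X_pow]
      have : (C (2:ℝ) : ℝ[X]) = 2 := rfl
      simp [this]
    rw [h3]
    have h4 := ecoef_succ (N + 1) (m + 1)
    have h5 : C (2 * (((m + 1 : ℕ) : ℝ) + 1) * ecoef (N + 1) (m + 1 + 1)) =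
        C ((((N + 1 : ℕ) : ℝ) + 2 * ((m + 1 : ℕ) : ℝ))) * C (ecoef (N + 1) (m + 1)) := by
      rw [← C_mul, ← h4]
    rw [h5]
    simp only [Nat.add_sub_cancel, map_mul, map_add, C_1]
    push_cast
    simp only [map_natCast, map_add, map_one, map_mul, C_ofNat]
    ring

lemma X_sub_one_pow_dvd_Dpoly (N : ℕ) (hN : 1 ≤ N) (m : ℕ) : (X - C 1) ^ m ∣ Dpoly N m := by
  rcases Nat.eq_zero_or_pos m with rfl | hm
  · simp
  obtain ⟨m, rfl⟩ : ∃ k, m = k + 1 := ⟨m - 1, by omega⟩
  have h0 : Dpoly N (m + 1) ≠ 0 := by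
    intro h
    have h1 := congrArg (eval 0) h
    rw [Dpoly_eval] at h1
    simp [show N ≠ 0 by omega] at h1
  rw [← le_rootMultiplicity_iff h0]
  have hroot : (Dpoly N (m + 1)).IsRoot 1 := Dpoly_eval_one N (by omega)
  have hd := derivative_rootMultiplicity_of_root hroot
  have hpos : 0 < rootMultiplicity 1 (Dpoly N (m + 1)) := (rootMultiplicity_pos h0).2 hroot
  have hd0 : derivative (Dpoly N (m + 1)) ≠ 0 := by
    rw [Dpoly_derivative N hN m]
    have hpos : 0 < ecoef N (m + 1) := by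
      have : ∀ l, 0 < ecoef N l := by
        intro l
        induction l with
        | zero => simp [ecoef]
        | succ l ih =>
          unfold ecoef
          have : (0:ℝ) < N := by exact_mod_cast hN
          positivity
      exact this _
    intro h
    have h1 := congrArg (eval 2) h
    simp only [eval_neg, eval_mul, eval_C, eval_pow, eval_X, eval_sub, eval_one, eval_zero,
      neg_eq_zero, mul_eq_zero, pow_eq_zero_iff', OfNat.ofNat_ne_zero, false_and, or_false,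
      ne_eq] at h1
    rcases h1 with (h1 | h1) | h1
    · rcases h1 with h1 | h1
      · exact h1
      · have : (0:ℝ) < (m:ℝ) + 1 := by positivity
        linarith
    · exact hpos.ne' h1
    · norm_num at h1
  have hdvd : (X - C 1) ^ m ∣ derivative (Dpoly N (m + 1)) := by
    rw [Dpoly_derivative N hN m]
    apply Dvd.dvd.neg_right
    apply Dvd.dvd.mul_left
    have : (1 - X ^ 2 : ℝ[X]) = (X - C 1) * (-(X + 1)) := by
      simp; ring
    rw [this, mul_pow]
    exact dvd_mul_right _ _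
  have h6 := (le_rootMultiplicity_iff hd0).2 hdvd
  omega

end Pool.Agent.Lib.MP_9ca4ac_an
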