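import Mathlib
import Pool.Agent.Lib.MP_9ca4ac_an.InvPow
import Pool.Agent.Lib.MP_9ca4ac_an.ProfPoly

open MeasureTheory Metric Set Filter Topology InnerProductSpace Laplacian
open scoped ContDiff ENNReal NNReal

noncomputable section

namespace Pool.Agent.Lib.MP_9ca4ac_an

set_option linter.unusedSectionVars false

variable {E : Type*} [NormedAddCommGroup E] [InnerProductSpace ℝ E] [FiniteDimensional ℝ E]

/-- outer profile -/
def Kout (N m : ℕ) (x : E) : ℝ := ∑ l ∈ Finset.range m, (Ppoly N m).coeff l * ip (N + 2 * l) x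

lemma Kout_eq_sum (N m : ℕ) : (Kout N m : E → ℝ) =
    ∑ l ∈ Finset.range m, (Ppoly N m).coeff l • (ip (N + 2 * l) : E → ℝ) := by
  ext x; simp [Kout]

lemma contDiffAt_Kout {n : ℕ∞ω} (N m : ℕ) {x : E} (hx : x ≠ 0) :
    ContDiffAt ℝ n (Kout N m : E → ℝ) x := by
  unfold Kout
  apply ContDiffAt.sum
  intro l _
  exact contDiffAt_const.mul (contDiffAt_ip _ hx)

lemma nlap_Kout {N m : ℕ} (hE : Module.finrank ℝ E = N + 2 * m) {x : E} (hx : x ≠ 0) :
    nlap m (Kout N m : E → ℝ) x = 0 := by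
  rw [Kout_eq_sum, nlap_sum]
  · apply Finset.sum_eq_zero
    intro l hl
    rw [Finset.mem_range] at hl
    rw [nlap_const_smul _ (contDiffAt_ip _ hx), nlap_ip hl hE hx, mul_zero]
  · intro l _
    exact contDiffAt_const.smul (contDiffAt_ip _ hx)

lemma ip_anti {s t : ℕ} (h : s ≤ t) {x : E} (hx : 1 ≤ ‖x‖) : ip t x ≤ ip s x := by
  unfold ip
  gcongr

lemma exists_bound_Kout (N m k : ℕ) : ∃ C : ℝ, 0 ≤ C ∧ ∀ x : E, 1 ≤ ‖x‖ →
    ‖iteratedFDeriv ℝ k (Kout N m : E → ℝ) x‖ ≤ C * ip (N + k) x := by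
  choose C hC0 hC using fun l : ℕ => exists_bound_ip (E := E) (N + 2 * l) k
  refine ⟨∑ l ∈ Finset.range m, |(Ppoly N m).coeff l| * C l, ?_, ?_⟩
  · exact Finset.sum_nonneg fun l _ => mul_nonneg (abs_nonneg _) (hC0 l)
  intro x hx
  have hx0 : x ≠ 0 := by rintro rfl; simp at hx; linarith
  unfold Kout
  rw [iteratedFDeriv_fun_sum_apply (fun l _ => contDiffAt_const.mul (contDiffAt_ip _ hx0)),
    Finset.sum_mul]
  refine norm_sum_le_of_le _ fun l _ => ?_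
  have e1 : iteratedFDeriv ℝ k (fun x : E => (Ppoly N m).coeff l * ip (N + 2 * l) x) x =
      (Ppoly N m).coeff l • iteratedFDeriv ℝ k (ip (N + 2 * l) : E → ℝ) x := by
    have h := iteratedFDeriv_const_smul_apply (𝕜 := ℝ) (i := k) (a := (Ppoly N m).coeff l)
      (f := (ip (N + 2 * l) : E → ℝ)) (x := x) (contDiffAt_ip _ hx0)
    exact h
  rw [e1, norm_smul, Real.norm_eq_abs, mul_assoc]
  gcongr
  refine (hC l x hx0).trans ?_
  gcongr
  · exact hC0 l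
  · exact ip_anti (by omega) hx

lemma exists_Kout_sub (N : ℕ) {m : ℕ} (hm : 1 ≤ m) : ∃ C : ℝ, 0 ≤ C ∧ ∀ x : E, 1 ≤ ‖x‖ →
    |Kout N m x - (Ppoly N m).coeff 0 * ip N x| ≤ C * ip (N + 2) x := by
  obtain ⟨m', rfl⟩ : ∃ k, m = k + 1 := ⟨m - 1, by omega⟩
  refine ⟨∑ l ∈ Finset.range m', |(Ppoly N (m' + 1)).coeff (l + 1)|, ?_, ?_⟩
  · exact Finset.sum_nonneg fun l _ => abs_nonneg _
  intro x hx
  unfold Kout
  rw [Finset.sum_range_succ']
  simp only [mul_zero, add_zero, add_sub_cancel_right]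
  rw [Finset.sum_mul]
  refine (Finset.abs_sum_le_sum_abs _ _).trans (Finset.sum_le_sum fun l _ => ?_)
  rw [abs_mul, abs_of_nonneg (ip_nonneg _ _)]
  gcongr
  exact ip_anti (by omega) hx

lemma Kout_eq_poly (N : ℕ) {m : ℕ} (hm : 1 ≤ m) (x : E) :
    Kout N m x = (‖x‖⁻¹) ^ N * (Ppoly N m).eval ((‖x‖⁻¹) ^ 2) := by
  unfold Kout
  rw [Polynomial.eval_eq_sum_range' (Ppoly_natDegree_lt N hm), Finset.mul_sum]
  refine Finset.sum_congr rfl fun l _ => ?_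
  unfold ip
  rw [← inv_pow, pow_add, ← pow_mul]
  ring

lemma one_sub_Kout (N : ℕ) {m : ℕ} (hm : 1 ≤ m) (x : E) :
    1 - Kout N m x = (Dpoly N m).eval ‖x‖⁻¹ := by
  rw [Kout_eq_poly N hm, Dpoly_eval]

end Pool.Agent.Lib.MP_9ca4ac_an
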