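import Mathlib
import Pool.Agent.Lib.MP_9ca4ac_an.Calc2

open MeasureTheory Metric Set Filter Topology
open scoped ContDiff ENNReal NNReal

noncomputable section

namespace Pool.Agent.Lib.MP_9ca4ac_an

/-- `t^m` cut off near `t ≤ 1` -/
def th (m : ℕ) (t : ℝ) : ℝ := t ^ m * Real.smoothTransition (t - 1)

/-- cutoff of `s^m` at scale `1/(j+1)` -/
def thj (m j : ℕ) (s : ℝ) : ℝ := s ^ m * Real.smoothTransition (((j : ℝ) + 1) * s - 1)

lemma contDiff_th (m : ℕ) : ContDiff ℝ ∞ (th m) := by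
  unfold th
  apply ContDiff.mul (by fun_prop)
  exact Real.smoothTransition.contDiff.comp (by fun_prop)

lemma thj_eq (m j : ℕ) (s : ℝ) :
    thj m j s = ((((j : ℝ) + 1) ^ m)⁻¹) * th m (((j : ℝ) + 1) * s) := by
  unfold thj th
  have : ((j : ℝ) + 1) ^ m ≠ 0 := by positivity
  rw [mul_pow]
  field_simp

lemma contDiff_thj (m j : ℕ) : ContDiff ℝ ∞ (thj m j) := by
  unfold thj
  apply ContDiff.mul (by fun_prop)
  exact Real.smoothTransition.contDiff.comp (by fun_prop)

lemma thj_zero {m j : ℕ} {s : ℝ} (h : ((j : ℝ) + 1) * s ≤ 1) : thj m j s = 0 := by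
  unfold thj
  rw [Real.smoothTransition.zero_of_nonpos (by linarith), mul_zero]

lemma thj_pow {m j : ℕ} {s : ℝ} (h : 2 ≤ ((j : ℝ) + 1) * s) : thj m j s = s ^ m := by
  unfold thj
  rw [Real.smoothTransition.one_of_one_le (by linarith), mul_one]

lemma exists_bound_th (m i : ℕ) (hi : i ≤ m) : ∃ C : ℝ, 0 ≤ C ∧ ∀ t : ℝ,
    ‖iteratedFDeriv ℝ i (th m) t‖ ≤ C * (1 + |t|) ^ (m - i) := by
  have hcont : Continuous (fun t => ‖iteratedFDeriv ℝ i (th m) t‖) :=
    ((contDiff_th m).continuous_iteratedFDeriv (by exact_mod_cast le_top)).norm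
  obtain ⟨C, hC⟩ := (isCompact_Icc (a := (1:ℝ)) (b := 2)).bddAbove_image hcont.continuousOn
  refine ⟨max C (m.descFactorial i), le_max_of_le_right (by positivity), fun t => ?_⟩
  have h1 : (1:ℝ) ≤ (1 + |t|) ^ (m - i) := one_le_pow₀ (by linarith [abs_nonneg t])
  rcases lt_or_ge t 1 with ht | ht
  · have : th m =ᶠ[𝓝 t] fun _ => 0 := by
      filter_upwards [isOpen_Iio.mem_nhds ht] with s hs
      unfold th
      rw [Real.smoothTransition.zero_of_nonpos (by have : s < 1 := hs; linarith), mul_zero]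
    rw [this.iteratedFDeriv ℝ i |>.eq_of_nhds]
    have h0 : iteratedFDeriv ℝ i (fun _ : ℝ => (0:ℝ)) t = 0 := by
      simp
    rw [h0, norm_zero]
    have : (0:ℝ) ≤ max C (m.descFactorial i) := le_max_of_le_right (by positivity)
    positivity
  rcases le_or_gt t 2 with ht2 | ht2
  · have := hC (mem_image_of_mem _ (show t ∈ Icc (1:ℝ) 2 from ⟨ht, ht2⟩))
    calc ‖iteratedFDeriv ℝ i (th m) t‖ ≤ C * 1 := by simpa using this
      _ ≤ max C (m.descFactorial i) * (1 + |t|) ^ (m - i) := by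
          apply mul_le_mul (le_max_left _ _) h1 (by norm_num)
          exact le_max_of_le_right (by positivity)
  · have : th m =ᶠ[𝓝 t] fun s => s ^ m := by
      filter_upwards [isOpen_Ioi.mem_nhds ht2] with s hs
      unfold th
      rw [Real.smoothTransition.one_of_one_le (by have : 2 < s := hs; linarith), mul_one]
    rw [this.iteratedFDeriv ℝ i |>.eq_of_nhds, norm_iteratedFDeriv_eq_norm_iteratedDeriv,
      iteratedDeriv_pow]
    rw [norm_mul, norm_pow, Real.norm_eq_abs, Real.norm_eq_abs, abs_of_nonneg (by positivity)]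
    gcongr
    · exact le_max_right _ _
    · linarith

lemma exists_bound_thj (m : ℕ) : ∃ C : ℝ, 0 ≤ C ∧ ∀ i ≤ m, ∀ j : ℕ, ∀ s : ℝ, |s| ≤ 3 →
    ‖iteratedFDeriv ℝ i (thj m j) s‖ ≤ C := by
  choose! C hC0 hC using exists_bound_th m
  have hsum0 : 0 ≤ ∑ i ∈ Finset.range (m + 1), C i :=
    Finset.sum_nonneg fun i hi => hC0 i (by simpa [Nat.lt_succ_iff] using hi)
  refine ⟨(∑ i ∈ Finset.range (m + 1), C i) * 4 ^ m, by positivity, ?_⟩
  intro i hi j s hs
  set a : ℝ := (j : ℝ) + 1 with ha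
  have ha1 : 1 ≤ a := by rw [ha]; linarith [Nat.cast_nonneg (α := ℝ) j]
  have ha0 : 0 < a := by linarith
  have e1 : thj m j = (a ^ m)⁻¹ • fun s => th m (a • (s - 0)) := by
    ext s
    simp only [Pi.smul_apply, smul_eq_mul, sub_zero]
    exact thj_eq m j s
  have hsm : ContDiffAt ℝ (i : ℕ∞ω) (fun s => th m (a • (s - 0))) s := by
    apply ContDiff.contDiffAt
    have := (contDiff_th m).comp (show ContDiff ℝ ∞ (fun s : ℝ => a • (s - 0)) by fun_prop)
    exact this.of_le (by exact_mod_cast le_top)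
  rw [e1, iteratedFDeriv_const_smul_apply hsm, iteratedFDeriv_comp_smul_sub, norm_smul, norm_smul,
    Real.norm_of_nonneg (by positivity), Real.norm_of_nonneg (by positivity)]
  have h2 := hC i hi (a • (s - 0))
  rw [sub_zero, smul_eq_mul, abs_mul, abs_of_pos ha0] at h2
  rw [sub_zero, smul_eq_mul]
  have h3 : (1 + a * |s|) ^ (m - i) ≤ (a * 4) ^ (m - i) := by
    gcongr
    nlinarith [abs_nonneg s]
  have hCi : C i ≤ ∑ i ∈ Finset.range (m + 1), C i :=
    Finset.single_le_sum (f := C) (fun i hi => hC0 i (by simpa [Nat.lt_succ_iff] using hi))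
      (Finset.mem_range.2 (by omega))
  calc (a ^ m)⁻¹ * (a ^ i * ‖iteratedFDeriv ℝ i (th m) (a * s)‖)
      ≤ (a ^ m)⁻¹ * (a ^ i * (C i * (a * 4) ^ (m - i))) := by
        gcongr
        exact h2.trans (mul_le_mul_of_nonneg_left h3 (hC0 i hi))
    _ = C i * 4 ^ (m - i) := by
        have : a ^ m = a ^ i * a ^ (m - i) := by rw [← pow_add]; congr 1; omega
        rw [this, mul_pow]
        field_simp
    _ ≤ (∑ i ∈ Finset.range (m + 1), C i) * 4 ^ m := by
        gcongr
        · norm_num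
        · omega

end Pool.Agent.Lib.MP_9ca4ac_an
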