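import Mathlib
import Pool.Agent.Lib.MP_9ca4ac_an.Theta
import Pool.Agent.Lib.MP_9ca4ac_an.Profile

open MeasureTheory Metric Set Filter Topology
open scoped ContDiff ENNReal NNReal

noncomputable section

namespace Pool.Agent.Lib.MP_9ca4ac_an

set_option linter.unusedSectionVars false

variable {E : Type*} [NormedAddCommGroup E] [InnerProductSpace ℝ E] [FiniteDimensional ℝ E]

/-- quotient of `Dpoly` by `(X-1)^m` -/
def Rq (N m : ℕ) : Polynomial ℝ := Dpoly N m /ₘ (Polynomial.X - Polynomial.C 1) ^ m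

lemma Rq_mul (N : ℕ) (hN : 1 ≤ N) (m : ℕ) :
    Dpoly N m = (Polynomial.X - Polynomial.C 1) ^ m * Rq N m := by
  obtain ⟨R, hR⟩ := X_sub_one_pow_dvd_Dpoly N hN m
  have hmon : ((Polynomial.X - Polynomial.C 1 : Polynomial ℝ) ^ m).Monic :=
    (Polynomial.monic_X_sub_C (1:ℝ)).pow m
  unfold Rq
  conv_rhs => rw [hR]
  rw [Polynomial.mul_divByMonic_cancel_left R hmon]
  exact hR

/-- `(1 - Kout)/(‖x‖²-1)^m` -/
def Rh (N m : ℕ) (x : E) : ℝ :=
  (-1) ^ m * ((‖x‖ * (‖x‖ + 1)) ^ m)⁻¹ * (Rq N m).eval ‖x‖⁻¹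

lemma contDiffAt_Rh {n : ℕ∞ω} (N m : ℕ) {x : E} (hx : x ≠ 0) :
    ContDiffAt ℝ n (Rh N m : E → ℝ) x := by
  have hn : ContDiffAt ℝ n (fun y : E => ‖y‖) x := contDiffAt_norm ℝ hx
  have h0 : 0 < ‖x‖ := norm_pos_iff.2 hx
  unfold Rh
  apply ContDiffAt.mul
  · apply ContDiffAt.mul contDiffAt_const
    apply ContDiffAt.inv
    · exact (hn.mul (hn.add contDiffAt_const)).pow m
    · positivity
  · have h1 : ContDiffAt ℝ n (fun y : E => ‖y‖⁻¹) x := hn.inv h0.ne'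
    have h2 : ContDiff ℝ n (fun t : ℝ => (Rq N m).eval t) := by
      have := Polynomial.contDiff_aeval (𝕜 := ℝ) (Rq N m) n
      simpa using this
    exact h2.contDiffAt.comp x h1

lemma one_sub_Kout_eq {N : ℕ} (hN : 1 ≤ N) {m : ℕ} (hm : 1 ≤ m) {x : E} (hx : x ≠ 0) :
    1 - Kout N m x = (‖x‖ ^ 2 - 1) ^ m * Rh N m x := by
  have h0 : 0 < ‖x‖ := norm_pos_iff.2 hx
  rw [one_sub_Kout N hm, Rq_mul N hN m, Rh]
  simp only [Polynomial.eval_mul, Polynomial.eval_pow, Polynomial.eval_sub, Polynomial.eval_X,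
    Polynomial.eval_C]
  have e1 : ‖x‖⁻¹ - 1 = (‖x‖ ^ 2 - 1) * ((-1) * (‖x‖ * (‖x‖ + 1))⁻¹) := by
    field_simp
    ring
  rw [e1, mul_pow, mul_pow, inv_pow]
  ring

/-- smooth approximations of `1 - Kout`, zero near the closed unit ball -/
def ej (N m j : ℕ) (x : E) : ℝ := thj m j (‖x‖ ^ 2 - 1) * Rh N m x

lemma ej_zero {N m j : ℕ} {x : E} (h : ((j : ℝ) + 1) * (‖x‖ ^ 2 - 1) ≤ 1) : ej N m j x = 0 := by
  unfold ej
  rw [thj_zero h, zero_mul]

lemma ej_eq {N : ℕ} (hN : 1 ≤ N) {m : ℕ} (hm : 1 ≤ m) {j : ℕ} {x : E}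
    (h : 2 ≤ ((j : ℝ) + 1) * (‖x‖ ^ 2 - 1)) : ej N m j x = 1 - Kout N m x := by
  have hx : x ≠ 0 := by
    rintro rfl
    rw [norm_zero] at h
    nlinarith [Nat.cast_nonneg (α := ℝ) j]
  unfold ej
  rw [thj_pow h, one_sub_Kout_eq hN hm hx]

lemma ej_eventually_zero (N m j : ℕ) {x : E} (h : ‖x‖ ≤ 1) :
    (ej N m j : E → ℝ) =ᶠ[𝓝 x] fun _ => 0 := by
  have ho : IsOpen {y : E | ((j : ℝ) + 1) * (‖y‖ ^ 2 - 1) < 1} := by
    apply isOpen_lt <;> fun_prop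
  have hmem : x ∈ {y : E | ((j : ℝ) + 1) * (‖y‖ ^ 2 - 1) < 1} := by
    have h1 : ‖x‖ ^ 2 ≤ 1 := pow_le_one₀ (norm_nonneg _) h
    have h2 : (0:ℝ) ≤ (j:ℝ) + 1 := by positivity
    show ((j : ℝ) + 1) * (‖x‖ ^ 2 - 1) < 1
    nlinarith
  filter_upwards [ho.mem_nhds hmem] with y hy
  exact ej_zero (le_of_lt hy)

lemma contDiff_ej (N m j : ℕ) : ContDiff ℝ ∞ (ej N m j : E → ℝ) := by
  rw [contDiff_iff_contDiffAt]
  intro x
  by_cases hx : ‖x‖ ≤ 1
  · exact (contDiffAt_const (c := (0:ℝ))).congr_of_eventuallyEq (ej_eventually_zero N m j hx)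
  · have hx0 : x ≠ 0 := by rintro rfl; simp at hx
    unfold ej
    apply ContDiffAt.mul
    · apply ContDiff.contDiffAt
      exact (contDiff_thj m j).comp ((contDiff_norm_sq ℝ).sub contDiff_const)
    · exact contDiffAt_Rh N m hx0

lemma exists_bound_ej (N m : ℕ) : ∃ C : ℝ, 0 ≤ C ∧ ∀ j : ℕ, ∀ x : E, ‖x‖ ≤ 2 →
    ‖iteratedFDeriv ℝ m (ej N m j : E → ℝ) x‖ ≤ C := by
  -- bound for the square norm
  have hns : ContDiff ℝ ∞ (fun x : E => ‖x‖ ^ 2 - 1) := (contDiff_norm_sq ℝ).sub contDiff_const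
  have hbd1 : ∀ i : ℕ, ∃ C : ℝ, ∀ x : E, ‖x‖ ≤ 2 →
      ‖iteratedFDeriv ℝ i (fun x : E => ‖x‖ ^ 2 - 1) x‖ ≤ C := by
    intro i
    have hc : Continuous (fun x : E => ‖iteratedFDeriv ℝ i (fun x : E => ‖x‖ ^ 2 - 1) x‖) :=
      (hns.continuous_iteratedFDeriv (by exact_mod_cast le_top)).norm
    obtain ⟨C, hC⟩ := (isCompact_closedBall (0:E) 2).bddAbove_image hc.continuousOn
    exact ⟨C, fun x hx => hC (mem_image_of_mem _ (by simpa using hx))⟩
  choose D0 hD0 using hbd1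
  set D : ℝ := 1 + ∑ i ∈ Finset.range (m + 1), |D0 i| with hD
  have hD1 : 1 ≤ D := by
    rw [hD]
    have : 0 ≤ ∑ i ∈ Finset.range (m + 1), |D0 i| := Finset.sum_nonneg fun i _ => abs_nonneg _
    linarith
  have hDi : ∀ i ≤ m, ∀ x : E, ‖x‖ ≤ 2 →
      ‖iteratedFDeriv ℝ i (fun x : E => ‖x‖ ^ 2 - 1) x‖ ≤ D := by
    intro i hi x hx
    refine (hD0 i x hx).trans ?_
    have : |D0 i| ≤ ∑ i ∈ Finset.range (m + 1), |D0 i| :=
      Finset.single_le_sum (f := fun i => |D0 i|) (fun i _ => abs_nonneg _)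
        (Finset.mem_range.2 (by omega))
    have h2 := le_abs_self (D0 i)
    rw [hD]; linarith
  obtain ⟨Ct, hCt0, hCt⟩ := exists_bound_thj m
  have hcomp : ∀ i ≤ m, ∀ j : ℕ, ∀ x : E, ‖x‖ ≤ 2 →
      ‖iteratedFDeriv ℝ i (fun x : E => thj m j (‖x‖ ^ 2 - 1)) x‖ ≤
        (m.factorial : ℝ) * Ct * D ^ m := by
    intro i hi j x hx
    have h1 := norm_iteratedFDeriv_comp_le (𝕜 := ℝ) (g := thj m j)
      (f := fun x : E => ‖x‖ ^ 2 - 1) (N := ∞) (n := i) (contDiff_thj m j) hns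
      (by exact_mod_cast le_top) x (C := Ct) (D := D) ?_ ?_
    · refine h1.trans ?_
      have : (i.factorial : ℝ) ≤ (m.factorial : ℝ) := by exact_mod_cast Nat.factorial_le hi
      gcongr
    · intro l hl
      apply hCt l (hl.trans hi) j
      have h4 : ‖x‖ ^ 2 ≤ 4 := by nlinarith [norm_nonneg x]
      have h5 : 0 ≤ ‖x‖ ^ 2 := by positivity
      rw [abs_le]; constructor <;> linarith
    · intro l hl1 hl
      refine (hDi l (hl.trans hi) x hx).trans ?_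
      exact le_self_pow₀ hD1 (by omega)
  -- bound for Rh on the annulus
  have hbd2 : ∀ i : ℕ, ∃ C : ℝ, ∀ x : E, 1 ≤ ‖x‖ → ‖x‖ ≤ 2 →
      ‖iteratedFDeriv ℝ i (Rh N m : E → ℝ) x‖ ≤ C := by
    intro i
    have hc : ContinuousOn (fun x : E => ‖iteratedFDeriv ℝ i (Rh N m : E → ℝ) x‖)
        (closedBall (0:E) 2 \ ball 0 1) := by
      intro x hx
      have hx0 : x ≠ 0 := by
        rintro rfl
        exact hx.2 (by simp)
      have h3 : ContDiffAt ℝ (0 : ℕ∞ω) (iteratedFDeriv ℝ i (Rh N m : E → ℝ)) x := by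
        apply ContDiffAt.iteratedFDeriv_right (n := (i : ℕ∞ω)) (contDiffAt_Rh N m hx0)
        simp
      exact h3.continuousAt.norm.continuousWithinAt
    have hK : IsCompact (closedBall (0:E) 2 \ ball 0 1) :=
      (isCompact_closedBall (0:E) 2).diff isOpen_ball
    obtain ⟨C, hC⟩ := hK.bddAbove_image hc
    refine ⟨C, fun x hx1 hx2 => hC (mem_image_of_mem _ ⟨by simpa using hx2, by simpa using hx1⟩)⟩
  choose D1 hD1' using hbd2
  refine ⟨∑ i ∈ Finset.range (m + 1), (m.choose i : ℝ) * ((m.factorial : ℝ) * Ct * D ^ m) *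
    |D1 (m - i)|, ?_, ?_⟩
  · apply Finset.sum_nonneg; intro i _; positivity
  intro j x hx
  have hpos : 0 ≤ ∑ i ∈ Finset.range (m + 1), (m.choose i : ℝ) *
      ((m.factorial : ℝ) * Ct * D ^ m) * |D1 (m - i)| := by
    apply Finset.sum_nonneg; intro i _; positivity
  rcases le_or_gt ‖x‖ 1 with hx1 | hx1
  · rw [((ej_eventually_zero N m j hx1).iteratedFDeriv ℝ m).eq_of_nhds]
    have h0 : iteratedFDeriv ℝ m (fun _ : E => (0:ℝ)) x = 0 := by simp
    rw [h0, norm_zero]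
    exact hpos
  · have hx0 : x ≠ 0 := by rintro rfl; simp at hx1; linarith
    have hu : ContDiffAt ℝ (m : ℕ∞ω) (fun x : E => thj m j (‖x‖ ^ 2 - 1)) x := by
      apply ContDiff.contDiffAt
      have := (contDiff_thj m j).comp hns
      exact this.of_le (by exact_mod_cast le_top)
    have h1 := norm_iteratedFDeriv_mul_le_at hu (contDiffAt_Rh (n := (m : ℕ∞ω)) N m hx0)
    refine h1.trans (Finset.sum_le_sum fun i hi => ?_)
    rw [Finset.mem_range] at hi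
    gcongr
    · exact hcomp i (by omega) j x hx
    · exact (hD1' (m - i) x hx1.le hx).trans (le_abs_self _)

end Pool.Agent.Lib.MP_9ca4ac_an
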