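import Mathlib
import Pool.Agent.Lib.MP_9ca4ac_an.Ej

open MeasureTheory Metric Set Filter Topology
open scoped ContDiff ENNReal NNReal

noncomputable section

namespace Pool.Agent.Lib.MP_9ca4ac_an

set_option linter.unusedSectionVars false

variable {E : Type*} [NormedAddCommGroup E] [InnerProductSpace ℝ E] [FiniteDimensional ℝ E]

/-- building block around a hole of centre `z` and radius `a` -/
def Kz (N m j : ℕ) (b a : ℝ) (z x : E) : ℝ := b * (1 - ej N m j (a⁻¹ • (x - z)))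

lemma contDiff_Kz (N m j : ℕ) (b a : ℝ) (z : E) : ContDiff ℝ ∞ (Kz N m j b a z : E → ℝ) := by
  unfold Kz
  apply ContDiff.mul contDiff_const
  apply ContDiff.sub contDiff_const
  exact (contDiff_ej N m j).comp (by fun_prop)

lemma Kz_near (N m j : ℕ) (b : ℝ) {a : ℝ} (ha : 0 < a) {z x : E} (h : ‖x - z‖ ≤ a) :
    (Kz N m j b a z : E → ℝ) =ᶠ[𝓝 x] fun _ => b := by
  have h1 : ‖a⁻¹ • (x - z)‖ ≤ 1 := by
    rw [norm_smul, Real.norm_of_nonneg (by positivity), inv_mul_le_iff₀ ha, mul_one]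
    exact h
  have h2 : ContinuousAt (fun y : E => a⁻¹ • (y - z)) x := by fun_prop
  have h3 := h2.tendsto.eventually (ej_eventually_zero N m j h1)
  filter_upwards [h3] with y hy
  unfold Kz
  rw [hy]; ring

lemma norm_inv_smul {a : ℝ} (ha : 0 < a) (v : E) : ‖a⁻¹ • v‖ = ‖v‖ / a := by
  rw [norm_smul, Real.norm_of_nonneg (by positivity)]; ring

lemma Kz_eq {N : ℕ} (hN : 1 ≤ N) {m : ℕ} (hm : 1 ≤ m) {j : ℕ} (b : ℝ) {a : ℝ} (ha : 0 < a)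
    {z x : E} (h : 2 * a ^ 2 ≤ ((j : ℝ) + 1) * (‖x - z‖ ^ 2 - a ^ 2)) :
    Kz N m j b a z x = b * Kout N m (a⁻¹ • (x - z)) := by
  unfold Kz
  rw [ej_eq hN hm]
  · ring
  · rw [norm_inv_smul ha]
    have ha2 : 0 < a ^ 2 := by positivity
    have : ((j : ℝ) + 1) * ((‖x - z‖ / a) ^ 2 - 1) =
        (((j : ℝ) + 1) * (‖x - z‖ ^ 2 - a ^ 2)) / a ^ 2 := by
      field_simp
    rw [this, le_div_iff₀ ha2]
    exact h

lemma Kz_far {N : ℕ} (hN : 1 ≤ N) {m : ℕ} (hm : 1 ≤ m) (j : ℕ) (b : ℝ) {a : ℝ} (ha : 0 < a)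
    {z x : E} (h : 7 / 4 * a ≤ ‖x - z‖) :
    Kz N m j b a z x = b * Kout N m (a⁻¹ • (x - z)) := by
  apply Kz_eq hN hm b ha
  have h1 : (7 / 4 * a) ^ 2 ≤ ‖x - z‖ ^ 2 := by gcongr
  have h2 : (0:ℝ) ≤ j := Nat.cast_nonneg j
  nlinarith [sq_nonneg a, mul_nonneg h2 (sub_nonneg.2 h1), mul_nonneg h2 (sq_nonneg a)]

lemma Kz_far_eventually {N : ℕ} (hN : 1 ≤ N) {m : ℕ} (hm : 1 ≤ m) (j : ℕ) (b : ℝ) {a : ℝ}
    (ha : 0 < a) {z x : E} (h : 7 / 4 * a < ‖x - z‖) :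
    (Kz N m j b a z : E → ℝ) =ᶠ[𝓝 x] fun y => b * Kout N m (a⁻¹ • (y - z)) := by
  have ho : IsOpen {y : E | 7 / 4 * a < ‖y - z‖} := by apply isOpen_lt <;> fun_prop
  filter_upwards [ho.mem_nhds h] with y hy
  exact Kz_far hN hm j b ha (le_of_lt hy)

lemma Kz_eventually {N : ℕ} (hN : 1 ≤ N) {m : ℕ} (hm : 1 ≤ m) (b : ℝ) {a : ℝ} (ha : 0 < a)
    {z x : E} (h : a < ‖x - z‖) :
    ∃ U ∈ 𝓝 x, ∃ j0 : ℕ, ∀ j ≥ j0, ∀ y ∈ U,
      Kz N m j b a z y = b * Kout N m (a⁻¹ • (y - z)) := by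
  obtain ⟨c, hc1, hc2⟩ := exists_between h
  have ho : IsOpen {y : E | c < ‖y - z‖} := by apply isOpen_lt <;> fun_prop
  refine ⟨_, ho.mem_nhds hc2, ?_⟩
  have hca : 0 < c ^ 2 - a ^ 2 := by nlinarith
  obtain ⟨j0, hj0⟩ := exists_nat_gt (2 * a ^ 2 / (c ^ 2 - a ^ 2))
  refine ⟨j0, fun j hj y hy => Kz_eq hN hm b ha ?_⟩
  have hy' : c < ‖y - z‖ := hy
  rw [div_lt_iff₀ hca] at hj0
  have h1 : (j0 : ℝ) ≤ j := by exact_mod_cast hj
  have h2 : c ^ 2 ≤ ‖y - z‖ ^ 2 := by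
    have : 0 < c := ha.trans hc1
    gcongr
  calc 2 * a ^ 2 ≤ (j0 : ℝ) * (c ^ 2 - a ^ 2) := hj0.le
    _ ≤ ((j : ℝ) + 1) * (‖y - z‖ ^ 2 - a ^ 2) := by
        apply mul_le_mul _ _ hca.le (by positivity)
        · linarith
        · linarith

lemma ip_scale' (s : ℕ) {a : ℝ} (ha : 0 < a) (y : E) : ip s (a⁻¹ • y) = a ^ s * ip s y := by
  rw [ip_scale s (inv_pos.2 ha) y, ← mul_assoc, ← mul_pow, mul_inv_cancel₀ ha.ne', one_pow, one_mul]

lemma contDiffAt_Kout_comp {k : ℕ∞ω} (N m : ℕ) {a : ℝ} (ha : 0 < a) {z x : E} (h : x ≠ z) :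
    ContDiffAt ℝ k (fun y : E => Kout N m (a⁻¹ • (y - z))) x := by
  have hne : a⁻¹ • (x - z) ≠ 0 := smul_ne_zero (inv_pos.2 ha).ne' (sub_ne_zero.2 h)
  have hg : ContDiffAt ℝ k (fun y : E => a⁻¹ • (y - z)) x := by fun_prop
  exact ContDiffAt.comp (g := (Kout N m : E → ℝ)) x (contDiffAt_Kout N m hne) hg

lemma nlap_Kout_comp {N m : ℕ} (hE : Module.finrank ℝ E = N + 2 * m) (b : ℝ) {a : ℝ}
    (ha : 0 < a) {z x : E} (h : x ≠ z) :
    nlap m (fun y : E => b * Kout N m (a⁻¹ • (y - z))) x = 0 := by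
  have hne : a⁻¹ • (x - z) ≠ 0 := smul_ne_zero (inv_pos.2 ha).ne' (sub_ne_zero.2 h)
  rw [nlap_const_mul_field m b (fun y : E => Kout N m (a⁻¹ • (y - z))),
    nlap_comp_smul_sub m a⁻¹ z (Kout N m : E → ℝ)]
  simp only
  rw [nlap_Kout hE hne]; ring

lemma exists_bound_Kz (N m k : ℕ) (hN : 1 ≤ N) (hm : 1 ≤ m) : ∃ C : ℝ, 0 ≤ C ∧
    ∀ (j : ℕ) (b a : ℝ) (z x : E), 0 ≤ b → 0 < a → 2 * a ≤ ‖x - z‖ →
    ‖iteratedFDeriv ℝ k (Kz N m j b a z : E → ℝ) x‖ ≤ C * (b * a ^ N) * ip (N + k) (x - z) := by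
  obtain ⟨C, hC0, hC⟩ := exists_bound_Kout (E := E) N m k
  refine ⟨C, hC0, fun j b a z x hb ha h => ?_⟩
  have hxz : x ≠ z := by
    rintro rfl
    simp at h; linarith
  have h1 := Kz_far_eventually hN hm j b ha (x := x) (z := z) (by linarith)
  rw [(h1.iteratedFDeriv ℝ k).eq_of_nhds]
  have e1 : iteratedFDeriv ℝ k (fun y : E => b * Kout N m (a⁻¹ • (y - z))) x =
      b • iteratedFDeriv ℝ k (fun y : E => Kout N m (a⁻¹ • (y - z))) x := by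
    have h := iteratedFDeriv_const_smul_apply (𝕜 := ℝ) (i := k) (a := b)
      (f := fun y : E => Kout N m (a⁻¹ • (y - z))) (x := x) (contDiffAt_Kout_comp N m ha hxz)
    exact h
  rw [e1, iteratedFDeriv_comp_smul_sub, norm_smul, norm_smul, Real.norm_of_nonneg hb,
    Real.norm_of_nonneg (by positivity)]
  have h2 : 1 ≤ ‖a⁻¹ • (x - z)‖ := by
    rw [norm_inv_smul ha, le_div_iff₀ ha]; linarith
  have h3 := hC _ h2
  rw [ip_scale' _ ha] at h3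
  calc b * (a⁻¹ ^ k * ‖iteratedFDeriv ℝ k (Kout N m : E → ℝ) (a⁻¹ • (x - z))‖)
      ≤ b * (a⁻¹ ^ k * (C * (a ^ (N + k) * ip (N + k) (x - z)))) := by gcongr
    _ = C * (b * a ^ N) * ip (N + k) (x - z) := by
        rw [pow_add, inv_pow]
        field_simp

lemma exists_Kz_sub (N m : ℕ) (hN : 1 ≤ N) (hm : 1 ≤ m) : ∃ C : ℝ, 0 ≤ C ∧
    ∀ (j : ℕ) (b a : ℝ) (z x : E), 0 ≤ b → 0 < a → 2 * a ≤ ‖x - z‖ →
    |Kz N m j b a z x - (b * (Ppoly N m).coeff 0 * a ^ N) * ip N (x - z)| ≤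
      C * (b * a ^ N) * a ^ 2 * ip (N + 2) (x - z) := by
  obtain ⟨C, hC0, hC⟩ := exists_Kout_sub (E := E) N hm
  refine ⟨C, hC0, fun j b a z x hb ha h => ?_⟩
  rw [Kz_far hN hm j b ha (by linarith)]
  have h2 : 1 ≤ ‖a⁻¹ • (x - z)‖ := by
    rw [norm_inv_smul ha, le_div_iff₀ ha]; linarith
  have h3 := hC _ h2
  rw [ip_scale' _ ha, ip_scale' _ ha] at h3
  have e1 : b * Kout N m (a⁻¹ • (x - z)) - (b * (Ppoly N m).coeff 0 * a ^ N) * ip N (x - z) =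
      b * (Kout N m (a⁻¹ • (x - z)) - (Ppoly N m).coeff 0 * (a ^ N * ip N (x - z))) := by ring
  rw [e1, abs_mul, abs_of_nonneg hb]
  calc b * |Kout N m (a⁻¹ • (x - z)) - (Ppoly N m).coeff 0 * (a ^ N * ip N (x - z))|
      ≤ b * (C * (a ^ (N + 2) * ip (N + 2) (x - z))) := by gcongr
    _ = _ := by rw [pow_add]; ring

/-- a fixed radial cutoff: `1` on the closed ball of radius `2`, `0` outside the ball of
radius `3` -/
def zetaB : ContDiffBump (0 : E) := ⟨2, 3, by norm_num, by norm_num⟩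

/-- the cutoff function `zetaB` as a plain function -/
def zeta (x : E) : ℝ := (zetaB : ContDiffBump (0 : E)) x

lemma contDiff_zeta : ContDiff ℝ ∞ (zeta : E → ℝ) := by
  unfold zeta
  exact (zetaB : ContDiffBump (0 : E)).contDiff

lemma zeta_one {x : E} (h : ‖x‖ ≤ 2) : zeta x = 1 := by
  unfold zeta
  apply ContDiffBump.one_of_mem_closedBall
  simpa [zetaB] using h

lemma zeta_zero {x : E} (h : 3 ≤ ‖x‖) : zeta x = 0 := by
  unfold zeta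
  apply ContDiffBump.zero_of_le_dist
  simpa [zetaB] using h

lemma exists_bound_zeta (k : ℕ) : ∃ C : ℝ, 0 ≤ C ∧ ∀ x : E,
    ‖iteratedFDeriv ℝ k (zeta : E → ℝ) x‖ ≤ C := by
  have hc : Continuous (fun x : E => ‖iteratedFDeriv ℝ k (zeta : E → ℝ) x‖) :=
    (contDiff_zeta.continuous_iteratedFDeriv (by exact_mod_cast le_top)).norm
  obtain ⟨C, hC⟩ := (isCompact_closedBall (0:E) 4).bddAbove_image hc.continuousOn
  refine ⟨max C 0, le_max_right _ _, fun x => ?_⟩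
  rcases le_or_gt ‖x‖ 4 with hx | hx
  · exact (hC (mem_image_of_mem _ (by simpa using hx))).trans (le_max_left _ _)
  · have : (zeta : E → ℝ) =ᶠ[𝓝 x] fun _ => 0 := by
      have ho : IsOpen {y : E | 4 < ‖y‖} := by apply isOpen_lt <;> fun_prop
      filter_upwards [ho.mem_nhds hx] with y hy
      have : 4 < ‖y‖ := hy
      exact zeta_zero (by linarith)
    rw [(this.iteratedFDeriv ℝ k).eq_of_nhds]
    have h0 : iteratedFDeriv ℝ k (fun _ : E => (0:ℝ)) x = 0 := by simp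
    rw [h0, norm_zero]
    exact le_max_right _ _

lemma exists_cut_bound (E : Type*) [NormedAddCommGroup E] [InnerProductSpace ℝ E]
    [FiniteDimensional ℝ E] (m : ℕ) : ∃ C : ℝ, 0 ≤ C ∧
    ∀ (p : E) (ρ ε : ℝ) (h : E → ℝ) (x : E), 0 < ρ → ContDiffAt ℝ ∞ h x →
    (∀ k ≤ 2 * m, ρ ^ k * ‖iteratedFDeriv ℝ k h x‖ ≤ ε) →
    |nlap m (fun y => zeta (ρ⁻¹ • (y - p)) * h y) x| ≤ C * ε * (ρ ^ (2 * m))⁻¹ := by
  choose Z hZ0 hZ using fun k => exists_bound_zeta (E := E) k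
  refine ⟨(Module.finrank ℝ E : ℝ) ^ m * ∑ i ∈ Finset.range (2 * m + 1),
    ((2 * m).choose i : ℝ) * Z i, ?_, ?_⟩
  · apply mul_nonneg (by positivity)
    exact Finset.sum_nonneg fun i _ => mul_nonneg (by positivity) (hZ0 i)
  intro p ρ ε h x hρ hh hk
  have hh' : ContDiffAt ℝ ((2 * m : ℕ) : ℕ∞ω) h x := contDiffAt_infty.1 hh _
  have hz : ContDiffAt ℝ ((2 * m : ℕ) : ℕ∞ω) (fun y : E => zeta (ρ⁻¹ • (y - p))) x := by
    have : ContDiff ℝ ∞ (fun y : E => zeta (ρ⁻¹ • (y - p))) := contDiff_zeta.comp (by fun_prop)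
    exact contDiffAt_infty.1 this.contDiffAt _
  refine (abs_nlap_le (hz.mul hh')).trans ?_
  rw [mul_assoc, mul_assoc]
  refine mul_le_mul_of_nonneg_left ?_ (by positivity)
  refine (norm_iteratedFDeriv_mul_le_at hz hh').trans ?_
  rw [Finset.sum_mul]
  refine Finset.sum_le_sum fun i hi => ?_
  rw [Finset.mem_range] at hi
  rw [iteratedFDeriv_comp_smul_sub, norm_smul, Real.norm_of_nonneg (by positivity)]
  have h1 := hk (2 * m - i) (by omega)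
  have h2 : ‖iteratedFDeriv ℝ (2 * m - i) h x‖ ≤ ε * (ρ ^ (2 * m - i))⁻¹ := by
    rw [← div_eq_mul_inv, le_div_iff₀ (by positivity), mul_comm]; exact h1
  have h3 : (ρ ^ (2 * m))⁻¹ = (ρ⁻¹) ^ i * (ρ ^ (2 * m - i))⁻¹ := by
    rw [inv_pow, ← mul_inv, ← pow_add]; congr 2; omega
  rw [h3]
  have hε : 0 ≤ ε := (by positivity : (0:ℝ) ≤ ρ ^ 0 * ‖iteratedFDeriv ℝ 0 h x‖).trans
    (hk 0 (by omega))
  calc ((2 * m).choose i : ℝ) * (ρ⁻¹ ^ i * ‖iteratedFDeriv ℝ i (zeta : E → ℝ) (ρ⁻¹ • (x - p))‖) *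
        ‖iteratedFDeriv ℝ (2 * m - i) h x‖
      ≤ ((2 * m).choose i : ℝ) * (ρ⁻¹ ^ i * Z i) * (ε * (ρ ^ (2 * m - i))⁻¹) := by
        have := hZ0 i
        gcongr
        exact hZ i _
    _ = _ := by ring

end Pool.Agent.Lib.MP_9ca4ac_an
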