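import Mathlib
import Pool.Agent.Lib.MP_9ca4ac_an.Kz

open MeasureTheory Metric Set Filter Topology
open scoped ContDiff ENNReal NNReal

noncomputable section

namespace Pool.Agent.Lib.MP_9ca4ac_an

set_option linter.unusedSectionVars false

variable {E : Type*} [NormedAddCommGroup E] [InnerProductSpace ℝ E] [FiniteDimensional ℝ E]

open scoped Classical in
/-- hypotheses on the configuration of holes -/
structure GH (N m : ℕ) (X : Finset E) (a b : E → ℝ) (q α β C1 r L : ℝ) : Prop where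
  hN : 1 ≤ N
  hm : 1 ≤ m
  hE : Module.finrank ℝ E = N + 2 * m
  q_pos : 0 < q
  β_pos : 0 < β
  α_pos : 0 < α
  α_le : α ≤ 1 / 8
  a_pos : ∀ z ∈ X, 0 < a z
  a_le : ∀ z ∈ X, a z ≤ α
  b_ge : ∀ z ∈ X, β ≤ b z
  bq : ∀ z ∈ X, b z * (Ppoly N m).coeff 0 * a z ^ N = q
  norm_ge : ∀ z ∈ X, 1 ≤ ‖z‖
  norm_le : ∀ z ∈ X, ‖z‖ ≤ 2
  sep : ∀ z ∈ X, ∀ y ∈ X, y ≠ z → 8 * α ≤ ‖z - y‖
  b_eq : ∀ z ∈ X, 1 - b z = ∑ y ∈ X.erase z, q * ip N (z - y)
  sum1 : ∀ z ∈ X, ∑ y ∈ X.erase z, q * ip (N + 1) (z - y) ≤ C1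
  card : q * X.card ≤ C1
  r_pos : 0 < r
  r_le : r ≤ 1 / 6
  L_ge : 2 ≤ L

/-- sum of the building blocks -/
def Sj (N m : ℕ) (X : Finset E) (a b : E → ℝ) (j : ℕ) (x : E) : ℝ :=
  ∑ z ∈ X, Kz N m j (b z) (a z) z x

open scoped Classical in
/-- the remainder at a hole -/
def Rz (N m : ℕ) (X : Finset E) (a b : E → ℝ) (z x : E) : ℝ :=
  1 - b z - ∑ y ∈ X.erase z, Kz N m 0 (b y) (a y) y x

/-- the approximants of the gadget function -/
def gam (N m : ℕ) (X : Finset E) (a b : E → ℝ) (r L : ℝ) (j : ℕ) (x : E) : ℝ :=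
  1 - zeta (L⁻¹ • (x - 0)) * Sj N m X a b j x
    - ∑ z ∈ X, zeta ((a z)⁻¹ • (x - z)) * Rz N m X a b z x
    + zeta (r⁻¹ • (x - 0)) * (Sj N m X a b j x - Sj N m X a b 0 0)

variable {N m : ℕ} {X : Finset E} {a b : E → ℝ} {q α β C1 r L : ℝ}

lemma contDiff_Sj (j : ℕ) : ContDiff ℝ ∞ (Sj N m X a b j) := by
  unfold Sj
  exact ContDiff.sum fun z _ => contDiff_Kz _ _ _ _ _ _

lemma contDiff_Rz (z : E) : ContDiff ℝ ∞ (Rz N m X a b z) := by
  unfold Rz
  exact contDiff_const.sub (ContDiff.sum fun z _ => contDiff_Kz _ _ _ _ _ _)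

lemma contDiff_zeta_comp (c : ℝ) (p : E) : ContDiff ℝ ∞ (fun x : E => zeta (c • (x - p))) :=
  contDiff_zeta.comp (by fun_prop)

lemma contDiff_gam (j : ℕ) : ContDiff ℝ ∞ (gam N m X a b r L j) := by
  unfold gam
  apply ContDiff.add
  · apply ContDiff.sub
    · exact contDiff_const.sub ((contDiff_zeta_comp _ _).mul (contDiff_Sj _))
    · exact ContDiff.sum fun z _ => (contDiff_zeta_comp _ _).mul (contDiff_Rz _)
  · exact (contDiff_zeta_comp _ _).mul ((contDiff_Sj _).sub contDiff_const)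

lemma zeta_smul_one {ρ : ℝ} (hρ : 0 < ρ) {p x : E} (h : ‖x - p‖ ≤ 2 * ρ) :
    zeta (ρ⁻¹ • (x - p)) = 1 := by
  apply zeta_one
  rw [norm_inv_smul hρ, div_le_iff₀ hρ]
  exact h

lemma zeta_smul_zero {ρ : ℝ} (hρ : 0 < ρ) {p x : E} (h : 3 * ρ ≤ ‖x - p‖) :
    zeta (ρ⁻¹ • (x - p)) = 0 := by
  apply zeta_zero
  rw [norm_inv_smul hρ, le_div_iff₀ hρ]
  exact h

/-- near the hole `z` the approximants are explicit -/
lemma gam_near (H : GH N m X a b q α β C1 r L) (j : ℕ) {z x : E} (hz : z ∈ X)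
    (hx : ‖x - z‖ < 2 * a z) :
    gam N m X a b r L j x = b z - Kz N m j (b z) (a z) z x := by
  classical
  have hα := H.α_pos
  have hα1 := H.α_le
  have haz := H.a_pos z hz
  have haz1 := H.a_le z hz
  have hr := H.r_pos
  have hr1 := H.r_le
  have hL := H.L_ge
  have hL0 : 0 < L := by linarith
  have hz1 := H.norm_ge z hz
  have hz2 := H.norm_le z hz
  have n1 : ‖x‖ ≤ ‖x - z‖ + ‖z‖ := by
    simpa using norm_add_le (x - z) z
  have n2 : ‖z‖ ≤ ‖x - z‖ + ‖x‖ := by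
    have := norm_sub_le x (x - z)
    simp only [sub_sub_cancel] at this
    linarith
  have hfar : ∀ y ∈ X.erase z, 6 * α ≤ ‖x - y‖ := by
    intro y hy
    have h1 := H.sep z hz y (Finset.mem_of_mem_erase hy) (Finset.ne_of_mem_erase hy)
    have h2 : ‖z - y‖ ≤ ‖x - z‖ + ‖x - y‖ := by
      have := norm_sub_le (x - y) (x - z)
      simp only [sub_sub_sub_cancel_left] at this
      linarith
    linarith
  have e1 : zeta (L⁻¹ • (x - 0)) = 1 := by
    apply zeta_smul_one hL0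
    rw [sub_zero]; linarith
  have e2 : zeta (r⁻¹ • (x - 0)) = 0 := by
    apply zeta_smul_zero hr
    rw [sub_zero]; linarith
  have e3 : ∑ y ∈ X, zeta ((a y)⁻¹ • (x - y)) * Rz N m X a b y x = Rz N m X a b z x := by
    rw [← Finset.add_sum_erase X _ hz, zeta_smul_one haz hx.le, one_mul]
    have : ∑ y ∈ X.erase z, zeta ((a y)⁻¹ • (x - y)) * Rz N m X a b y x = 0 := by
      apply Finset.sum_eq_zero
      intro y hy
      have hyX := Finset.mem_of_mem_erase hy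
      have := H.a_le y hyX
      rw [zeta_smul_zero (H.a_pos y hyX) (by linarith [hfar y hy]), zero_mul]
    rw [this, add_zero]
  have e4 : Sj N m X a b j x = Kz N m j (b z) (a z) z x +
      ∑ y ∈ X.erase z, Kz N m 0 (b y) (a y) y x := by
    unfold Sj
    rw [← Finset.add_sum_erase X _ hz]
    congr 1
    apply Finset.sum_congr rfl
    intro y hy
    have hyX := Finset.mem_of_mem_erase hy
    have h1 := H.a_le y hyX
    have h2 := H.a_pos y hyX
    have h3 := hfar y hy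
    rw [Kz_far H.hN H.hm j _ h2 (by linarith), Kz_far H.hN H.hm 0 _ h2 (by linarith)]
  unfold gam
  rw [e1, e2, e3, e4, Rz]
  ring

lemma Sj_eq_far (H : GH N m X a b q α β C1 r L) (j : ℕ) {x : E}
    (hx : ∀ z ∈ X, 7 / 4 * a z ≤ ‖x - z‖) : Sj N m X a b j x = Sj N m X a b 0 x := by
  unfold Sj
  apply Finset.sum_congr rfl
  intro z hz
  rw [Kz_far H.hN H.hm j _ (H.a_pos z hz) (hx z hz), Kz_far H.hN H.hm 0 _ (H.a_pos z hz) (hx z hz)]

lemma gam_eq_far (H : GH N m X a b q α β C1 r L) (j : ℕ) {x : E}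
    (hx : ∀ z ∈ X, 7 / 4 * a z ≤ ‖x - z‖) :
    gam N m X a b r L j x = gam N m X a b r L 0 x := by
  unfold gam
  rw [Sj_eq_far H j hx]

lemma isOpen_far (c : ℝ) : IsOpen {x : E | ∀ z ∈ X, c * a z < ‖x - z‖} := by
  have : {x : E | ∀ z ∈ X, c * a z < ‖x - z‖} = ⋂ z ∈ X, {x : E | c * a z < ‖x - z‖} := by
    ext x; simp
  rw [this]
  apply isOpen_biInter_finset
  intro z _
  apply isOpen_lt <;> fun_prop

lemma norm_sub_ge_of_le_half (H : GH N m X a b q α β C1 r L) {x z : E} (hz : z ∈ X)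
    (hx : ‖x‖ ≤ 1 / 2) : 1 / 2 ≤ ‖x - z‖ := by
  have hz1 := H.norm_ge z hz
  have n2 : ‖z‖ ≤ ‖x - z‖ + ‖x‖ := by
    have := norm_sub_le x (x - z)
    simp only [sub_sub_cancel] at this
    linarith
  linarith

lemma norm_sub_ge_of_ge_four (H : GH N m X a b q α β C1 r L) {x z : E} (hz : z ∈ X)
    (hx : 4 ≤ ‖x‖) : ‖x‖ / 2 ≤ ‖x - z‖ := by
  have hz2 := H.norm_le z hz
  have n1 : ‖x‖ ≤ ‖x - z‖ + ‖z‖ := by
    simpa using norm_add_le (x - z) z
  linarith

lemma gam_outer (H : GH N m X a b q α β C1 r L) (j : ℕ) {x : E} (hx : 3 * L ≤ ‖x‖) :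
    gam N m X a b r L j x = 1 := by
  have hr := H.r_pos
  have hr1 := H.r_le
  have hL := H.L_ge
  have hL0 : 0 < L := by linarith
  unfold gam
  rw [zeta_smul_zero hL0 (by rw [sub_zero]; exact hx),
    zeta_smul_zero hr (by rw [sub_zero]; linarith)]
  have : ∑ z ∈ X, zeta ((a z)⁻¹ • (x - z)) * Rz N m X a b z x = 0 := by
    apply Finset.sum_eq_zero
    intro z hz
    have h1 := norm_sub_ge_of_ge_four H hz (x := x) (by linarith)
    have h2 := H.a_le z hz
    have h3 := H.α_le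
    rw [zeta_smul_zero (H.a_pos z hz) (by linarith), zero_mul]
  rw [this]; ring

lemma gam_inner (H : GH N m X a b q α β C1 r L) (j : ℕ) {x : E} (hx : ‖x‖ ≤ 2 * r) :
    gam N m X a b r L j x = 1 - Sj N m X a b 0 0 := by
  have hr := H.r_pos
  have hr1 := H.r_le
  have hL := H.L_ge
  have hL0 : 0 < L := by linarith
  unfold gam
  rw [zeta_smul_one hL0 (by rw [sub_zero]; linarith),
    zeta_smul_one hr (by rw [sub_zero]; exact hx)]
  have : ∑ z ∈ X, zeta ((a z)⁻¹ • (x - z)) * Rz N m X a b z x = 0 := by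
    apply Finset.sum_eq_zero
    intro z hz
    have h1 := norm_sub_ge_of_le_half H hz (x := x) (by linarith)
    have h2 := H.a_le z hz
    have h3 := H.α_le
    rw [zeta_smul_zero (H.a_pos z hz) (by linarith), zero_mul]
  rw [this]; ring

lemma nlap_Sj_far (H : GH N m X a b q α β C1 r L) (j : ℕ) {x : E}
    (hx : ∀ z ∈ X, 7 / 4 * a z < ‖x - z‖) : nlap m (Sj N m X a b j) x = 0 := by
  have : Sj N m X a b j = ∑ z ∈ X, (Kz N m j (b z) (a z) z : E → ℝ) := by
    ext y; simp [Sj]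
  rw [this, nlap_sum]
  · apply Finset.sum_eq_zero
    intro z hz
    have haz := H.a_pos z hz
    rw [nlap_congr_at (Kz_far_eventually H.hN H.hm j (b z) haz (hx z hz))]
    apply nlap_Kout_comp H.hE _ haz
    rintro rfl
    have := hx x hz
    simp at this; linarith
  · intro z _
    exact contDiffAt_infty.1 (contDiff_Kz _ _ _ _ _ _).contDiffAt _

open scoped Classical in
/-- the right-hand side produced by the gadget -/
def fg (N m : ℕ) (X : Finset E) (a b : E → ℝ) (r L : ℝ) (x : E) : ℝ :=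
  if ∃ z ∈ X, ‖x - z‖ < 2 * a z then 0 else nlap m (gam N m X a b r L 0) x

lemma fg_near {z x : E} (hz : z ∈ X) (hx : ‖x - z‖ < 2 * a z) :
    fg N m X a b r L =ᶠ[𝓝 x] fun _ => 0 := by
  have ho : IsOpen {y : E | ‖y - z‖ < 2 * a z} := by apply isOpen_lt <;> fun_prop
  filter_upwards [ho.mem_nhds hx] with y hy
  unfold fg
  rw [if_pos ⟨z, hz, hy⟩]

lemma nlap_gam_near (H : GH N m X a b q α β C1 r L) (j : ℕ) {z x : E} (hz : z ∈ X)
    (hx : ‖x - z‖ < 2 * a z) (hx2 : 7 / 4 * a z < ‖x - z‖) :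
    nlap m (gam N m X a b r L j) x = 0 := by
  have haz := H.a_pos z hz
  have hxz : x ≠ z := by
    rintro rfl
    simp at hx2; linarith
  have h1 : gam N m X a b r L j =ᶠ[𝓝 x]
      (fun _ => b z) - fun y => b z * Kout N m ((a z)⁻¹ • (y - z)) := by
    have ho : IsOpen {y : E | ‖y - z‖ < 2 * a z} := by apply isOpen_lt <;> fun_prop
    filter_upwards [ho.mem_nhds hx, Kz_far_eventually H.hN H.hm j (b z) haz hx2] with y hy hy2
    rw [gam_near H j hz hy, hy2]
    rfl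
  rw [nlap_congr_at h1, nlap_sub contDiffAt_const
    (contDiffAt_const.mul (contDiffAt_Kout_comp N m haz hxz)), nlap_Kout_comp H.hE _ haz hxz,
    nlap_const H.hm]
  simp

lemma fg_far (H : GH N m X a b q α β C1 r L) {x : E}
    (hx : ∀ z ∈ X, 7 / 4 * a z < ‖x - z‖) :
    fg N m X a b r L =ᶠ[𝓝 x] nlap m (gam N m X a b r L 0) := by
  filter_upwards [(isOpen_far (X := X) (a := a) (7 / 4)).mem_nhds hx] with y hy
  unfold fg
  split_ifs with h
  · obtain ⟨z, hz, hz2⟩ := h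
    rw [nlap_gam_near H 0 hz hz2 (hy z hz)]
  · rfl

lemma near_or_far (H : GH N m X a b q α β C1 r L) (x : E) :
    (∃ z ∈ X, ‖x - z‖ < 2 * a z) ∨ (∀ z ∈ X, 7 / 4 * a z < ‖x - z‖) := by
  by_cases h : ∃ z ∈ X, ‖x - z‖ < 2 * a z
  · exact Or.inl h
  · right
    push Not at h
    intro z hz
    have := h z hz
    have := H.a_pos z hz
    linarith

lemma contDiff_fg (H : GH N m X a b q α β C1 r L) : ContDiff ℝ ∞ (fg N m X a b r L) := by
  rw [contDiff_iff_contDiffAt]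
  intro x
  rcases near_or_far H x with ⟨z, hz, hx⟩ | hx
  · exact contDiffAt_const.congr_of_eventuallyEq (fg_near hz hx)
  · exact (contDiffAt_nlap_infty (contDiff_gam 0).contDiffAt).congr_of_eventuallyEq (fg_far H hx)

end Pool.Agent.Lib.MP_9ca4ac_an
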