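import Mathlib
import Pool.Agent.Lib.MP_9ca4ac_an.Gadget1

open MeasureTheory Metric Set Filter Topology
open scoped ContDiff ENNReal NNReal

noncomputable section

namespace Pool.Agent.Lib.MP_9ca4ac_an

set_option linter.unusedSectionVars false

variable {E : Type*} [NormedAddCommGroup E] [InnerProductSpace ℝ E] [FiniteDimensional ℝ E]
variable {N m : ℕ} {X : Finset E} {a b : E → ℝ} {q α β C1 r L : ℝ}

lemma ip_comp (s : ℕ) {c : ℝ} (hc : 0 < c) {x z : E} (hz : z ≠ 0) (h : c * ‖z‖ ≤ ‖x‖) :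
    ip s x ≤ (c ^ s)⁻¹ * ip s z := by
  have hz0 : 0 < ‖z‖ := norm_pos_iff.2 hz
  unfold ip
  rw [← mul_inv, ← mul_pow]
  gcongr

lemma pow_mul_ip_le {N k : ℕ} (hk : 1 ≤ k) {a α : ℝ} (ha : 0 ≤ a) (haα : a ≤ α) {v : E}
    (hv : α ≤ ‖v‖) (hα : 0 < α) : a ^ k * ip (N + k) v ≤ α * ip (N + 1) v := by
  obtain ⟨k, rfl⟩ : ∃ l, k = l + 1 := ⟨k - 1, by omega⟩
  have hv0 : 0 < ‖v‖ := hα.trans_le hv
  have h1 : a ^ k * (‖v‖ ^ k)⁻¹ ≤ 1 := by
    rw [mul_inv_le_iff₀ (by positivity), one_mul]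
    gcongr
    exact haα.trans hv
  have e1 : ip (N + (k + 1)) v = (‖v‖ ^ k)⁻¹ * ip (N + 1) v := by
    unfold ip
    rw [← mul_inv, ← pow_add]
    congr 2
    ring
  rw [e1, pow_succ]
  have h2 : 0 ≤ ip (N + 1) v := ip_nonneg _ _
  calc a ^ k * a * ((‖v‖ ^ k)⁻¹ * ip (N + 1) v)
      = (a ^ k * (‖v‖ ^ k)⁻¹) * (a * ip (N + 1) v) := by ring
    _ ≤ 1 * (α * ip (N + 1) v) := by gcongr
    _ = _ := one_mul _

lemma GH.c0_pos (H : GH N m X a b q α β C1 r L) : 0 < (Ppoly N m).coeff 0 :=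
  Ppoly_coeff_zero_pos N H.hm

lemma GH.C1_nonneg (H : GH N m X a b q α β C1 r L) : 0 ≤ C1 := by
  have := H.q_pos
  exact le_trans (by positivity) H.card

lemma GH.b_pos (H : GH N m X a b q α β C1 r L) {z : E} (hz : z ∈ X) : 0 < b z :=
  H.β_pos.trans_le (H.b_ge z hz)

lemma GH.ba_eq (H : GH N m X a b q α β C1 r L) {z : E} (hz : z ∈ X) :
    b z * a z ^ N = ((Ppoly N m).coeff 0)⁻¹ * q := by
  have h := H.bq z hz
  have hc := H.c0_pos
  rw [← h]
  field_simp

lemma GH.dist_ge (H : GH N m X a b q α β C1 r L) {z y x : E} (hz : z ∈ X) (hy : y ∈ X)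
    (hyz : y ≠ z) (hx : ‖x - z‖ ≤ 3 * a z) :
    5 * α ≤ ‖x - y‖ ∧ 1 / 2 * ‖z - y‖ ≤ ‖x - y‖ := by
  have h1 := H.sep z hz y hy hyz
  have h2 : ‖z - y‖ ≤ ‖x - z‖ + ‖x - y‖ := by
    have := norm_sub_le (x - y) (x - z)
    simp only [sub_sub_sub_cancel_left] at this
    linarith
  have h3 := H.a_le z hz
  have h4 := H.α_pos
  constructor <;> linarith

lemma exists_GH_bound (E : Type*) [NormedAddCommGroup E] [InnerProductSpace ℝ E]
    [FiniteDimensional ℝ E] (N m k : ℕ) (hN : 1 ≤ N) (hm : 1 ≤ m) : ∃ C : ℝ, 0 ≤ C ∧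
    ∀ (X : Finset E) (a b : E → ℝ) (q α β C1 r L : ℝ), GH N m X a b q α β C1 r L →
    ∀ z ∈ X, ∀ (j : ℕ) (x : E), 2 * a z ≤ ‖x - z‖ →
      ‖iteratedFDeriv ℝ k (Kz N m j (b z) (a z) z : E → ℝ) x‖ ≤ C * q * ip (N + k) (x - z) := by
  obtain ⟨C, hC0, hC⟩ := exists_bound_Kz (E := E) N m k hN hm
  have hc := Ppoly_coeff_zero_pos N hm
  refine ⟨C * ((Ppoly N m).coeff 0)⁻¹, by positivity, ?_⟩
  intro X a b q α β C1 r L H z hz j x hx
  have h := hC j (b z) (a z) z x (H.b_pos hz).le (H.a_pos z hz) hx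
  rw [H.ba_eq hz] at h
  rw [mul_assoc C]
  exact h

lemma exists_GH_sub (E : Type*) [NormedAddCommGroup E] [InnerProductSpace ℝ E]
    [FiniteDimensional ℝ E] (N m : ℕ) (hN : 1 ≤ N) (hm : 1 ≤ m) : ∃ C : ℝ, 0 ≤ C ∧
    ∀ (X : Finset E) (a b : E → ℝ) (q α β C1 r L : ℝ), GH N m X a b q α β C1 r L →
    ∀ z ∈ X, ∀ (j : ℕ) (x : E), 2 * a z ≤ ‖x - z‖ →
      |Kz N m j (b z) (a z) z x - q * ip N (x - z)| ≤ C * q * (a z ^ 2 * ip (N + 2) (x - z)) := by
  obtain ⟨C, hC0, hC⟩ := exists_Kz_sub (E := E) N m hN hm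
  have hc := Ppoly_coeff_zero_pos N hm
  refine ⟨C * ((Ppoly N m).coeff 0)⁻¹, by positivity, ?_⟩
  intro X a b q α β C1 r L H z hz j x hx
  have h := hC j (b z) (a z) z x (H.b_pos hz).le (H.a_pos z hz) hx
  rw [H.ba_eq hz, H.bq z hz] at h
  rw [mul_assoc C]
  refine h.trans (le_of_eq ?_)
  ring

lemma norm_iteratedFDeriv_sum_Kz_le {ι : Type*} (s : Finset ι) (k : ℕ) (f : ι → E → ℝ)
    (hf : ∀ i ∈ s, ContDiff ℝ ∞ (f i)) (x : E) :
    ‖iteratedFDeriv ℝ k (fun y => ∑ i ∈ s, f i y) x‖ ≤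
      ∑ i ∈ s, ‖iteratedFDeriv ℝ k (f i) x‖ := by
  rw [iteratedFDeriv_fun_sum_apply (fun i hi => contDiffAt_infty.1 (hf i hi).contDiffAt _)]
  exact norm_sum_le _ _

lemma iteratedFDeriv_const_sub {k : ℕ} (hk : 1 ≤ k) (c : ℝ) {f : E → ℝ} (hf : ContDiff ℝ ∞ f)
    (x : E) : ‖iteratedFDeriv ℝ k (fun y => c - f y) x‖ = ‖iteratedFDeriv ℝ k f x‖ := by
  have h1 : (fun y => c - f y) = (fun _ => c) - f := rfl
  rw [h1, iteratedFDeriv_sub_apply contDiffAt_const (contDiffAt_infty.1 hf.contDiffAt _),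
    iteratedFDeriv_const_of_ne (by omega)]
  simp

lemma exists_bound_Rz (E : Type*) [NormedAddCommGroup E] [InnerProductSpace ℝ E]
    [FiniteDimensional ℝ E] (N m : ℕ) (hN : 1 ≤ N) (hm : 1 ≤ m) (C1 : ℝ) (hC1 : 0 ≤ C1) :
    ∃ C : ℝ, 0 ≤ C ∧
    ∀ (X : Finset E) (a b : E → ℝ) (q α β r L : ℝ), GH N m X a b q α β C1 r L →
    ∀ z ∈ X, ∀ x : E, ‖x - z‖ ≤ 3 * a z → ∀ k ≤ 2 * m,
      a z ^ k * ‖iteratedFDeriv ℝ k (Rz N m X a b z) x‖ ≤ C * α := by
  classical
  choose CK hCK0 hCK using fun k => exists_GH_bound E N m k hN hm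
  obtain ⟨Cs, hCs0, hCs⟩ := exists_GH_sub E N m hN hm
  -- the constant
  have hpos : ∀ k, 0 ≤ CK k * 2 ^ (N + k) * C1 := fun k => by
    have := hCK0 k; positivity
  refine ⟨(∑ k ∈ Finset.range (2 * m + 1), CK k * 2 ^ (N + k) * C1) +
    (Cs + 3 * (CK 1 * 2 ^ (N + 1))) * C1, ?_, ?_⟩
  · have : 0 ≤ ∑ k ∈ Finset.range (2 * m + 1), CK k * 2 ^ (N + k) * C1 :=
      Finset.sum_nonneg fun k _ => hpos k
    have := hCK0 1
    positivity
  intro X a b q α β r L H z hz x hx k hk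
  have hα := H.α_pos
  have hq := H.q_pos
  have hterm0 : 0 ≤ (Cs + 3 * (CK 1 * 2 ^ (N + 1))) * C1 := by
    have := hCK0 1
    positivity
  have hsum0 : 0 ≤ ∑ k ∈ Finset.range (2 * m + 1), CK k * 2 ^ (N + k) * C1 :=
    Finset.sum_nonneg fun k _ => hpos k
  -- comparison of the kernels
  have hcomp : ∀ w : E, ‖w - z‖ ≤ 3 * a z → ∀ l : ℕ, ∀ y ∈ X.erase z,
      ip (N + l) (w - y) ≤ 2 ^ (N + l) * ip (N + l) (z - y) := by
    intro w hw l y hy
    have hyX := Finset.mem_of_mem_erase hy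
    have hyz := Finset.ne_of_mem_erase hy
    have h1 := (H.dist_ge hz hyX hyz hw).2
    have h2 := ip_comp (N + l) (c := 1 / 2) (by norm_num) (sub_ne_zero.2 hyz.symm) h1
    refine h2.trans (le_of_eq ?_)
    rw [one_div, inv_pow, inv_inv]
  have hfar : ∀ w : E, ‖w - z‖ ≤ 3 * a z → ∀ y ∈ X.erase z, 2 * a y ≤ ‖w - y‖ := by
    intro w hw y hy
    have hyX := Finset.mem_of_mem_erase hy
    have hyz := Finset.ne_of_mem_erase hy
    have h1 := (H.dist_ge hz hyX hyz hw).1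
    have := H.a_le y hyX
    linarith
  have hzy : ∀ y ∈ X.erase z, α ≤ ‖z - y‖ := by
    intro y hy
    have := H.sep z hz y (Finset.mem_of_mem_erase hy) (Finset.ne_of_mem_erase hy)
    linarith
  rcases Nat.eq_zero_or_pos k with rfl | hk1
  · rw [pow_zero, one_mul, norm_iteratedFDeriv_zero, Real.norm_eq_abs]
    have e1 : Rz N m X a b z x =
        ∑ y ∈ X.erase z, (q * ip N (z - y) - Kz N m 0 (b y) (a y) y x) := by
      unfold Rz
      rw [H.b_eq z hz, Finset.sum_sub_distrib]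
    have hz0 : ‖z - z‖ ≤ 3 * a z := by
      have := H.a_pos z hz
      simp; positivity
    have key : ∀ y ∈ X.erase z, |q * ip N (z - y) - Kz N m 0 (b y) (a y) y x| ≤
        (Cs + 3 * (CK 1 * 2 ^ (N + 1))) * α * (q * ip (N + 1) (z - y)) := by
      intro y hy
      have hyX := Finset.mem_of_mem_erase hy
      have hyz := Finset.ne_of_mem_erase hy
      have t1 := hCs X a b q α β C1 r L H y hyX 0 z (hfar z hz0 y hy)
      have t2 : a y ^ 2 * ip (N + 2) (z - y) ≤ α * ip (N + 1) (z - y) :=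
        pow_mul_ip_le (by norm_num) (H.a_pos y hyX).le (H.a_le y hyX) (hzy y hy) hα
      have t3 : |Kz N m 0 (b y) (a y) y x - Kz N m 0 (b y) (a y) y z| ≤
          (CK 1 * q * (2 ^ (N + 1) * ip (N + 1) (z - y))) * (3 * α) := by
        have hconv := (convex_closedBall z (3 * a z)).norm_image_sub_le_of_norm_fderiv_le
          (𝕜 := ℝ) (f := (Kz N m 0 (b y) (a y) y : E → ℝ))
          (C := CK 1 * q * (2 ^ (N + 1) * ip (N + 1) (z - y))) (x := z) (y := x) ?_ ?_ ?_ ?_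
        · rw [Real.norm_eq_abs] at hconv
          refine hconv.trans ?_
          have h0 : 0 ≤ CK 1 * q * (2 ^ (N + 1) * ip (N + 1) (z - y)) := by
            have := hCK0 1
            have := ip_nonneg (N + 1) (z - y)
            positivity
          have h1 := H.a_le z hz
          gcongr
          linarith
        · intro w _
          exact ((contDiff_Kz N m 0 (b y) (a y) y).differentiable (by simp)).differentiableAt
        · intro w hw
          have hw' : ‖w - z‖ ≤ 3 * a z := by simpa [dist_eq_norm] using hw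
          have h1 := hCK 1 X a b q α β C1 r L H y hyX 0 w (hfar w hw' y hy)
          have e2 : ‖iteratedFDeriv ℝ 1 (Kz N m 0 (b y) (a y) y : E → ℝ) w‖ =
              ‖fderiv ℝ (Kz N m 0 (b y) (a y) y : E → ℝ) w‖ := by
            rw [← norm_iteratedFDeriv_fderiv, norm_iteratedFDeriv_zero]
          rw [← e2]
          refine h1.trans ?_
          have := hCK0 1
          gcongr
          exact hcomp w hw' 1 y hy
        · simpa using hz0
        · simpa [dist_eq_norm] using hx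
      have t4 : |q * ip N (z - y) - Kz N m 0 (b y) (a y) y x| ≤
          |Kz N m 0 (b y) (a y) y z - q * ip N (z - y)| +
          |Kz N m 0 (b y) (a y) y x - Kz N m 0 (b y) (a y) y z| := by
        rw [abs_sub_comm (q * ip N (z - y))]
        have := abs_add_le (Kz N m 0 (b y) (a y) y x - Kz N m 0 (b y) (a y) y z)
          (Kz N m 0 (b y) (a y) y z - q * ip N (z - y))
        rw [sub_add_sub_cancel] at this
        linarith
      have t5 : Cs * q * (a y ^ 2 * ip (N + 2) (z - y)) ≤ Cs * q * (α * ip (N + 1) (z - y)) := by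
        gcongr
      calc |q * ip N (z - y) - Kz N m 0 (b y) (a y) y x|
          ≤ Cs * q * (α * ip (N + 1) (z - y)) +
            (CK 1 * q * (2 ^ (N + 1) * ip (N + 1) (z - y))) * (3 * α) := by linarith
        _ = _ := by ring
    rw [e1]
    refine (Finset.abs_sum_le_sum_abs _ _).trans ((Finset.sum_le_sum key).trans ?_)
    rw [← Finset.mul_sum]
    have h1 := H.sum1 z hz
    have h2 : 0 ≤ Cs + 3 * (CK 1 * 2 ^ (N + 1)) := by
      have := hCK0 1
      positivity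
    calc (Cs + 3 * (CK 1 * 2 ^ (N + 1))) * α * ∑ y ∈ X.erase z, q * ip (N + 1) (z - y)
        ≤ (Cs + 3 * (CK 1 * 2 ^ (N + 1))) * α * C1 := by gcongr
      _ ≤ _ := by nlinarith
  · have hk1' : 1 ≤ k := hk1
    have e1 : ‖iteratedFDeriv ℝ k (Rz N m X a b z) x‖ =
        ‖iteratedFDeriv ℝ k (fun x => ∑ y ∈ X.erase z, Kz N m 0 (b y) (a y) y x) x‖ := by
      unfold Rz
      exact iteratedFDeriv_const_sub hk1' _ (ContDiff.sum fun z _ => contDiff_Kz _ _ _ _ _ _) x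
    rw [e1]
    have h1 := norm_iteratedFDeriv_sum_Kz_le (X.erase z) k
      (fun y => (Kz N m 0 (b y) (a y) y : E → ℝ)) (fun y _ => contDiff_Kz _ _ _ _ _ _) x
    have haz := (H.a_pos z hz)
    have h2 : ∀ y ∈ X.erase z, a z ^ k * ‖iteratedFDeriv ℝ k (Kz N m 0 (b y) (a y) y : E → ℝ) x‖ ≤
        CK k * 2 ^ (N + k) * α * (q * ip (N + 1) (z - y)) := by
      intro y hy
      have hyX := Finset.mem_of_mem_erase hy
      have t1 := hCK k X a b q α β C1 r L H y hyX 0 x (hfar x hx y hy)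
      have t2 := hcomp x hx k y hy
      have t3 : a z ^ k * ip (N + k) (z - y) ≤ α * ip (N + 1) (z - y) :=
        pow_mul_ip_le hk1' haz.le (H.a_le z hz) (hzy y hy) hα
      have := hCK0 k
      calc a z ^ k * ‖iteratedFDeriv ℝ k (Kz N m 0 (b y) (a y) y : E → ℝ) x‖
          ≤ a z ^ k * (CK k * q * (2 ^ (N + k) * ip (N + k) (z - y))) := by
            gcongr
            refine t1.trans ?_
            gcongr
        _ = CK k * q * 2 ^ (N + k) * (a z ^ k * ip (N + k) (z - y)) := by ring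
        _ ≤ CK k * q * 2 ^ (N + k) * (α * ip (N + 1) (z - y)) := by gcongr
        _ = _ := by ring
    calc a z ^ k * ‖iteratedFDeriv ℝ k
          (fun x => ∑ y ∈ X.erase z, Kz N m 0 (b y) (a y) y x) x‖
        ≤ a z ^ k * ∑ y ∈ X.erase z,
            ‖iteratedFDeriv ℝ k (Kz N m 0 (b y) (a y) y : E → ℝ) x‖ := by gcongr
      _ = ∑ y ∈ X.erase z,
            a z ^ k * ‖iteratedFDeriv ℝ k (Kz N m 0 (b y) (a y) y : E → ℝ) x‖ := by
          rw [Finset.mul_sum]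
      _ ≤ ∑ y ∈ X.erase z, CK k * 2 ^ (N + k) * α * (q * ip (N + 1) (z - y)) :=
          Finset.sum_le_sum h2
      _ = CK k * 2 ^ (N + k) * α * ∑ y ∈ X.erase z, q * ip (N + 1) (z - y) := by
          rw [Finset.mul_sum]
      _ ≤ CK k * 2 ^ (N + k) * α * C1 := by
          have := hCK0 k
          have := H.sum1 z hz
          gcongr
      _ = (CK k * 2 ^ (N + k) * C1) * α := by ring
      _ ≤ _ := by
          have h3 : CK k * 2 ^ (N + k) * C1 ≤
              ∑ k ∈ Finset.range (2 * m + 1), CK k * 2 ^ (N + k) * C1 :=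
            Finset.single_le_sum (f := fun k => CK k * 2 ^ (N + k) * C1) (fun k _ => hpos k)
              (Finset.mem_range.2 (by omega))
          have h4 : CK k * 2 ^ (N + k) * C1 ≤
            (∑ k ∈ Finset.range (2 * m + 1), CK k * 2 ^ (N + k) * C1) +
              (Cs + 3 * (CK 1 * 2 ^ (N + 1))) * C1 := by linarith
          gcongr

end Pool.Agent.Lib.MP_9ca4ac_an
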