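import Mathlib
import Pool.Agent.Lib.MP_9ca4ac_an.Gadget2

open MeasureTheory Metric Set Filter Topology
open scoped ContDiff ENNReal NNReal

noncomputable section

namespace Pool.Agent.Lib.MP_9ca4ac_an

set_option linter.unusedSectionVars false

variable {E : Type*} [NormedAddCommGroup E] [InnerProductSpace ℝ E] [FiniteDimensional ℝ E]
variable {N m : ℕ} {X : Finset E} {a b : E → ℝ} {q α β C1 r L : ℝ}

lemma exists_bound_Sj_outer (E : Type*) [NormedAddCommGroup E] [InnerProductSpace ℝ E]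
    [FiniteDimensional ℝ E] (N m : ℕ) (hN : 1 ≤ N) (hm : 1 ≤ m) (C1 : ℝ) (hC1 : 0 ≤ C1) :
    ∃ C : ℝ, 0 ≤ C ∧
    ∀ (X : Finset E) (a b : E → ℝ) (q α β r L : ℝ), GH N m X a b q α β C1 r L →
    ∀ x : E, 2 * L ≤ ‖x‖ → ∀ k ≤ 2 * m,
      L ^ k * ‖iteratedFDeriv ℝ k (Sj N m X a b 0) x‖ ≤ C * (L ^ N)⁻¹ := by
  choose CK hCK0 hCK using fun k => exists_GH_bound E N m k hN hm
  have hpos : ∀ k, 0 ≤ CK k * C1 := fun k => by
    have := hCK0 k; positivity
  refine ⟨∑ k ∈ Finset.range (2 * m + 1), CK k * C1, Finset.sum_nonneg fun k _ => hpos k, ?_⟩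
  intro X a b q α β r L H x hx k hk
  have hL := H.L_ge
  have hL0 : 0 < L := by linarith
  have hq := H.q_pos
  have hα := H.α_pos
  have hα1 := H.α_le
  have h1 := norm_iteratedFDeriv_sum_Kz_le X k
    (fun y => (Kz N m 0 (b y) (a y) y : E → ℝ)) (fun y _ => contDiff_Kz _ _ _ _ _ _) x
  have e1 : Sj N m X a b 0 = fun x => ∑ y ∈ X, Kz N m 0 (b y) (a y) y x := rfl
  rw [e1]
  have h2 : ∀ y ∈ X, ‖iteratedFDeriv ℝ k (Kz N m 0 (b y) (a y) y : E → ℝ) x‖ ≤
      CK k * q * (L ^ (N + k))⁻¹ := by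
    intro y hy
    have t0 := norm_sub_ge_of_ge_four H hy (x := x) (by linarith)
    have t1 := hCK k X a b q α β C1 r L H y hy 0 x (by linarith [H.a_le y hy])
    refine t1.trans ?_
    have := hCK0 k
    gcongr
    unfold ip
    gcongr
    linarith
  calc L ^ k * ‖iteratedFDeriv ℝ k (fun x => ∑ y ∈ X, Kz N m 0 (b y) (a y) y x) x‖
      ≤ L ^ k * ∑ y ∈ X, CK k * q * (L ^ (N + k))⁻¹ := by
        gcongr
        exact h1.trans (Finset.sum_le_sum h2)
    _ = CK k * (q * X.card) * (L ^ N)⁻¹ := by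
        rw [Finset.sum_const, nsmul_eq_mul, pow_add]
        field_simp
    _ ≤ CK k * C1 * (L ^ N)⁻¹ := by
        have := hCK0 k
        have := H.card
        gcongr
    _ ≤ _ := by
        have h3 : CK k * C1 ≤ ∑ k ∈ Finset.range (2 * m + 1), CK k * C1 :=
            Finset.single_le_sum (f := fun k => CK k * C1) (fun k _ => hpos k)
              (Finset.mem_range.2 (by omega))
        gcongr

lemma exists_bound_Sj_inner (E : Type*) [NormedAddCommGroup E] [InnerProductSpace ℝ E]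
    [FiniteDimensional ℝ E] (N m : ℕ) (hN : 1 ≤ N) (hm : 1 ≤ m) (C1 : ℝ) (hC1 : 0 ≤ C1) :
    ∃ C : ℝ, 0 ≤ C ∧
    ∀ (X : Finset E) (a b : E → ℝ) (q α β r L : ℝ), GH N m X a b q α β C1 r L →
    ∀ x : E, ‖x‖ ≤ 3 * r → ∀ k ≤ 2 * m,
      r ^ k * ‖iteratedFDeriv ℝ k (fun x => Sj N m X a b 0 x - Sj N m X a b 0 0) x‖ ≤ C * r := by
  choose CK hCK0 hCK using fun k => exists_GH_bound E N m k hN hm
  have hpos : ∀ k, 0 ≤ CK k * 2 ^ (N + k) * C1 := fun k => by
    have := hCK0 k; positivity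
  have hsum0 : 0 ≤ ∑ k ∈ Finset.range (2 * m + 1), CK k * 2 ^ (N + k) * C1 :=
    Finset.sum_nonneg fun k _ => hpos k
  refine ⟨3 * ∑ k ∈ Finset.range (2 * m + 1), CK k * 2 ^ (N + k) * C1, by positivity, ?_⟩
  intro X a b q α β r L H x hx k hk
  have hr := H.r_pos
  have hr1 := H.r_le
  have hq := H.q_pos
  have hα := H.α_pos
  have hα1 := H.α_le
  -- bound for all derivatives of the sum near zero
  have hD : ∀ k, ∀ x : E, ‖x‖ ≤ 1 / 2 → ‖iteratedFDeriv ℝ k (Sj N m X a b 0) x‖ ≤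
      CK k * 2 ^ (N + k) * C1 := by
    intro k x hx
    have h1 := norm_iteratedFDeriv_sum_Kz_le X k
      (fun y => (Kz N m 0 (b y) (a y) y : E → ℝ)) (fun y _ => contDiff_Kz _ _ _ _ _ _) x
    have e1 : Sj N m X a b 0 = fun x => ∑ y ∈ X, Kz N m 0 (b y) (a y) y x := rfl
    rw [e1]
    have h2 : ∀ y ∈ X, ‖iteratedFDeriv ℝ k (Kz N m 0 (b y) (a y) y : E → ℝ) x‖ ≤
        CK k * q * 2 ^ (N + k) := by
      intro y hy
      have t0 := norm_sub_ge_of_le_half H hy (x := x) hx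
      have t1 := hCK k X a b q α β C1 r L H y hy 0 x (by linarith [H.a_le y hy])
      refine t1.trans ?_
      have := hCK0 k
      gcongr
      unfold ip
      rw [inv_le_comm₀ (by positivity) (by positivity), ← inv_pow]
      gcongr
      linarith
    calc ‖iteratedFDeriv ℝ k (fun x => ∑ y ∈ X, Kz N m 0 (b y) (a y) y x) x‖
        ≤ ∑ y ∈ X, CK k * q * 2 ^ (N + k) := h1.trans (Finset.sum_le_sum h2)
      _ = CK k * 2 ^ (N + k) * (q * X.card) := by
          rw [Finset.sum_const, nsmul_eq_mul]; ring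
      _ ≤ _ := by
          have := hCK0 k
          have := H.card
          gcongr
  rcases Nat.eq_zero_or_pos k with rfl | hk1
  · rw [pow_zero, one_mul, norm_iteratedFDeriv_zero]
    have hconv := (convex_closedBall (0:E) (1 / 2)).norm_image_sub_le_of_norm_fderiv_le
      (𝕜 := ℝ) (f := Sj N m X a b 0)
      (C := CK 1 * 2 ^ (N + 1) * C1) (x := 0) (y := x) ?_ ?_ ?_ ?_
    · refine hconv.trans ?_
      rw [sub_zero]
      have h3 : CK 1 * 2 ^ (N + 1) * C1 ≤
          ∑ k ∈ Finset.range (2 * m + 1), CK k * 2 ^ (N + k) * C1 :=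
        Finset.single_le_sum (f := fun k => CK k * 2 ^ (N + k) * C1) (fun k _ => hpos k)
          (Finset.mem_range.2 (by omega))
      calc CK 1 * 2 ^ (N + 1) * C1 * ‖x‖
          ≤ (∑ k ∈ Finset.range (2 * m + 1), CK k * 2 ^ (N + k) * C1) * (3 * r) := by
            gcongr
        _ = _ := by ring
    · intro w _
      exact ((contDiff_Sj 0).differentiable (by simp)).differentiableAt
    · intro w hw
      have e2 : ‖iteratedFDeriv ℝ 1 (Sj N m X a b 0) w‖ = ‖fderiv ℝ (Sj N m X a b 0) w‖ := by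
        rw [← norm_iteratedFDeriv_fderiv, norm_iteratedFDeriv_zero]
      rw [← e2]
      exact hD 1 w (by simpa using hw)
    · simp
    · simp only [mem_closedBall, dist_zero_right]; linarith
  · have e1 : ‖iteratedFDeriv ℝ k (fun x => Sj N m X a b 0 x - Sj N m X a b 0 0) x‖ =
        ‖iteratedFDeriv ℝ k (Sj N m X a b 0) x‖ := by
      have h1 : (fun x => Sj N m X a b 0 x - Sj N m X a b 0 0) =
        (Sj N m X a b 0) - (fun _ => Sj N m X a b 0 0) := rfl
      rw [h1, iteratedFDeriv_sub_apply (contDiffAt_infty.1 (contDiff_Sj 0).contDiffAt _)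
        contDiffAt_const, iteratedFDeriv_const_of_ne (by omega)]
      simp
    rw [e1]
    have h1 := hD k x (by linarith)
    have h3 : CK k * 2 ^ (N + k) * C1 ≤
        ∑ k ∈ Finset.range (2 * m + 1), CK k * 2 ^ (N + k) * C1 :=
      Finset.single_le_sum (f := fun k => CK k * 2 ^ (N + k) * C1) (fun k _ => hpos k)
        (Finset.mem_range.2 (by omega))
    have h4 : r ^ k ≤ r := pow_le_of_le_one hr.le (by linarith) (by omega)
    calc r ^ k * ‖iteratedFDeriv ℝ k (Sj N m X a b 0) x‖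
        ≤ r * ∑ k ∈ Finset.range (2 * m + 1), CK k * 2 ^ (N + k) * C1 := by
          gcongr
          exact h1.trans h3
      _ ≤ _ := by nlinarith

lemma exists_Sj_zero (E : Type*) [NormedAddCommGroup E] [InnerProductSpace ℝ E]
    [FiniteDimensional ℝ E] (N m : ℕ) (hN : 1 ≤ N) (hm : 1 ≤ m) (C1 : ℝ) (hC1 : 0 ≤ C1) :
    ∃ C : ℝ, 0 ≤ C ∧
    ∀ (X : Finset E) (a b : E → ℝ) (q α β r L : ℝ), GH N m X a b q α β C1 r L →
      |Sj N m X a b 0 0 - ∑ z ∈ X, q * ip N z| ≤ C * α := by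
  obtain ⟨Cs, hCs0, hCs⟩ := exists_GH_sub E N m hN hm
  refine ⟨Cs * C1, by positivity, ?_⟩
  intro X a b q α β r L H
  have hq := H.q_pos
  have hα := H.α_pos
  have hα1 := H.α_le
  unfold Sj
  rw [← Finset.sum_sub_distrib]
  refine (Finset.abs_sum_le_sum_abs _ _).trans ?_
  have key : ∀ z ∈ X, |Kz N m 0 (b z) (a z) z 0 - q * ip N z| ≤ Cs * q * α := by
    intro z hz
    have h1 := H.norm_ge z hz
    have h2 := H.a_le z hz
    have h0 := H.a_pos z hz
    have h3 := hCs X a b q α β C1 r L H z hz 0 0 (by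
      rw [zero_sub, norm_neg]; linarith)
    rw [zero_sub, ip_neg, ip_neg] at h3
    refine h3.trans ?_
    gcongr
    have h4 : ip (N + 2) z ≤ 1 := by
      unfold ip
      exact inv_le_one_of_one_le₀ (one_le_pow₀ h1)
    have h5 := ip_nonneg (N + 2) z
    calc a z ^ 2 * ip (N + 2) z ≤ a z ^ 2 * 1 := by gcongr
      _ ≤ α := by nlinarith
  refine (Finset.sum_le_sum key).trans ?_
  rw [Finset.sum_const, nsmul_eq_mul]
  have := H.card
  calc (X.card : ℝ) * (Cs * q * α) = Cs * (q * X.card) * α := by ring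
    _ ≤ Cs * C1 * α := by gcongr

end Pool.Agent.Lib.MP_9ca4ac_an
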