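import Mathlib
import Pool.Agent.Lib.MP_9ca4ac_an.Gadget3

open MeasureTheory Metric Set Filter Topology
open scoped ContDiff ENNReal NNReal

noncomputable section

namespace Pool.Agent.Lib.MP_9ca4ac_an

set_option linter.unusedSectionVars false

variable {E : Type*} [NormedAddCommGroup E] [InnerProductSpace ℝ E] [FiniteDimensional ℝ E]
variable {N m : ℕ} {X : Finset E} {a b : E → ℝ} {q α β C1 r L : ℝ}

/-- the annulus where a cutoff at scale `ρ` around `p` is not locally constant -/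
def An (p : E) (ρ : ℝ) : Set E := {x | 2 * ρ ≤ ‖x - p‖ ∧ ‖x - p‖ ≤ 3 * ρ}

lemma isClosed_An (p : E) (ρ : ℝ) : IsClosed (An p ρ) := by
  have h1 : IsClosed {x : E | 2 * ρ ≤ ‖x - p‖} := isClosed_le (by fun_prop) (by fun_prop)
  have h2 : IsClosed {x : E | ‖x - p‖ ≤ 3 * ρ} := isClosed_le (by fun_prop) (by fun_prop)
  exact h1.inter h2

lemma nlap_comb {f0 f1 f2 f3 : E → ℝ} (h0 : ContDiff ℝ ∞ f0) (h1 : ContDiff ℝ ∞ f1)
    (h2 : ContDiff ℝ ∞ f2) (h3 : ContDiff ℝ ∞ f3) (x : E) :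
    nlap m (((f0 - f1) - f2) + f3) x =
      nlap m f0 x - nlap m f1 x - nlap m f2 x + nlap m f3 x := by
  have h01 : ContDiff ℝ ∞ (f0 - f1) := h0.sub h1
  have h012 : ContDiff ℝ ∞ (f0 - f1 - f2) := h01.sub h2
  rw [nlap_add (contDiffAt_infty.1 h012.contDiffAt _) (contDiffAt_infty.1 h3.contDiffAt _),
    nlap_sub (contDiffAt_infty.1 h01.contDiffAt _) (contDiffAt_infty.1 h2.contDiffAt _),
    nlap_sub (contDiffAt_infty.1 h0.contDiffAt _) (contDiffAt_infty.1 h1.contDiffAt _)]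

lemma cut_out {ρ : ℝ} (hρ : 0 < ρ) (m : ℕ) {p x : E} (h : E → ℝ) (hx : 3 * ρ < ‖x - p‖) :
    nlap m (fun y => zeta (ρ⁻¹ • (y - p)) * h y) x = 0 := by
  have h1 : (fun y => zeta (ρ⁻¹ • (y - p)) * h y) =ᶠ[𝓝 x] fun y => 0 * h y := by
    have ho : IsOpen {y : E | 3 * ρ < ‖y - p‖} := by apply isOpen_lt <;> fun_prop
    filter_upwards [ho.mem_nhds hx] with y hy
    rw [zeta_smul_zero hρ (le_of_lt hy)]
  rw [nlap_congr_at h1, nlap_const_mul_field m 0 h]
  simp

lemma cut_in {ρ : ℝ} (hρ : 0 < ρ) (m : ℕ) {p x : E} (h : E → ℝ) (hx : ‖x - p‖ < 2 * ρ) :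
    nlap m (fun y => zeta (ρ⁻¹ • (y - p)) * h y) x = nlap m h x := by
  apply nlap_congr_at
  have ho : IsOpen {y : E | ‖y - p‖ < 2 * ρ} := by apply isOpen_lt <;> fun_prop
  filter_upwards [ho.mem_nhds hx] with y hy
  rw [zeta_smul_one hρ (le_of_lt hy), one_mul]

lemma nlap_gam_eq (hm : 1 ≤ m) (x : E) : nlap m (gam N m X a b r L 0) x =
    - nlap m (fun y => zeta (L⁻¹ • (y - 0)) * Sj N m X a b 0 y) x
    - ∑ z ∈ X, nlap m (fun y => zeta ((a z)⁻¹ • (y - z)) * Rz N m X a b z y) x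
    + nlap m (fun y => zeta (r⁻¹ • (y - 0)) * (Sj N m X a b 0 y - Sj N m X a b 0 0)) x := by
  have e1 : gam N m X a b r L 0 = (((fun _ => (1:ℝ)) -
      (fun y => zeta (L⁻¹ • (y - 0)) * Sj N m X a b 0 y)) -
      ∑ z ∈ X, (fun y => zeta ((a z)⁻¹ • (y - z)) * Rz N m X a b z y)) +
      (fun y => zeta (r⁻¹ • (y - 0)) * (Sj N m X a b 0 y - Sj N m X a b 0 0)) := by
    ext y
    simp [gam]
  have c1 : ContDiff ℝ ∞ (fun y : E => zeta (L⁻¹ • (y - 0)) * Sj N m X a b 0 y) :=
    (contDiff_zeta_comp _ _).mul (contDiff_Sj _)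
  have c2 : ∀ z, ContDiff ℝ ∞ (fun y : E => zeta ((a z)⁻¹ • (y - z)) * Rz N m X a b z y) :=
    fun z => (contDiff_zeta_comp _ _).mul (contDiff_Rz _)
  have c3 : ContDiff ℝ ∞ (fun y : E => zeta (r⁻¹ • (y - 0)) *
      (Sj N m X a b 0 y - Sj N m X a b 0 0)) :=
    (contDiff_zeta_comp _ _).mul ((contDiff_Sj _).sub contDiff_const)
  have c2' : ContDiff ℝ ∞ (∑ z ∈ X, (fun y : E => zeta ((a z)⁻¹ • (y - z)) *
      Rz N m X a b z y)) := by
    have : (∑ z ∈ X, (fun y : E => zeta ((a z)⁻¹ • (y - z)) * Rz N m X a b z y)) =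
      fun y => ∑ z ∈ X, zeta ((a z)⁻¹ • (y - z)) * Rz N m X a b z y := by
      ext y; simp
    rw [this]
    exact ContDiff.sum fun z _ => c2 z
  have c0 : ContDiff ℝ ∞ (fun _ : E => (1:ℝ)) := contDiff_const
  rw [e1, nlap_comb c0 c1 c2' c3, nlap_sum _ (fun z _ => contDiffAt_infty.1 (c2 z).contDiffAt _),
    nlap_const hm]
  simp

lemma exists_fg_bound (E : Type*) [NormedAddCommGroup E] [InnerProductSpace ℝ E]
    [FiniteDimensional ℝ E] (N m : ℕ) (hN : 1 ≤ N) (hm : 1 ≤ m) (C1 : ℝ) (hC1 : 0 ≤ C1) :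
    ∃ C : ℝ, 0 ≤ C ∧
    ∀ (X : Finset E) (a b : E → ℝ) (q α β r L : ℝ), GH N m X a b q α β C1 r L →
    ∀ x : E, |fg N m X a b r L x| ≤
      (An (0:E) L).indicator (fun _ => C * (L ^ N)⁻¹ * (L ^ (2 * m))⁻¹) x +
      ∑ z ∈ X, (An z (a z)).indicator (fun _ => C * α * (a z ^ (2 * m))⁻¹) x +
      (An (0:E) r).indicator (fun _ => C * r * (r ^ (2 * m))⁻¹) x := by
  obtain ⟨Cc, hCc0, hCc⟩ := exists_cut_bound E m
  obtain ⟨CR, hCR0, hCR⟩ := exists_bound_Rz E N m hN hm C1 hC1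
  obtain ⟨CL, hCL0, hCL⟩ := exists_bound_Sj_outer E N m hN hm C1 hC1
  obtain ⟨Cr, hCr0, hCr⟩ := exists_bound_Sj_inner E N m hN hm C1 hC1
  set C : ℝ := Cc * (CR + CL + Cr) with hC
  have hRC : Cc * CR ≤ C := by
    rw [hC]; gcongr; linarith
  have hLC : Cc * CL ≤ C := by
    rw [hC]; gcongr; linarith
  have hrC : Cc * Cr ≤ C := by
    rw [hC]; gcongr; linarith
  have hC0 : 0 ≤ C := by positivity
  refine ⟨C, hC0, ?_⟩
  intro X a b q α β r L H x
  have hα := H.α_pos
  have hr := H.r_pos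
  have hr1 := H.r_le
  have hL := H.L_ge
  have hL0 : 0 < L := by linarith
  have hi1 : 0 ≤ (An (0:E) L).indicator (fun _ => C * (L ^ N)⁻¹ * (L ^ (2 * m))⁻¹) x := by
    apply indicator_nonneg; intro _ _; positivity
  have hi2 : ∀ z ∈ X, 0 ≤ (An z (a z)).indicator (fun _ => C * α * (a z ^ (2 * m))⁻¹) x := by
    intro z hz
    have := H.a_pos z hz
    apply indicator_nonneg; intro _ _; positivity
  have hi3 : 0 ≤ (An (0:E) r).indicator (fun _ => C * r * (r ^ (2 * m))⁻¹) x := by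
    apply indicator_nonneg; intro _ _; positivity
  have hi2' := Finset.sum_nonneg hi2
  by_cases hnear : ∃ z ∈ X, ‖x - z‖ < 2 * a z
  · unfold fg
    rw [if_pos hnear, abs_zero]
    positivity
  unfold fg
  rw [if_neg hnear]
  push Not at hnear
  have hfar : ∀ z ∈ X, 7 / 4 * a z < ‖x - z‖ := by
    intro z hz
    have := hnear z hz
    have := H.a_pos z hz
    linarith
  rw [nlap_gam_eq hm]
  have hSfar := nlap_Sj_far H 0 hfar
  have b1 : |nlap m (fun y => zeta (L⁻¹ • (y - 0)) * Sj N m X a b 0 y) x| ≤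
      (An (0:E) L).indicator (fun _ => C * (L ^ N)⁻¹ * (L ^ (2 * m))⁻¹) x := by
    rcases lt_or_ge ‖x - 0‖ (2 * L) with h1 | h1
    · rw [cut_in hL0 m _ h1, hSfar, abs_zero]; exact hi1
    rcases lt_or_ge (3 * L) ‖x - 0‖ with h2 | h2
    · rw [cut_out hL0 m _ h2, abs_zero]; exact hi1
    rw [indicator_of_mem (show x ∈ An (0:E) L from ⟨h1, h2⟩)]
    refine (hCc 0 L (CL * (L ^ N)⁻¹) _ x hL0 (contDiff_Sj 0).contDiffAt ?_).trans ?_
    · exact hCL X a b q α β r L H x (by simpa using h1)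
    · rw [← mul_assoc Cc]
      gcongr
  have b3 : |nlap m (fun y => zeta (r⁻¹ • (y - 0)) * (Sj N m X a b 0 y - Sj N m X a b 0 0)) x| ≤
      (An (0:E) r).indicator (fun _ => C * r * (r ^ (2 * m))⁻¹) x := by
    rcases lt_or_ge ‖x - 0‖ (2 * r) with h1 | h1
    · rw [cut_in hr m _ h1]
      have e : (fun y => Sj N m X a b 0 y - Sj N m X a b 0 0) =
        Sj N m X a b 0 - (fun _ => Sj N m X a b 0 0) := rfl
      rw [e, nlap_sub (contDiffAt_infty.1 (contDiff_Sj 0).contDiffAt _) contDiffAt_const, hSfar,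
        nlap_const hm]
      simpa using hi3
    rcases lt_or_ge (3 * r) ‖x - 0‖ with h2 | h2
    · rw [cut_out hr m _ h2, abs_zero]; exact hi3
    rw [indicator_of_mem (show x ∈ An (0:E) r from ⟨h1, h2⟩)]
    refine (hCc 0 r (Cr * r) _ x hr ((contDiff_Sj 0).sub contDiff_const).contDiffAt ?_).trans ?_
    · exact hCr X a b q α β r L H x (by simpa using h2)
    · rw [← mul_assoc Cc]
      gcongr
  have b2 : ∀ z ∈ X, |nlap m (fun y => zeta ((a z)⁻¹ • (y - z)) * Rz N m X a b z y) x| ≤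
      (An z (a z)).indicator (fun _ => C * α * (a z ^ (2 * m))⁻¹) x := by
    intro z hz
    have haz := H.a_pos z hz
    rcases lt_or_ge (3 * a z) ‖x - z‖ with h2 | h2
    · rw [cut_out haz m _ h2, abs_zero]; exact hi2 z hz
    rw [indicator_of_mem (show x ∈ An z (a z) from ⟨hnear z hz, h2⟩)]
    refine (hCc z (a z) (CR * α) _ x haz (contDiff_Rz z).contDiffAt ?_).trans ?_
    · exact hCR X a b q α β r L H z hz x h2
    · rw [← mul_assoc Cc]
      gcongr
  have b2' : |∑ z ∈ X, nlap m (fun y => zeta ((a z)⁻¹ • (y - z)) * Rz N m X a b z y) x| ≤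
      ∑ z ∈ X, (An z (a z)).indicator (fun _ => C * α * (a z ^ (2 * m))⁻¹) x :=
    (Finset.abs_sum_le_sum_abs _ _).trans (Finset.sum_le_sum b2)
  have t1 := abs_add_le (- nlap m (fun y => zeta (L⁻¹ • (y - 0)) * Sj N m X a b 0 y) x
    - ∑ z ∈ X, nlap m (fun y => zeta ((a z)⁻¹ • (y - z)) * Rz N m X a b z y) x)
    (nlap m (fun y => zeta (r⁻¹ • (y - 0)) * (Sj N m X a b 0 y - Sj N m X a b 0 0)) x)
  have t2 := abs_sub (- nlap m (fun y => zeta (L⁻¹ • (y - 0)) * Sj N m X a b 0 y) x)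
    (∑ z ∈ X, nlap m (fun y => zeta ((a z)⁻¹ • (y - z)) * Rz N m X a b z y) x)
  rw [abs_neg] at t2
  linarith

lemma measurable_ip [MeasurableSpace E] [BorelSpace E] (s : ℕ) : Measurable (ip s : E → ℝ) := by
  unfold ip
  fun_prop

lemma ann_int [MeasurableSpace E] [BorelSpace E] (p : E) {ρ c M : ℝ} (hρ : 0 < ρ) (hc : 0 ≤ c)
    (hM : 0 ≤ M) (h : ∀ x ∈ An p ρ, ip N x ≤ M) :
    ∫⁻ x, ENNReal.ofReal (ip N x * (An p ρ).indicator (fun _ => c) x) ≤
      ENNReal.ofReal (M * c * (3 * ρ) ^ (Module.finrank ℝ E)) * volume (ball (0:E) 1) := by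
  calc ∫⁻ x, ENNReal.ofReal (ip N x * (An p ρ).indicator (fun _ => c) x)
      ≤ ∫⁻ x, (closedBall p (3 * ρ)).indicator (fun _ => ENNReal.ofReal (M * c)) x := by
        apply lintegral_mono
        intro x
        by_cases hx : x ∈ An p ρ
        · simp only [indicator_of_mem hx]
          rw [indicator_of_mem (show x ∈ closedBall p (3 * ρ) by
            simpa [dist_eq_norm] using hx.2)]
          apply ENNReal.ofReal_le_ofReal
          gcongr
          exact h x hx
        · simp [indicator_of_notMem hx]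
    _ = ENNReal.ofReal (M * c) * volume (closedBall p (3 * ρ)) := by
        rw [lintegral_indicator_const measurableSet_closedBall]
    _ = _ := by
        rw [Measure.addHaar_closedBall _ _ (by positivity), ← mul_assoc,
          ← ENNReal.ofReal_mul (by positivity)]

lemma exists_J (E : Type*) [NormedAddCommGroup E] [InnerProductSpace ℝ E]
    [FiniteDimensional ℝ E] [MeasurableSpace E] [BorelSpace E]
    (N m : ℕ) (hN : 1 ≤ N) (hm : 1 ≤ m) (C1 β : ℝ) (hC1 : 0 ≤ C1) (hβ : 0 < β) :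
    ∃ C : ℝ, 0 ≤ C ∧
    ∀ (X : Finset E) (a b : E → ℝ) (q α r L : ℝ), GH N m X a b q α β C1 r L →
    ∫⁻ x, ENNReal.ofReal (ip N x * |fg N m X a b r L x|) ≤
      ENNReal.ofReal (C * (α + r + (L ^ N)⁻¹)) := by
  obtain ⟨C, hC0, hC⟩ := exists_fg_bound E N m hN hm C1 hC1
  set V : ℝ := (volume (ball (0:E) 1)).toReal with hV
  have hVE : volume (ball (0:E) 1) = ENNReal.ofReal V := by
    rw [hV, ENNReal.ofReal_toReal measure_ball_lt_top.ne]
  have hV0 : 0 ≤ V := ENNReal.toReal_nonneg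
  have hc0 := Ppoly_coeff_zero_pos N hm
  set c0 := (Ppoly N m).coeff 0 with hc0def
  set K : ℝ := C * 3 ^ (N + 2 * m) * V with hK
  have hK0 : 0 ≤ K := by positivity
  set K2 : ℝ := K * 2 ^ N * (c0⁻¹ * β⁻¹ * C1) with hK2
  have hK20 : 0 ≤ K2 := by positivity
  refine ⟨K + K2, by positivity, ?_⟩
  intro X a b q α r L H
  have hα := H.α_pos
  have hα1 := H.α_le
  have hr := H.r_pos
  have hr1 := H.r_le
  have hq := H.q_pos
  have hL := H.L_ge
  have hL0 : 0 < L := by linarith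
  have hE := H.hE
  have c1 : 0 ≤ C * (L ^ N)⁻¹ * (L ^ (2 * m))⁻¹ := by positivity
  have c2 : ∀ z ∈ X, 0 ≤ C * α * (a z ^ (2 * m))⁻¹ := by
    intro z hz
    have := H.a_pos z hz
    positivity
  have c3 : 0 ≤ C * r * (r ^ (2 * m))⁻¹ := by positivity
  -- the three integrals
  have i1 : ∫⁻ x, ENNReal.ofReal (ip N x * (An (0:E) L).indicator
      (fun _ => C * (L ^ N)⁻¹ * (L ^ (2 * m))⁻¹) x) ≤ ENNReal.ofReal (K * (L ^ N)⁻¹) := by
    refine (ann_int (0:E) hL0 c1 (M := (L ^ N)⁻¹) (by positivity) ?_).trans ?_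
    · intro x hx
      have : 2 * L ≤ ‖x‖ := by simpa using hx.1
      unfold ip
      gcongr
      linarith
    · rw [hVE, ← ENNReal.ofReal_mul (by positivity), hE]
      apply ENNReal.ofReal_le_ofReal
      apply le_of_eq
      rw [hK, mul_pow, pow_add L]
      field_simp
  have i3 : ∫⁻ x, ENNReal.ofReal (ip N x * (An (0:E) r).indicator
      (fun _ => C * r * (r ^ (2 * m))⁻¹) x) ≤ ENNReal.ofReal (K * r) := by
    refine (ann_int (0:E) hr c3 (M := (r ^ N)⁻¹) (by positivity) ?_).trans ?_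
    · intro x hx
      have : 2 * r ≤ ‖x‖ := by simpa using hx.1
      unfold ip
      gcongr
      linarith
    · rw [hVE, ← ENNReal.ofReal_mul (by positivity), hE]
      apply ENNReal.ofReal_le_ofReal
      apply le_of_eq
      rw [hK, mul_pow, pow_add r]
      field_simp
  have i2 : ∀ z ∈ X, ∫⁻ x, ENNReal.ofReal (ip N x * (An z (a z)).indicator
      (fun _ => C * α * (a z ^ (2 * m))⁻¹) x) ≤
        ENNReal.ofReal (K * 2 ^ N * α * (c0⁻¹ * β⁻¹ * q)) := by
    intro z hz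
    have haz := H.a_pos z hz
    have haz1 := H.a_le z hz
    have hz1 := H.norm_ge z hz
    have hbz := H.b_ge z hz
    have hbz0 := H.b_pos hz
    refine (ann_int z haz (c2 z hz) (M := 2 ^ N) (by positivity) ?_).trans ?_
    · intro x hx
      have h3 := hx.2
      have n2 : ‖z‖ ≤ ‖x - z‖ + ‖x‖ := by
        have := norm_sub_le x (x - z)
        simp only [sub_sub_cancel] at this
        linarith
      unfold ip
      rw [inv_le_comm₀ (by
        have : 0 < ‖x‖ := by linarith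
        positivity) (by positivity), ← inv_pow]
      gcongr
      linarith
    · rw [hVE, ← ENNReal.ofReal_mul (by
        have := c2 z hz
        positivity), hE]
      apply ENNReal.ofReal_le_ofReal
      have h1 : a z ^ N = c0⁻¹ * (b z)⁻¹ * q := by
        have := H.ba_eq hz
        rw [← hc0def] at this
        field_simp
        field_simp at this
        linarith
      have h2 : a z ^ N ≤ c0⁻¹ * β⁻¹ * q := by
        rw [h1]
        gcongr
      have e : 2 ^ N * (C * α * (a z ^ (2 * m))⁻¹) * (3 * a z) ^ (N + 2 * m) * V =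
          K * 2 ^ N * α * a z ^ N := by
        rw [hK, mul_pow, pow_add (a z)]
        field_simp
      rw [e]
      gcongr
  have hmeas : ∀ (p : E) (ρ c : ℝ), Measurable fun x =>
      ENNReal.ofReal (ip N x * (An p ρ).indicator (fun _ => c) x) := by
    intro p ρ c
    apply ENNReal.measurable_ofReal.comp
    exact (measurable_ip N).mul (measurable_const.indicator (isClosed_An p ρ).measurableSet)
  calc ∫⁻ x, ENNReal.ofReal (ip N x * |fg N m X a b r L x|)
      ≤ ∫⁻ x, (ENNReal.ofReal (ip N x * (An (0:E) L).indicator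
          (fun _ => C * (L ^ N)⁻¹ * (L ^ (2 * m))⁻¹) x) +
        (∑ z ∈ X, ENNReal.ofReal (ip N x * (An z (a z)).indicator
          (fun _ => C * α * (a z ^ (2 * m))⁻¹) x) +
        ENNReal.ofReal (ip N x * (An (0:E) r).indicator
          (fun _ => C * r * (r ^ (2 * m))⁻¹) x))) := by
        apply lintegral_mono
        intro x
        simp only
        have hip := ip_nonneg N x
        have n1 : 0 ≤ ip N x * (An (0:E) L).indicator
            (fun _ => C * (L ^ N)⁻¹ * (L ^ (2 * m))⁻¹) x :=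
          mul_nonneg hip (indicator_nonneg (fun _ _ => c1) _)
        have n2 : ∀ z ∈ X, 0 ≤ ip N x * (An z (a z)).indicator
            (fun _ => C * α * (a z ^ (2 * m))⁻¹) x := fun z hz =>
          mul_nonneg hip (indicator_nonneg (fun _ _ => c2 z hz) _)
        have n3 : 0 ≤ ip N x * (An (0:E) r).indicator
            (fun _ => C * r * (r ^ (2 * m))⁻¹) x :=
          mul_nonneg hip (indicator_nonneg (fun _ _ => c3) _)
        rw [← ENNReal.ofReal_sum_of_nonneg n2, ← ENNReal.ofReal_add (Finset.sum_nonneg n2) n3,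
          ← ENNReal.ofReal_add n1 (add_nonneg (Finset.sum_nonneg n2) n3)]
        apply ENNReal.ofReal_le_ofReal
        rw [← Finset.mul_sum, ← mul_add, ← mul_add]
        gcongr
        rw [← add_assoc]
        exact hC X a b q α β r L H x
    _ = (∫⁻ x, ENNReal.ofReal (ip N x * (An (0:E) L).indicator
          (fun _ => C * (L ^ N)⁻¹ * (L ^ (2 * m))⁻¹) x)) +
        ((∑ z ∈ X, ∫⁻ x, ENNReal.ofReal (ip N x * (An z (a z)).indicator
          (fun _ => C * α * (a z ^ (2 * m))⁻¹) x)) +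
        (∫⁻ x, ENNReal.ofReal (ip N x * (An (0:E) r).indicator
          (fun _ => C * r * (r ^ (2 * m))⁻¹) x))) := by
        rw [lintegral_add_left (hmeas _ _ _),
          lintegral_add_left (Finset.measurable_fun_sum _ fun z _ => hmeas _ _ _),
          lintegral_finsetSum _ fun z _ => hmeas _ _ _]
    _ ≤ ENNReal.ofReal (K * (L ^ N)⁻¹) +
        ((∑ z ∈ X, ENNReal.ofReal (K * 2 ^ N * α * (c0⁻¹ * β⁻¹ * q))) +
        ENNReal.ofReal (K * r)) := by
        gcongr with z hz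
        exact i2 z hz
    _ = ENNReal.ofReal (K * (L ^ N)⁻¹ + (K * 2 ^ N * α * (c0⁻¹ * β⁻¹ * (q * X.card)) + K * r)) := by
        rw [← ENNReal.ofReal_sum_of_nonneg (fun _ _ => by positivity), ← ENNReal.ofReal_add
          (by positivity) (by positivity), ← ENNReal.ofReal_add (by positivity) (by positivity),
          Finset.sum_const, nsmul_eq_mul]
        congr 1
        ring
    _ ≤ _ := by
        apply ENNReal.ofReal_le_ofReal
        have h1 : K * 2 ^ N * α * (c0⁻¹ * β⁻¹ * (q * X.card)) ≤ K2 * α := by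
          have := H.card
          calc K * 2 ^ N * α * (c0⁻¹ * β⁻¹ * (q * X.card))
              ≤ K * 2 ^ N * α * (c0⁻¹ * β⁻¹ * C1) := by gcongr
            _ = K2 * α := by rw [hK2]; ring
        have h2 : 0 ≤ (L ^ N)⁻¹ := by positivity
        nlinarith [mul_nonneg hK0 hα.le, mul_nonneg hK20 hr.le, mul_nonneg hK20 h2]

end Pool.Agent.Lib.MP_9ca4ac_an
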