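import Mathlib
import Pool.Agent.Lib.MP_9ca4ac_an.Gadget4

open MeasureTheory Metric Set Filter Topology
open scoped ContDiff ENNReal NNReal

noncomputable section

namespace Pool.Agent.Lib.MP_9ca4ac_an

set_option linter.unusedSectionVars false

variable {E : Type*} [NormedAddCommGroup E] [InnerProductSpace ℝ E] [FiniteDimensional ℝ E]

/-- a gadget: approximants `γ k` of a function which vanishes on `F`, equals `A` near `0` and `1`
far away -/
structure Gad (m : ℕ) (F : Set E) (A r R : ℝ) (f : E → ℝ) (γ : ℕ → E → ℝ) : Prop where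
  r_pos : 0 < r
  r_lt : r < R
  closed : IsClosed F
  disj : ∀ x ∈ F, r ≤ ‖x‖
  smooth : ∀ k, ContDiff ℝ ∞ (γ k)
  vanish : ∀ k, ∀ x ∈ F, γ k =ᶠ[𝓝 x] fun _ => 0
  bdd : ∃ M, ∀ k x, ‖iteratedFDeriv ℝ m (γ k) x‖ ≤ M
  stab : ∀ x ∉ F, ∃ U ∈ 𝓝 x, ∃ k0, ∀ k ≥ k0, ∀ y ∈ U, γ k y = γ k0 y ∧ nlap m (γ k) y = f y
  inner : ∀ k x, ‖x‖ < r → γ k x = A
  outer : ∀ k x, R < ‖x‖ → γ k x = 1
  f_smooth : ContDiff ℝ ∞ f
  f_vanish : ∀ x ∈ F, f =ᶠ[𝓝 x] fun _ => 0
  f_inner : ∀ x, ‖x‖ < r → f x = 0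
  f_outer : ∀ x, R < ‖x‖ → f x = 0

variable {N m : ℕ} {X : Finset E} {a b : E → ℝ} {q α β C1 r L : ℝ}

/-- the union of the holes -/
def holes (X : Finset E) (a : E → ℝ) : Set E := ⋃ z ∈ X, closedBall z (a z)

lemma isClosed_holes : IsClosed (holes X a) := by
  unfold holes
  exact isClosed_biUnion_finset fun z _ => isClosed_closedBall

lemma mem_holes {x : E} : x ∈ holes X a ↔ ∃ z ∈ X, ‖x - z‖ ≤ a z := by
  simp [holes, dist_eq_norm]

lemma gam_eventually_near (H : GH N m X a b q α β C1 r L) (j : ℕ) {z x : E} (hz : z ∈ X)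
    (hx : ‖x - z‖ < 2 * a z) :
    gam N m X a b r L j =ᶠ[𝓝 x] fun y => b z * ej N m j ((a z)⁻¹ • (y - z)) := by
  have ho : IsOpen {y : E | ‖y - z‖ < 2 * a z} := by apply isOpen_lt <;> fun_prop
  filter_upwards [ho.mem_nhds hx] with y hy
  rw [gam_near H j hz hy, Kz]
  ring

lemma gam_bdd (H : GH N m X a b q α β C1 r L) :
    ∃ M, ∀ k x, ‖iteratedFDeriv ℝ m (gam N m X a b r L k) x‖ ≤ M := by
  obtain ⟨Ce, hCe0, hCe⟩ := exists_bound_ej (E := E) N m
  have hc : Continuous (fun x : E => ‖iteratedFDeriv ℝ m (gam N m X a b r L 0) x‖) :=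
    ((contDiff_gam 0).continuous_iteratedFDeriv (by exact_mod_cast le_top)).norm
  obtain ⟨M0, hM0⟩ := (isCompact_closedBall (0:E) (3 * L + 1)).bddAbove_image hc.continuousOn
  have hLpos : 0 < L := by have := H.L_ge; linarith
  have hM0' : 0 ≤ M0 := by
    have : (0:E) ∈ closedBall (0:E) (3 * L + 1) := by
      simp; linarith
    exact (norm_nonneg _).trans (hM0 (mem_image_of_mem _ this))
  have hterm : ∀ z ∈ X, 0 ≤ b z * (((a z)⁻¹) ^ m * Ce) := by
    intro z hz
    have := H.a_pos z hz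
    have := H.b_pos hz
    positivity
  have hsum := Finset.sum_nonneg hterm
  refine ⟨M0 + ∑ z ∈ X, b z * (((a z)⁻¹) ^ m * Ce), ?_⟩
  intro k x
  rcases near_or_far H x with ⟨z, hz, hx⟩ | hx
  · have haz := H.a_pos z hz
    have hbz := H.b_pos hz
    rw [((gam_eventually_near H k hz hx).iteratedFDeriv ℝ m).eq_of_nhds]
    have hsm : ContDiffAt ℝ (m : ℕ∞ω) (fun y : E => ej N m k ((a z)⁻¹ • (y - z))) x := by
      have : ContDiff ℝ ∞ (fun y : E => ej N m k ((a z)⁻¹ • (y - z))) :=
        (contDiff_ej N m k).comp (by fun_prop)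
      exact contDiffAt_infty.1 this.contDiffAt _
    have e1 : iteratedFDeriv ℝ m (fun y : E => b z * ej N m k ((a z)⁻¹ • (y - z))) x =
        b z • iteratedFDeriv ℝ m (fun y : E => ej N m k ((a z)⁻¹ • (y - z))) x := by
      have h := iteratedFDeriv_const_smul_apply (𝕜 := ℝ) (i := m) (a := b z)
        (f := fun y : E => ej N m k ((a z)⁻¹ • (y - z))) (x := x) hsm
      exact h
    rw [e1, iteratedFDeriv_comp_smul_sub, norm_smul, norm_smul, Real.norm_of_nonneg hbz.le,
      Real.norm_of_nonneg (by positivity)]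
    have h2 : ‖(a z)⁻¹ • (x - z)‖ ≤ 2 := by
      rw [norm_inv_smul haz, div_le_iff₀ haz]; exact hx.le
    have h3 : b z * ((a z)⁻¹ ^ m * ‖iteratedFDeriv ℝ m (ej N m k : E → ℝ)
        ((a z)⁻¹ • (x - z))‖) ≤ b z * (((a z)⁻¹) ^ m * Ce) := by
      gcongr
      exact hCe k _ h2
    have h4 : b z * (((a z)⁻¹) ^ m * Ce) ≤ ∑ z ∈ X, b z * (((a z)⁻¹) ^ m * Ce) :=
      Finset.single_le_sum (f := fun z => b z * (((a z)⁻¹) ^ m * Ce)) hterm hz
    linarith
  · have h1 : gam N m X a b r L k =ᶠ[𝓝 x] gam N m X a b r L 0 := by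
      filter_upwards [(isOpen_far (X := X) (a := a) (7 / 4)).mem_nhds hx] with y hy
      exact gam_eq_far H k fun z hz => (hy z hz).le
    rw [(h1.iteratedFDeriv ℝ m).eq_of_nhds]
    rcases le_or_gt ‖x‖ (3 * L + 1) with h2 | h2
    · have h5 : ‖iteratedFDeriv ℝ m (gam N m X a b r L 0) x‖ ≤ M0 :=
        hM0 (mem_image_of_mem _ (show x ∈ closedBall (0:E) (3 * L + 1) by simpa using h2))
      linarith
    · have h3 : gam N m X a b r L 0 =ᶠ[𝓝 x] fun _ => 1 := by
        have ho : IsOpen {y : E | 3 * L + 1 < ‖y‖} := by apply isOpen_lt <;> fun_prop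
        filter_upwards [ho.mem_nhds h2] with y hy
        have : 3 * L + 1 < ‖y‖ := hy
        exact gam_outer H 0 (by linarith)
      rw [(h3.iteratedFDeriv ℝ m).eq_of_nhds,
        iteratedFDeriv_const_of_ne (by have := H.hm; omega)]
      simp only [Pi.zero_apply, norm_zero]
      linarith

lemma gad_of_GH (H : GH N m X a b q α β C1 r L) :
    Gad m (holes X a) (1 - Sj N m X a b 0 0) (2 * r) (3 * L) (fg N m X a b r L)
      (gam N m X a b r L) := by
  have hα := H.α_pos
  have hα1 := H.α_le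
  have hr := H.r_pos
  have hr1 := H.r_le
  have hL := H.L_ge
  have hL0 : 0 < L := by linarith
  have hm := H.hm
  refine
    { r_pos := by linarith
      r_lt := by linarith
      closed := isClosed_holes
      disj := ?_
      smooth := contDiff_gam
      vanish := ?_
      bdd := gam_bdd H
      stab := ?_
      inner := fun k x hx => gam_inner H k hx.le
      outer := fun k x hx => gam_outer H k hx.le
      f_smooth := contDiff_fg H
      f_vanish := ?_
      f_inner := ?_
      f_outer := ?_ }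
  · intro x hx
    obtain ⟨z, hz, hxz⟩ := mem_holes.1 hx
    have h1 := H.norm_ge z hz
    have h2 := H.a_le z hz
    have n2 : ‖z‖ ≤ ‖x - z‖ + ‖x‖ := by
      have := norm_sub_le x (x - z)
      simp only [sub_sub_cancel] at this
      linarith
    linarith
  · intro k x hx
    obtain ⟨z, hz, hxz⟩ := mem_holes.1 hx
    have haz := H.a_pos z hz
    have ho : IsOpen {y : E | ‖y - z‖ < 2 * a z} := by apply isOpen_lt <;> fun_prop
    have hx2 : x ∈ {y : E | ‖y - z‖ < 2 * a z} := by
      show ‖x - z‖ < 2 * a z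
      linarith
    filter_upwards [ho.mem_nhds hx2, Kz_near N m k (b z) haz hxz] with y hy1 hy2
    rw [gam_near H k hz hy1, hy2, sub_self]
  · intro x hx
    have hx' : ∀ z ∈ X, a z < ‖x - z‖ := by
      intro z hz
      by_contra hcon
      exact hx (mem_holes.2 ⟨z, hz, not_lt.1 hcon⟩)
    rcases near_or_far H x with ⟨z, hz, hxz⟩ | hfar
    · have haz := H.a_pos z hz
      obtain ⟨U, hU, j0, hj0⟩ := Kz_eventually H.hN hm (b z) haz (hx' z hz)
      have ho : IsOpen {y : E | ‖y - z‖ < 2 * a z} := by apply isOpen_lt <;> fun_prop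
      have ho2 : IsOpen {y : E | a z < ‖y - z‖} := by apply isOpen_lt <;> fun_prop
      have hU' := isOpen_interior (s := U)
      have hmemU : x ∈ interior U := mem_interior_iff_mem_nhds.2 hU
      refine ⟨interior U ∩ ({y : E | ‖y - z‖ < 2 * a z} ∩ {y : E | a z < ‖y - z‖}),
        (hU'.inter (ho.inter ho2)).mem_nhds ⟨hmemU, hxz, hx' z hz⟩, j0, ?_⟩
      intro k hk y hy
      have hval : ∀ k ≥ j0, ∀ w ∈ interior U ∩ ({y : E | ‖y - z‖ < 2 * a z} ∩
          {y : E | a z < ‖y - z‖}), gam N m X a b r L k w =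
            b z - b z * Kout N m ((a z)⁻¹ • (w - z)) := by
        intro k hk w hw
        rw [gam_near H k hz hw.2.1, hj0 k hk w (interior_subset hw.1)]
      refine ⟨by rw [hval k hk y hy, hval j0 le_rfl y hy], ?_⟩
      have hyz : y ≠ z := by
        rintro rfl
        have := hy.2.2
        simp at this; linarith
      have h1 : gam N m X a b r L k =ᶠ[𝓝 y]
          (fun _ => b z) - fun y => b z * Kout N m ((a z)⁻¹ • (y - z)) := by
        filter_upwards [(hU'.inter (ho.inter ho2)).mem_nhds hy] with w hw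
        rw [hval k hk w hw]
        rfl
      rw [nlap_congr_at h1, nlap_sub contDiffAt_const
        (contDiffAt_const.mul (contDiffAt_Kout_comp N m haz hyz)), nlap_Kout_comp H.hE _ haz hyz,
        nlap_const hm, (fg_near hz hy.2.1).eq_of_nhds]
      simp
    · refine ⟨_, (isOpen_far (X := X) (a := a) (7 / 4)).mem_nhds hfar, 0, ?_⟩
      intro k _ y hy
      refine ⟨gam_eq_far H k fun z hz => (hy z hz).le, ?_⟩
      have h1 : gam N m X a b r L k =ᶠ[𝓝 y] gam N m X a b r L 0 := by
        filter_upwards [(isOpen_far (X := X) (a := a) (7 / 4)).mem_nhds hy] with w hw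
        exact gam_eq_far H k fun z hz => (hw z hz).le
      rw [nlap_congr_at h1, (fg_far H hy).eq_of_nhds]
  · intro x hx
    obtain ⟨z, hz, hxz⟩ := mem_holes.1 hx
    have haz := H.a_pos z hz
    exact fg_near hz (by linarith)
  · intro x hx
    have hfar : ∀ z ∈ X, 7 / 4 * a z < ‖x - z‖ := by
      intro z hz
      have h1 := norm_sub_ge_of_le_half H hz (x := x) (by linarith)
      have h2 := H.a_le z hz
      linarith
    rw [(fg_far H hfar).eq_of_nhds]
    have h1 : gam N m X a b r L 0 =ᶠ[𝓝 x] fun _ => 1 - Sj N m X a b 0 0 := by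
      have ho : IsOpen {y : E | ‖y‖ < 2 * r} := by apply isOpen_lt <;> fun_prop
      filter_upwards [ho.mem_nhds hx] with y hy
      exact gam_inner H 0 (le_of_lt hy)
    rw [nlap_congr_at h1, nlap_const hm]
    rfl
  · intro x hx
    have hfar : ∀ z ∈ X, 7 / 4 * a z < ‖x - z‖ := by
      intro z hz
      have h1 := norm_sub_ge_of_ge_four H hz (x := x) (by linarith)
      have h2 := H.a_le z hz
      linarith
    rw [(fg_far H hfar).eq_of_nhds]
    have h1 : gam N m X a b r L 0 =ᶠ[𝓝 x] fun _ => 1 := by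
      have ho : IsOpen {y : E | 3 * L < ‖y‖} := by apply isOpen_lt <;> fun_prop
      filter_upwards [ho.mem_nhds hx] with y hy
      exact gam_outer H 0 (le_of_lt hy)
    rw [nlap_congr_at h1, nlap_const hm]
    rfl

end Pool.Agent.Lib.MP_9ca4ac_an
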