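import Mathlib
import Pool.Agent.Lib.MP_9ca4ac_an.Gadget5

open MeasureTheory Metric Set Filter Topology
open scoped ContDiff ENNReal NNReal

noncomputable section

namespace Pool.Agent.Lib.MP_9ca4ac_an

set_option linter.unusedSectionVars false

open scoped Classical in
theorem exists_gadgets {E : Type*} [NormedAddCommGroup E] [InnerProductSpace ℝ E]
    [FiniteDimensional ℝ E] [MeasurableSpace E] [BorelSpace E]
    {N m : ℕ} (hN : 1 ≤ N) (hm : 1 ≤ m) (hE : Module.finrank ℝ E = N + 2 * m)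
    (HD : ∃ κ β C1 : ℝ, 0 < κ ∧ 0 < β ∧ 0 < C1 ∧ ∀ d0 : ℝ, 0 < d0 → ∃ d : ℝ, 0 < d ∧ d < d0 ∧
      ∃ X : Finset E,
        (∀ x ∈ X, 1 ≤ ‖x‖ ∧ ‖x‖ ≤ 2) ∧
        (∀ x ∈ X, ∀ y ∈ X, x ≠ y → d ≤ ‖x - y‖) ∧
        (∀ x ∈ X, ∑ y ∈ X.erase x, κ * d ^ (N + 2 * m) * (‖x - y‖ ^ N)⁻¹ ≤ 1 - β) ∧
        (2 + β ≤ ∑ x ∈ X, κ * d ^ (N + 2 * m) * (‖x‖ ^ N)⁻¹) ∧
        (∀ x ∈ X, ∑ y ∈ X.erase x, κ * d ^ (N + 2 * m) * (‖x - y‖ ^ (N + 1))⁻¹ ≤ C1) ∧
        κ * d ^ (N + 2 * m) * (X.card : ℝ) ≤ C1) :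
    ∃ θ : ℝ, 1 < θ ∧ ∀ ε : ℝ, 0 < ε →
      ∃ (F : Set E) (A r R : ℝ) (f : E → ℝ) (γ : ℕ → E → ℝ), Gad m F A r R f γ ∧ θ ≤ |A| ∧
        ∫⁻ x, ENNReal.ofReal (ip N x * |f x|) ≤ ENNReal.ofReal ε := by
  obtain ⟨κ, β, C1, hκ, hβ, hC1, HD⟩ := HD
  refine ⟨1 + β / 2, by linarith, fun ε hε => ?_⟩
  obtain ⟨CJ, hCJ0, hCJ⟩ := exists_J E N m hN hm C1 β hC1.le hβ
  obtain ⟨C0, hC00, hC0⟩ := exists_Sj_zero E N m hN hm C1 hC1.le
  have hc0 := Ppoly_coeff_zero_pos N hm
  set c0 := (Ppoly N m).coeff 0 with hc0def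
  set δ : ℝ := ε / (3 * (CJ + 1)) with hδ
  have hδ0 : 0 < δ := by positivity
  set η : ℝ := min (1 / 8) (min δ (β / (2 * (C0 + 1)))) with hη
  have hη0 : 0 < η := by
    rw [hη]
    apply lt_min (by norm_num)
    apply lt_min hδ0
    positivity
  have hη1 : η ≤ 1 / 8 := min_le_left _ _
  have hη2 : η ≤ δ := (min_le_right _ _).trans (min_le_left _ _)
  have hη3 : η ≤ β / (2 * (C0 + 1)) := (min_le_right _ _).trans (min_le_right _ _)
  set r : ℝ := min (1 / 6) δ with hr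
  have hr0 : 0 < r := lt_min (by norm_num) hδ0
  have hr1 : r ≤ 1 / 6 := min_le_left _ _
  have hr2 : r ≤ δ := min_le_right _ _
  set L : ℝ := max 2 δ⁻¹ with hL
  have hL2 : 2 ≤ L := le_max_left _ _
  have hL0 : 0 < L := by linarith
  have hLδ : (L ^ N)⁻¹ ≤ δ := by
    have h1 : δ⁻¹ ≤ L := le_max_right _ _
    have h2 : L ≤ L ^ N := le_self_pow₀ (by linarith) (by omega)
    rw [inv_le_comm₀ (by positivity) hδ0]
    exact h1.trans h2
  obtain ⟨d, hd0, hd1, X, hX1, hX2, hX3, hX4, hX5, hX6⟩ :=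
    HD (min 1 (η ^ N * (β * c0) / κ)) (lt_min one_pos (by positivity))
  have hd1' : d < 1 := hd1.trans_le (min_le_left _ _)
  have hd2 : d < η ^ N * (β * c0) / κ := hd1.trans_le (min_le_right _ _)
  set q : ℝ := κ * d ^ (N + 2 * m) with hq
  have hq0 : 0 < q := by positivity
  set b : E → ℝ := fun z => 1 - ∑ y ∈ X.erase z, q * ip N (z - y) with hb
  set a : E → ℝ := fun z => (q / (b z * c0)) ^ ((N : ℝ)⁻¹) with ha
  set α : ℝ := η * d with hα
  have hα0 : 0 < α := by positivity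
  have hb1 : ∀ z ∈ X, β ≤ b z := by
    intro z hz
    have := hX3 z hz
    have e : ∑ y ∈ X.erase z, q * ip N (z - y) =
      ∑ y ∈ X.erase z, κ * d ^ (N + 2 * m) * (‖z - y‖ ^ N)⁻¹ := rfl
    simp only [hb]
    rw [e]
    linarith
  have haN : ∀ z ∈ X, a z ^ N = q / (b z * c0) := by
    intro z hz
    have h1 : 0 < b z := hβ.trans_le (hb1 z hz)
    simp only [ha]
    exact Real.rpow_inv_natCast_pow (by positivity) (by omega)
  have ha0 : ∀ z ∈ X, 0 < a z := by
    intro z hz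
    have h1 : 0 < b z := hβ.trans_le (hb1 z hz)
    simp only [ha]
    positivity
  have haα : ∀ z ∈ X, a z ≤ α := by
    intro z hz
    have h1 : 0 < b z := hβ.trans_le (hb1 z hz)
    have h2 : a z ^ N ≤ α ^ N := by
      rw [haN z hz, div_le_iff₀ (by positivity)]
      have h3 : d ^ (2 * m) ≤ d := pow_le_of_le_one hd0.le hd1'.le (by omega)
      rw [lt_div_iff₀ hκ] at hd2
      calc q = κ * d ^ (2 * m) * d ^ N := by rw [hq, pow_add]; ring
        _ ≤ κ * d * d ^ N := by gcongr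
        _ ≤ (η ^ N * (β * c0)) * d ^ N :=
            mul_le_mul_of_nonneg_right (by linarith) (by positivity)
        _ = α ^ N * (β * c0) := by rw [hα, mul_pow]; ring
        _ ≤ α ^ N * (b z * c0) := by
            have := hb1 z hz
            gcongr
    exact (pow_le_pow_iff_left₀ (ha0 z hz).le hα0.le (by omega)).1 h2
  have hαη : α ≤ η := by
    rw [hα]; nlinarith
  have H : GH N m X a b q α β C1 r L := by
    refine
      { hN := hN, hm := hm, hE := hE, q_pos := hq0, β_pos := hβ, α_pos := hα0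
        α_le := hαη.trans hη1, a_pos := ha0, a_le := haα, b_ge := hb1
        bq := ?_
        norm_ge := fun z hz => (hX1 z hz).1
        norm_le := fun z hz => (hX1 z hz).2
        sep := ?_
        b_eq := ?_
        sum1 := ?_
        card := hX6
        r_pos := hr0, r_le := hr1, L_ge := hL2 }
    · intro z hz
      have h1 : 0 < b z := hβ.trans_le (hb1 z hz)
      rw [haN z hz, ← hc0def]
      field_simp
    · intro z hz y hy hyz
      have h1 := hX2 z hz y hy hyz.symm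
      have h2 : 8 * α ≤ d := by
        rw [hα]; nlinarith
      exact h2.trans h1
    · intro z hz
      simp only [hb]
      ring
    · intro z hz
      exact hX5 z hz
  refine ⟨_, _, _, _, _, _, gad_of_GH H, ?_, ?_⟩
  · have h1 := hC0 X a b q α β r L H
    have h2 : 2 + β ≤ ∑ x ∈ X, q * ip N x := hX4
    have h3 : C0 * α ≤ β / 2 := by
      calc C0 * α ≤ (C0 + 1) * (β / (2 * (C0 + 1))) := by
            have := hαη.trans hη3
            gcongr
            linarith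
        _ = β / 2 := by field_simp
    have h4 := abs_le.1 h1
    rw [abs_sub_comm]
    have h5 : 1 + β / 2 ≤ Sj N m X a b 0 0 - 1 := by linarith [h4.1]
    exact h5.trans (le_abs_self _)
  · refine (hCJ X a b q α r L H).trans (ENNReal.ofReal_le_ofReal ?_)
    calc CJ * (α + r + (L ^ N)⁻¹) ≤ (CJ + 1) * (δ + δ + δ) := by
          have := hαη.trans hη2
          gcongr
          linarith
      _ = ε := by
          rw [hδ]
          field_simp
          ring

end Pool.Agent.Lib.MP_9ca4ac_an
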