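import Mathlib
import Pool.Agent.Lib.MP_9ca4ac_an.NDef

open MeasureTheory Filter Topology TopologicalSpace
open scoped Distributions

noncomputable section

namespace Pool.Agent.Lib.MP_9ca4ac_an

/-- `u`, viewed as a (measurable) function on `Ω`, belongs to the completion of `C_c^∞(Ω)` for the
norm `‖∇^m φ‖_{L²(Ω)}`: it is the local `L¹` limit on `Ω` of a sequence of test functions which is
Cauchy for that norm. Only the values of `u` on `Ω` matter. -/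
def MemW {n : ℕ} (m : ℕ) (Ω : Opens (EuclideanSpace ℝ (Fin n)))
    (u : EuclideanSpace ℝ (Fin n) → ℝ) : Prop :=
  AEStronglyMeasurable u (volume.restrict (Ω : Set (EuclideanSpace ℝ (Fin n)))) ∧
  ∃ φ : ℕ → 𝓓(Ω, ℝ),
    Tendsto (fun p : ℕ × ℕ =>
      ∫⁻ x in (Ω : Set (EuclideanSpace ℝ (Fin n))),
        ‖iteratedFDeriv ℝ m (fun y => φ p.1 y - φ p.2 y) x‖ₑ ^ 2) atTop (𝓝 0) ∧
    ∀ K : Set (EuclideanSpace ℝ (Fin n)), IsCompact K → K ⊆ Ω →
      Tendsto (fun k => ∫⁻ x in K, ‖φ k x - u x‖ₑ) atTop (𝓝 0)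

/-- `u` is a weak solution in the completion of `C_c^∞(Ω)` of `(-Δ)^m u = f` in `Ω`. -/
def IsSol {n : ℕ} (m : ℕ) (Ω : Opens (EuclideanSpace ℝ (Fin n)))
    (f u : EuclideanSpace ℝ (Fin n) → ℝ) : Prop :=
  MemW m Ω u ∧ ∀ ψ : 𝓓(Ω, ℝ),
    ∫ x in (Ω : Set (EuclideanSpace ℝ (Fin n))), u x * nlap m ψ x =
      ∫ x in (Ω : Set (EuclideanSpace ℝ (Fin n))), f x * ψ x

/-- `G` is a kernel of the solution operator of the Dirichlet problem for `(-Δ)^m` in `Ω`. -/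
def IsGreen {n : ℕ} (m : ℕ) (Ω : Opens (EuclideanSpace ℝ (Fin n)))
    (G : EuclideanSpace ℝ (Fin n) → EuclideanSpace ℝ (Fin n) → ℝ) : Prop :=
  ∀ f : 𝓓(Ω, ℝ), IsSol m Ω f
    (fun x => ∫ y in (Ω : Set (EuclideanSpace ℝ (Fin n))), G x y * f y)

end Pool.Agent.Lib.MP_9ca4ac_an
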