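import Mathlib
import Pool.Agent.Lib.MP_9ca4ac_an.Gadget5

open MeasureTheory Metric Set Filter Topology
open scoped ContDiff ENNReal NNReal

noncomputable section

namespace Pool.Agent.Lib.MP_9ca4ac_an

set_option linter.unusedSectionVars false

variable {E : Type*} [NormedAddCommGroup E] [InnerProductSpace ℝ E] [FiniteDimensional ℝ E]

/-- admissible state of the iteration -/
structure Adm (m : ℕ) (Ω : Set E) (A r : ℝ) (f : E → ℝ) (φ : ℕ → E → ℝ) : Prop where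
  r_pos : 0 < r
  opn : IsOpen Ω
  bdd_dom : Bornology.IsBounded Ω
  ball_sub : ball 0 r ⊆ Ω
  smooth : ∀ k, ContDiff ℝ ∞ (φ k)
  cpt : ∀ k, HasCompactSupport (φ k)
  supp : ∀ k, tsupport (φ k) ⊆ Ω
  bdd : ∃ M, ∀ k x, ‖iteratedFDeriv ℝ m (φ k) x‖ ≤ M
  stab : ∀ x ∈ Ω, ∃ U ∈ 𝓝 x, ∃ k0, ∀ k ≥ k0, ∀ y ∈ U, φ k y = φ k0 y ∧ nlap m (φ k) y = f y
  inner : ∀ k x, ‖x‖ < r → φ k x = A
  f_smooth : ContDiff ℝ ∞ f
  f_cpt : HasCompactSupport f
  f_supp : tsupport f ⊆ Ω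
  f_inner : ∀ x, ‖x‖ < r → f x = 0

variable {m : ℕ} {Ω : Set E} {A r : ℝ} {f : E → ℝ} {φ : ℕ → E → ℝ}
  {F : Set E} {A' r' R' : ℝ} {f' : E → ℝ} {γ : ℕ → E → ℝ}

lemma comp_eventually {ρ : ℝ} {x : E} {g h : E → ℝ} (H : g =ᶠ[𝓝 (ρ⁻¹ • x)] h) :
    (fun y => g (ρ⁻¹ • y)) =ᶠ[𝓝 x] fun y => h (ρ⁻¹ • y) := by
  have h2 : ContinuousAt (fun y : E => ρ⁻¹ • y) x := by fun_prop
  exact h2.tendsto.eventually H

lemma norm_inv_smul_lt {ρ : ℝ} (hρ : 0 < ρ) {x : E} {s : ℝ} (h : ‖x‖ < ρ * s) :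
    ‖ρ⁻¹ • x‖ < s := by
  rw [norm_inv_smul hρ, div_lt_iff₀ hρ]; linarith

lemma lt_norm_inv_smul {ρ : ℝ} (hρ : 0 < ρ) {x : E} {s : ℝ} (h : ρ * s < ‖x‖) :
    s < ‖ρ⁻¹ • x‖ := by
  rw [norm_inv_smul hρ, lt_div_iff₀ hρ]; linarith

lemma Gad.norm_le (hG : Gad m F A' r' R' f' γ) {x : E} (hx : x ∈ F) : ‖x‖ ≤ R' := by
  by_contra hcon
  have h1 := hG.outer 0 x (not_le.1 hcon)
  have h2 := (hG.vanish 0 x hx).eq_of_nhds
  rw [h1] at h2
  exact one_ne_zero h2

lemma Adm.step (hA : Adm m Ω A r f φ) (hG : Gad m F A' r' R' f' γ) {ρ : ℝ} (hρ : 0 < ρ)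
    (hρr : ρ * R' < r) :
    Adm m (Ω ∩ {x | ρ⁻¹ • x ∉ F}) (A * A') (ρ * r')
      (fun x => f x + A * (ρ⁻¹ ^ (2 * m) * f' (ρ⁻¹ • x))) (fun k x => φ k x * γ k (ρ⁻¹ • x)) := by
  have hr'0 := hG.r_pos
  have hrR := hG.r_lt
  have hρr' : ρ * r' < ρ * R' := mul_lt_mul_of_pos_left hrR hρ
  have hR0 : 0 < R' := hr'0.trans hrR
  have hcomp : ContDiff ℝ ∞ (fun y : E => ρ⁻¹ • y) := by fun_prop
  have hopnF : IsOpen {x : E | ρ⁻¹ • x ∉ F} :=
    (hG.closed.preimage (hcomp.continuous)).isOpen_compl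
  -- open sets
  have hball : IsOpen {y : E | ‖y‖ < r} := by apply isOpen_lt <;> fun_prop
  have hout : IsOpen {y : E | ρ * R' < ‖y‖} := by apply isOpen_lt <;> fun_prop
  -- scaling of the gadget
  have hnl : ∀ k, nlap m (fun y => γ k (ρ⁻¹ • y)) = fun y => ρ⁻¹ ^ (2 * m) *
      nlap m (γ k) (ρ⁻¹ • y) := by
    intro k
    have := nlap_comp_smul_sub m ρ⁻¹ (0:E) (γ k)
    simpa using this
  have hit : ∀ k x, iteratedFDeriv ℝ m (fun y => γ k (ρ⁻¹ • y)) x =
      ρ⁻¹ ^ m • iteratedFDeriv ℝ m (γ k) (ρ⁻¹ • x) := by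
    intro k x
    have := iteratedFDeriv_comp_smul_sub m ρ⁻¹ (0:E) (γ k) x
    simpa using this
  have hin : ∀ k x, ‖x‖ < r → (fun x => φ k x * γ k (ρ⁻¹ • x)) =ᶠ[𝓝 x]
      fun y => A * γ k (ρ⁻¹ • y) := by
    intro k x hx
    filter_upwards [hball.mem_nhds hx] with y hy
    rw [hA.inner k y hy]
  have houtv : ∀ k x, ρ * R' < ‖x‖ → (fun x => φ k x * γ k (ρ⁻¹ • x)) =ᶠ[𝓝 x] φ k := by
    intro k x hx
    filter_upwards [hout.mem_nhds hx] with y hy
    rw [hG.outer k _ (lt_norm_inv_smul hρ hy), mul_one]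
  have hf'out : ∀ x : E, ρ * R' < ‖x‖ → f' (ρ⁻¹ • x) = 0 := fun x hx =>
    hG.f_outer _ (lt_norm_inv_smul hρ hx)
  have hf'cpt : HasCompactSupport (fun x => f' (ρ⁻¹ • x)) := by
    apply HasCompactSupport.intro (isCompact_closedBall (0:E) (ρ * R'))
    intro x hx
    apply hf'out
    simpa using hx
  refine
    { r_pos := by positivity
      opn := hA.opn.inter hopnF
      bdd_dom := hA.bdd_dom.subset inter_subset_left
      ball_sub := ?_
      smooth := fun k => (hA.smooth k).mul ((hG.smooth k).comp hcomp)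
      cpt := fun k => (hA.cpt k).mul_right
      supp := ?_
      bdd := ?_
      stab := ?_
      inner := ?_
      f_smooth := ?_
      f_cpt := ?_
      f_supp := ?_
      f_inner := ?_ }
  · intro x hx
    have hx' : ‖x‖ < ρ * r' := by simpa using hx
    refine ⟨hA.ball_sub (by simp; linarith), ?_⟩
    intro hF
    have h1 := hG.disj _ hF
    have h2 := norm_inv_smul_lt hρ hx'
    linarith
  · intro k x hx
    have h1 : x ∈ tsupport (φ k) := (tsupport_mul_subset_left (f := φ k)) hx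
    refine ⟨hA.supp k h1, ?_⟩
    intro hF
    have h2 := comp_eventually (ρ := ρ) (x := x) (hG.vanish k _ hF)
    have h3 : (fun x => φ k x * γ k (ρ⁻¹ • x)) =ᶠ[𝓝 x] 0 := by
      filter_upwards [h2] with y hy
      rw [hy]; simp
    exact (notMem_tsupport_iff_eventuallyEq.2 h3) hx
  · obtain ⟨M1, hM1⟩ := hA.bdd
    obtain ⟨M2, hM2⟩ := hG.bdd
    have hM10 : 0 ≤ M1 := (norm_nonneg _).trans (hM1 0 0)
    have hM20 : 0 ≤ M2 := (norm_nonneg _).trans (hM2 0 0)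
    refine ⟨M1 + |A| * (ρ⁻¹ ^ m * M2), ?_⟩
    have hpos : 0 ≤ |A| * (ρ⁻¹ ^ m * M2) := by positivity
    intro k x
    rcases lt_or_ge ‖x‖ r with hx | hx
    · rw [((hin k x hx).iteratedFDeriv ℝ m).eq_of_nhds]
      have hsm : ContDiffAt ℝ (m : ℕ∞ω) (fun y : E => γ k (ρ⁻¹ • y)) x := by
        have : ContDiff ℝ ∞ (fun y : E => γ k (ρ⁻¹ • y)) := (hG.smooth k).comp hcomp
        exact contDiffAt_infty.1 this.contDiffAt _
      have e1 : iteratedFDeriv ℝ m (fun y : E => A * γ k (ρ⁻¹ • y)) x =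
          A • iteratedFDeriv ℝ m (fun y : E => γ k (ρ⁻¹ • y)) x := by
        have h := iteratedFDeriv_const_smul_apply (𝕜 := ℝ) (i := m) (a := A)
          (f := fun y : E => γ k (ρ⁻¹ • y)) (x := x) hsm
        exact h
      rw [e1, hit, norm_smul, norm_smul, Real.norm_eq_abs, Real.norm_of_nonneg (by positivity)]
      have : |A| * (ρ⁻¹ ^ m * ‖iteratedFDeriv ℝ m (γ k) (ρ⁻¹ • x)‖) ≤
          |A| * (ρ⁻¹ ^ m * M2) := by
        gcongr
        exact hM2 k _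
      linarith
    · rw [((houtv k x (hρr.trans_le hx)).iteratedFDeriv ℝ m).eq_of_nhds]
      have := hM1 k x
      linarith
  · intro x hx
    rcases lt_or_ge ‖x‖ r with hxr | hxr
    · obtain ⟨U, hU, k0, hk0⟩ := hG.stab _ hx.2
      have hcont : ContinuousAt (fun y : E => ρ⁻¹ • y) x := hcomp.continuous.continuousAt
      refine ⟨(fun y : E => ρ⁻¹ • y) ⁻¹' U ∩ {y : E | ‖y‖ < r},
        inter_mem (hcont.preimage_mem_nhds hU) (hball.mem_nhds hxr), k0, ?_⟩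
      intro k hk y hy
      have h1 := hk0 k hk _ hy.1
      constructor
      · rw [hA.inner k y hy.2, hA.inner k0 y hy.2, h1.1]
      · rw [nlap_congr_at (hin k y hy.2), nlap_const_mul_field, hnl k]
        simp only
        rw [h1.2, hA.f_inner y hy.2, zero_add]
    · obtain ⟨U, hU, k0, hk0⟩ := hA.stab x hx.1
      refine ⟨U ∩ {y : E | ρ * R' < ‖y‖}, inter_mem hU (hout.mem_nhds (hρr.trans_le hxr)), k0, ?_⟩
      intro k hk y hy
      have h1 := hk0 k hk y hy.1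
      have h2 : ρ * R' < ‖y‖ := hy.2
      constructor
      · rw [hG.outer k _ (lt_norm_inv_smul hρ h2), hG.outer k0 _ (lt_norm_inv_smul hρ h2), h1.1]
      · rw [nlap_congr_at (houtv k y h2), h1.2, hf'out y h2]
        ring
  · intro k x hx
    rw [hA.inner k x (by linarith), hG.inner k _ (norm_inv_smul_lt hρ hx)]
  · exact hA.f_smooth.add (contDiff_const.mul (contDiff_const.mul (hG.f_smooth.comp hcomp)))
  · apply hA.f_cpt.add
    exact HasCompactSupport.mul_left (f := fun _ : E => A)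
      (HasCompactSupport.mul_left (f := fun _ : E => ρ⁻¹ ^ (2 * m)) hf'cpt)
  · intro x hx
    constructor
    · rcases lt_or_ge ‖x‖ r with hxr | hxr
      · exact hA.ball_sub (by simpa using hxr)
      · have h2 : (fun x => f x + A * (ρ⁻¹ ^ (2 * m) * f' (ρ⁻¹ • x))) =ᶠ[𝓝 x] f := by
          filter_upwards [hout.mem_nhds (hρr.trans_le hxr)] with y hy
          rw [hf'out y hy]; ring
        apply hA.f_supp
        by_contra hcon
        have h3 := notMem_tsupport_iff_eventuallyEq.1 hcon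
        exact (notMem_tsupport_iff_eventuallyEq.2 (h2.trans h3)) hx
    · intro hF
      have hxR : ‖x‖ < r := by
        have h1 := hG.norm_le hF
        rw [norm_inv_smul hρ, div_le_iff₀ hρ] at h1
        linarith
      have h2 := comp_eventually (ρ := ρ) (x := x) (hG.f_vanish _ hF)
      have h3 : (fun x => f x + A * (ρ⁻¹ ^ (2 * m) * f' (ρ⁻¹ • x))) =ᶠ[𝓝 x] 0 := by
        filter_upwards [h2, hball.mem_nhds hxR] with y hy1 hy2
        rw [hy1, hA.f_inner y hy2]; simp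
      exact (notMem_tsupport_iff_eventuallyEq.2 h3) hx
  · intro x hx
    rw [hA.f_inner x (by linarith), hG.f_inner _ (norm_inv_smul_lt hρ hx)]
    ring

lemma lintegral_comp_inv_smul [MeasurableSpace E] [BorelSpace E] (h : E → ℝ≥0∞) {ρ : ℝ}
    (hρ : 0 < ρ) : ∫⁻ x, h (ρ⁻¹ • x) = ENNReal.ofReal (ρ ^ Module.finrank ℝ E) * ∫⁻ x, h x := by
  have h1 := Measure.map_addHaar_smul (volume : Measure E) (inv_pos.2 hρ).ne'
  have h2 : ∫⁻ x, h (ρ⁻¹ • x) = ∫⁻ x, h x ∂(Measure.map (ρ⁻¹ • ·) (volume : Measure E)) := by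
    rw [(measurableEmbedding_const_smul₀ (inv_pos.2 hρ).ne').lintegral_map]
  rw [h2, h1, lintegral_smul_measure]
  simp only [inv_pow, inv_inv, smul_eq_mul]
  rw [abs_of_pos (by positivity)]

lemma J_step [MeasurableSpace E] [BorelSpace E] {N : ℕ} (hE : Module.finrank ℝ E = N + 2 * m)
    (hfc : Continuous f) (A : ℝ) {ρ : ℝ} (hρ : 0 < ρ) :
    ∫⁻ x, ENNReal.ofReal (ip N x * |f x + A * (ρ⁻¹ ^ (2 * m) * f' (ρ⁻¹ • x))|) ≤
      (∫⁻ x, ENNReal.ofReal (ip N x * |f x|)) +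
        ENNReal.ofReal |A| * ∫⁻ x, ENNReal.ofReal (ip N x * |f' x|) := by
  have e1 : ENNReal.ofReal |A| * ∫⁻ x, ENNReal.ofReal (ip N x * |f' x|) =
      ∫⁻ x, ENNReal.ofReal (ip N x * |A * (ρ⁻¹ ^ (2 * m) * f' (ρ⁻¹ • x))|) := by
    have h1 := lintegral_comp_inv_smul (fun x : E => ENNReal.ofReal (ip N x * |f' x|)) hρ
    have h2 : ∀ x : E, ENNReal.ofReal (ip N x * |A * (ρ⁻¹ ^ (2 * m) * f' (ρ⁻¹ • x))|) =
        ENNReal.ofReal (|A| * (ρ ^ (N + 2 * m))⁻¹) *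
          ENNReal.ofReal (ip N (ρ⁻¹ • x) * |f' (ρ⁻¹ • x)|) := by
      intro x
      rw [← ENNReal.ofReal_mul (by positivity)]
      congr 1
      rw [ip_scale' N hρ, abs_mul, abs_mul, abs_of_nonneg (a := ρ⁻¹ ^ (2 * m)) (by positivity),
        pow_add]
      generalize |f' (ρ⁻¹ • x)| = t
      rw [inv_pow]
      field_simp
    simp_rw [h2]
    rw [lintegral_const_mul' _ _ ENNReal.ofReal_ne_top, h1, hE, ← mul_assoc,
      ← ENNReal.ofReal_mul (by positivity)]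
    congr 2
    field_simp
  rw [e1, ← lintegral_add_left]
  · apply lintegral_mono
    intro x
    simp only
    rw [← ENNReal.ofReal_add (by have := ip_nonneg N x; positivity)
      (by have := ip_nonneg N x; positivity), ← mul_add]
    apply ENNReal.ofReal_le_ofReal
    have := ip_nonneg N x
    gcongr
    exact abs_add_le _ _
  · apply ENNReal.measurable_ofReal.comp
    apply Measurable.mul
    · unfold ip
      fun_prop
    · exact hfc.measurable.abs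

end Pool.Agent.Lib.MP_9ca4ac_an
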