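import Mathlib
import Pool.Agent.Lib.MP_9ca4ac_an.Iter

open MeasureTheory Metric Set Filter Topology
open scoped ContDiff ENNReal NNReal

noncomputable section

namespace Pool.Agent.Lib.MP_9ca4ac_an

set_option linter.unusedSectionVars false

variable {E : Type*} [NormedAddCommGroup E] [InnerProductSpace ℝ E] [FiniteDimensional ℝ E]

lemma tsupport_nlap_subset (m : ℕ) (u : E → ℝ) : tsupport (nlap m u) ⊆ tsupport u := by
  intro x hx
  by_contra hcon
  have h1 := notMem_tsupport_iff_eventuallyEq.1 hcon
  have h2 : nlap m u =ᶠ[𝓝 x] 0 := by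
    have h3 := nlap_congr (m := m) h1
    have h4 : nlap m (0 : E → ℝ) = 0 := by
      have := nlap_const_mul_field m 0 (0 : E → ℝ)
      simp only [Pi.zero_apply, mul_zero, zero_mul] at this
      exact this
    rw [h4] at h3
    exact h3
  exact (notMem_tsupport_iff_eventuallyEq.2 h2) hx

lemma tsupport_zeta_subset : tsupport (zeta : E → ℝ) ⊆ closedBall 0 3 := by
  apply closure_minimal _ isClosed_closedBall
  intro x hx
  by_contra hcon
  apply hx
  apply zeta_zero
  have : 3 < ‖x‖ := by simpa using hcon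
  exact this.le

lemma hasCompactSupport_zeta : HasCompactSupport (zeta : E → ℝ) :=
  HasCompactSupport.of_support_subset_isCompact (isCompact_closedBall (0:E) 3)
    ((subset_tsupport _).trans tsupport_zeta_subset)

lemma adm_base {m : ℕ} (hm : 1 ≤ m) :
    Adm m (ball (0:E) 4) 1 2 (nlap m (zeta : E → ℝ)) (fun _ => zeta) := by
  refine
    { r_pos := by norm_num
      opn := isOpen_ball
      bdd_dom := isBounded_ball
      ball_sub := ball_subset_ball (by norm_num)
      smooth := fun _ => contDiff_zeta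
      cpt := fun _ => hasCompactSupport_zeta
      supp := fun _ => tsupport_zeta_subset.trans (closedBall_subset_ball (by norm_num))
      bdd := ?_
      stab := fun x _ => ⟨univ, univ_mem, 0, fun k _ y _ => ⟨rfl, rfl⟩⟩
      inner := fun _ x hx => zeta_one hx.le
      f_smooth := contDiff_nlap_infty contDiff_zeta
      f_cpt := hasCompactSupport_zeta.mono' ((subset_tsupport _).trans (tsupport_nlap_subset _ _))
      f_supp := (tsupport_nlap_subset _ _).trans
        (tsupport_zeta_subset.trans (closedBall_subset_ball (by norm_num)))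
      f_inner := ?_ }
  · obtain ⟨C, _, hC⟩ := exists_bound_zeta (E := E) m
    exact ⟨C, fun _ x => hC x⟩
  · intro x hx
    have h1 : (zeta : E → ℝ) =ᶠ[𝓝 x] fun _ => 1 := by
      have ho : IsOpen {y : E | ‖y‖ < 2} := by apply isOpen_lt <;> fun_prop
      filter_upwards [ho.mem_nhds hx] with y hy
      exact zeta_one (le_of_lt hy)
    rw [nlap_congr_at h1, nlap_const hm]
    rfl

lemma J_base [MeasurableSpace E] [BorelSpace E] {N m : ℕ} (hm : 1 ≤ m) :
    ∫⁻ x, ENNReal.ofReal (ip N x * |nlap m (zeta : E → ℝ) x|) < ⊤ := by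
  have hc : Continuous (nlap m (zeta : E → ℝ)) := (contDiff_nlap_infty contDiff_zeta).continuous
  obtain ⟨M, hM⟩ := (adm_base (E := E) hm).f_cpt.exists_bound_of_continuous hc
  have hM0 : 0 ≤ M := (norm_nonneg _).trans (hM 0)
  calc ∫⁻ x, ENNReal.ofReal (ip N x * |nlap m (zeta : E → ℝ) x|)
      ≤ ∫⁻ x, (closedBall (0:E) 3).indicator (fun _ => ENNReal.ofReal M) x := by
        apply lintegral_mono
        intro x
        simp only
        by_cases hx : x ∈ closedBall (0:E) 3
        · rw [indicator_of_mem hx]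
          apply ENNReal.ofReal_le_ofReal
          rcases lt_or_ge ‖x‖ 2 with h2 | h2
          · rw [(adm_base (E := E) hm).f_inner x h2]
            simpa using hM0
          · have h3 : ip N x ≤ 1 := by
              unfold ip
              exact inv_le_one_of_one_le₀ (one_le_pow₀ (by linarith))
            have h4 := hM x
            rw [Real.norm_eq_abs] at h4
            calc ip N x * |nlap m (zeta : E → ℝ) x| ≤ 1 * M := by gcongr
              _ = M := one_mul M
        · rw [indicator_of_notMem hx]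
          have : nlap m (zeta : E → ℝ) x = 0 := by
            by_contra hcon
            exact hx (tsupport_zeta_subset (tsupport_nlap_subset _ _ (subset_tsupport _ hcon)))
          rw [this]; simp
    _ = ENNReal.ofReal M * volume (closedBall (0:E) 3) := by
        rw [lintegral_indicator_const measurableSet_closedBall]
    _ < ⊤ := ENNReal.mul_lt_top ENNReal.ofReal_lt_top measure_closedBall_lt_top

theorem exists_adm [MeasurableSpace E] [BorelSpace E] {N m : ℕ} (hm : 1 ≤ m)
    (hE : Module.finrank ℝ E = N + 2 * m) {θ : ℝ} (hθ : 1 < θ)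
    (HG : ∀ ε : ℝ, 0 < ε →
      ∃ (F : Set E) (A r R : ℝ) (f : E → ℝ) (γ : ℕ → E → ℝ), Gad m F A r R f γ ∧ θ ≤ |A| ∧
        ∫⁻ x, ENNReal.ofReal (ip N x * |f x|) ≤ ENNReal.ofReal ε) :
    ∃ J0 : ℝ, 0 ≤ J0 ∧ ∀ (K : ℕ) (η : ℝ), 0 < η →
      ∃ (Ω : Set E) (A r : ℝ) (f : E → ℝ) (φ : ℕ → E → ℝ), Adm m Ω A r f φ ∧ θ ^ K ≤ |A| ∧
        ∫⁻ x, ENNReal.ofReal (ip N x * |f x|) ≤ ENNReal.ofReal (J0 + η) := by
  set J0 := (∫⁻ x, ENNReal.ofReal (ip N x * |nlap m (zeta : E → ℝ) x|)).toReal with hJ0
  refine ⟨J0, ENNReal.toReal_nonneg, fun K => ?_⟩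
  induction K with
  | zero =>
    intro η hη
    refine ⟨_, _, _, _, _, adm_base hm, by simp, ?_⟩
    rw [← ENNReal.ofReal_toReal (J_base (E := E) (N := N) hm).ne]
    apply ENNReal.ofReal_le_ofReal
    rw [← hJ0]; linarith
  | succ K ih =>
    intro η hη
    obtain ⟨Ω, A, r, f, φ, hA, hAK, hJ⟩ := ih (η / 2) (by positivity)
    obtain ⟨F, A', r', R', f', γ, hG, hA', hJ'⟩ := HG (η / (2 * (|A| + 1))) (by positivity)
    have hR0 : 0 < R' := hG.r_pos.trans hG.r_lt
    have hρ : 0 < r / (2 * R') := by have := hA.r_pos; positivity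
    refine ⟨_, _, _, _, _, hA.step hG hρ ?_, ?_, ?_⟩
    · have h1 := hA.r_pos
      have : r / (2 * R') * R' = r / 2 := by field_simp
      rw [this]; linarith
    · rw [abs_mul, pow_succ]
      have : (0:ℝ) ≤ θ := by linarith
      gcongr
    · refine (J_step hE hA.f_smooth.continuous A hρ).trans ?_
      calc (∫⁻ x, ENNReal.ofReal (ip N x * |f x|)) +
            ENNReal.ofReal |A| * ∫⁻ x, ENNReal.ofReal (ip N x * |f' x|)
          ≤ ENNReal.ofReal (J0 + η / 2) +
            ENNReal.ofReal |A| * ENNReal.ofReal (η / (2 * (|A| + 1))) := by gcongr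
        _ = ENNReal.ofReal (J0 + η / 2 + |A| * (η / (2 * (|A| + 1)))) := by
            have : 0 ≤ J0 := ENNReal.toReal_nonneg
            rw [← ENNReal.ofReal_mul (abs_nonneg _), ← ENNReal.ofReal_add (by positivity)
              (by positivity)]
        _ ≤ ENNReal.ofReal (J0 + η) := by
            apply ENNReal.ofReal_le_ofReal
            have h1 : |A| * (η / (2 * (|A| + 1))) ≤ η / 2 := by
              calc |A| * (η / (2 * (|A| + 1))) ≤ (|A| + 1) * (η / (2 * (|A| + 1))) := by
                    gcongr; linarith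
                _ = η / 2 := by field_simp
            linarith

end Pool.Agent.Lib.MP_9ca4ac_an
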