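import Mathlib
import Pool.Agent.Lib.MP_9ca4ac_an.Iter2

open MeasureTheory Metric Set Filter Topology InnerProductSpace Laplacian
open scoped ContDiff ENNReal NNReal

noncomputable section

namespace Pool.Agent.Lib.MP_9ca4ac_an

set_option linter.unusedSectionVars false

variable {E : Type*} [NormedAddCommGroup E] [InnerProductSpace ℝ E] [FiniteDimensional ℝ E]
  [MeasurableSpace E] [BorelSpace E]

lemma integral_mul_laplacian_parts {u v : E → ℝ} (hu : ContDiff ℝ ∞ u) (hv : ContDiff ℝ ∞ v)
    (hcu : HasCompactSupport u) (hcv : HasCompactSupport v) :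
    ∫ x, u x * Δ v x = ∫ x, Δ u x * v x := by
  have h := SchwartzMap.integral_mul_laplacian_right_eq_left (μ := (volume : Measure E))
    (hcu.toSchwartzMap hu) (hcv.toSchwartzMap hv)
  simp only [SchwartzMap.laplacian_apply] at h
  exact h

lemma hasCompactSupport_nlap {m : ℕ} {u : E → ℝ} (hcu : HasCompactSupport u) :
    HasCompactSupport (nlap m u) :=
  hcu.mono' ((subset_tsupport _).trans (tsupport_nlap_subset _ _))

lemma integral_mul_nlap_parts (m : ℕ) {u v : E → ℝ} (hu : ContDiff ℝ ∞ u) (hv : ContDiff ℝ ∞ v)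
    (hcu : HasCompactSupport u) (hcv : HasCompactSupport v) :
    ∫ x, u x * nlap m v x = ∫ x, nlap m u x * v x := by
  induction m generalizing u with
  | zero => rfl
  | succ m ih =>
    have h1 : ∫ x, u x * nlap (m + 1) v x = ∫ x, (nlap 1 u) x * nlap m v x := by
      rw [nlap_succ']
      have h2 := integral_mul_laplacian_parts hu (contDiff_nlap_infty (m := m) hv) hcu
        (hasCompactSupport_nlap (m := m) hcv)
      simp only [Pi.neg_apply, mul_neg, nlap_succ, nlap_zero, neg_mul]
      rw [integral_neg, integral_neg, h2]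
    rw [h1, ih (contDiff_nlap_infty hu) (hasCompactSupport_nlap hcu)]
    rfl

end Pool.Agent.Lib.MP_9ca4ac_an
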