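import Mathlib
import Pool.Agent.Lib.MP_9ca4ac_an.Parts
import Pool.Agent.Lib.MP_9ca4ac_an.Defs

open MeasureTheory Metric Set Filter Topology InnerProductSpace Laplacian TopologicalSpace
open scoped ContDiff ENNReal NNReal Distributions

noncomputable section

namespace Pool.Agent.Lib.MP_9ca4ac_an

set_option linter.unusedSectionVars false

section general

variable {E : Type*} [NormedAddCommGroup E] [InnerProductSpace ℝ E] [FiniteDimensional ℝ E]

/-- limit of the approximants -/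
def wlim (φ : ℕ → E → ℝ) (x : E) : ℝ := limUnder atTop (fun k => φ k x)

lemma wlim_eq {φ : ℕ → E → ℝ} {x : E} {c : ℝ} {k0 : ℕ} (h : ∀ k ≥ k0, φ k x = c) :
    wlim φ x = c := by
  apply Tendsto.limUnder_eq
  apply tendsto_const_nhds.congr'
  filter_upwards [eventually_ge_atTop k0] with k hk
  exact (h k hk).symm

variable {m : ℕ} {Ω : Set E} {A r : ℝ} {f : E → ℝ} {φ : ℕ → E → ℝ}

lemma Adm.loc (hA : Adm m Ω A r f φ) {x : E} (hx : x ∈ Ω) :
    ∃ U ∈ 𝓝 x, ∃ k0, ∀ k ≥ k0, ∀ y ∈ U, φ k y = wlim φ y ∧ nlap m (φ k) y = f y := by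
  obtain ⟨U, hU, k0, hk0⟩ := hA.stab x hx
  refine ⟨U, hU, k0, fun k hk y hy => ⟨?_, (hk0 k hk y hy).2⟩⟩
  rw [(hk0 k hk y hy).1]
  exact (wlim_eq (k0 := k0) fun l hl => (hk0 l hl y hy).1).symm

lemma Adm.loc_compact (hA : Adm m Ω A r f φ) {K : Set E} (hK : IsCompact K) (hKΩ : K ⊆ Ω) :
    ∃ k0, ∀ k ≥ k0, ∀ y ∈ K, φ k y = wlim φ y ∧ nlap m (φ k) y = f y := by
  apply hK.induction_on (p := fun s => ∃ k0, ∀ k ≥ k0, ∀ y ∈ s,
    φ k y = wlim φ y ∧ nlap m (φ k) y = f y)
  · exact ⟨0, by simp⟩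
  · rintro s t hst ⟨k0, hk0⟩
    exact ⟨k0, fun k hk y hy => hk0 k hk y (hst hy)⟩
  · rintro s t ⟨k0, hk0⟩ ⟨k1, hk1⟩
    refine ⟨max k0 k1, fun k hk y hy => ?_⟩
    rcases hy with hy | hy
    · exact hk0 k (le_trans (le_max_left _ _) hk) y hy
    · exact hk1 k (le_trans (le_max_right _ _) hk) y hy
  · intro x hx
    obtain ⟨U, hU, k0, hk0⟩ := hA.loc (hKΩ hx)
    exact ⟨U, mem_nhdsWithin_of_mem_nhds hU, k0, hk0⟩

lemma Adm.wlim_inner (hA : Adm m Ω A r f φ) {x : E} (hx : ‖x‖ < r) : wlim φ x = A :=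
  wlim_eq (k0 := 0) fun k _ => hA.inner k x hx

end general

variable {n m : ℕ} {Ω : Set (EuclideanSpace ℝ (Fin n))} {A r : ℝ}
  {f : EuclideanSpace ℝ (Fin n) → ℝ} {φ : ℕ → EuclideanSpace ℝ (Fin n) → ℝ}

/-- the domain as a bundled open set -/
def Adm.dom (hA : Adm m Ω A r f φ) : Opens (EuclideanSpace ℝ (Fin n)) := ⟨Ω, hA.opn⟩

@[simp] lemma Adm.coe_dom (hA : Adm m Ω A r f φ) :
    (hA.dom : Set (EuclideanSpace ℝ (Fin n))) = Ω := rfl

/-- the approximants as test functions -/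
def Adm.tf (hA : Adm m Ω A r f φ) (k : ℕ) : 𝓓(hA.dom, ℝ) where
  toFun := φ k
  contDiff' := hA.smooth k
  hasCompactSupport' := hA.cpt k
  tsupport_subset' := hA.supp k

/-- the right-hand side as a test function -/
def Adm.rhs (hA : Adm m Ω A r f φ) : 𝓓(hA.dom, ℝ) where
  toFun := f
  contDiff' := hA.f_smooth
  hasCompactSupport' := hA.f_cpt
  tsupport_subset' := hA.f_supp

@[simp] lemma Adm.coe_tf (hA : Adm m Ω A r f φ) (k : ℕ) :
    (hA.tf k : EuclideanSpace ℝ (Fin n) → ℝ) = φ k := rfl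

@[simp] lemma Adm.coe_rhs (hA : Adm m Ω A r f φ) :
    (hA.rhs : EuclideanSpace ℝ (Fin n) → ℝ) = f := rfl

lemma Adm.memW (hA : Adm m Ω A r f φ) : MemW m hA.dom (wlim φ) := by
  have hfin : volume Ω < ⊤ := hA.bdd_dom.measure_lt_top
  have hΩm : MeasurableSet Ω := hA.opn.measurableSet
  refine ⟨?_, hA.tf, ?_, ?_⟩
  · rw [Adm.coe_dom]
    apply aestronglyMeasurable_of_tendsto_ae (u := atTop) (f := fun k => φ k)
    · intro k
      exact (hA.smooth k).continuous.aestronglyMeasurable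
    · filter_upwards [ae_restrict_mem hΩm] with x hx
      obtain ⟨U, hU, k0, hk0⟩ := hA.loc hx
      apply tendsto_const_nhds.congr'
      filter_upwards [eventually_ge_atTop k0] with k hk
      exact (hk0 k hk x (mem_of_mem_nhds hU)).1.symm
  · rw [Adm.coe_dom]
    obtain ⟨M, hM⟩ := hA.bdd
    have hM0 : 0 ≤ M := (norm_nonneg _).trans (hM 0 0)
    have hsub : ∀ j k x, iteratedFDeriv ℝ m (fun y => φ j y - φ k y) x =
        iteratedFDeriv ℝ m (φ j) x - iteratedFDeriv ℝ m (φ k) x := by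
      intro j k x
      have := iteratedFDeriv_sub_apply (𝕜 := ℝ) (i := m) (x := x) (f := φ j) (g := φ k)
        (contDiffAt_infty.1 (hA.smooth j).contDiffAt _)
        (contDiffAt_infty.1 (hA.smooth k).contDiffAt _)
      exact this
    have h0 : (0 : ℝ≥0∞) = ∫⁻ x in Ω, (0 : ℝ≥0∞) := by simp
    rw [h0]
    apply tendsto_lintegral_filter_of_dominated_convergence
      (bound := fun _ => (ENNReal.ofReal (2 * M)) ^ 2)
    · filter_upwards with p
      have hs : ContDiff ℝ ∞ (fun y => φ p.1 y - φ p.2 y) := (hA.smooth p.1).sub (hA.smooth p.2)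
      have hc : Continuous (iteratedFDeriv ℝ m (fun y => φ p.1 y - φ p.2 y)) :=
        hs.continuous_iteratedFDeriv (by exact_mod_cast le_top)
      exact (hc.enorm.measurable).pow_const 2
    · filter_upwards with p
      filter_upwards with x
      simp only [Adm.coe_tf]
      rw [hsub]
      gcongr
      rw [← ofReal_norm]
      apply ENNReal.ofReal_le_ofReal
      refine (norm_sub_le _ _).trans ?_
      have h1 := hM p.1 x
      have h2 := hM p.2 x
      linarith
    · rw [lintegral_const, Measure.restrict_apply_univ]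
      exact (ENNReal.mul_lt_top (ENNReal.pow_lt_top ENNReal.ofReal_lt_top) hfin).ne
    · filter_upwards [ae_restrict_mem hΩm] with x hx
      obtain ⟨U, hU, k0, hk0⟩ := hA.loc hx
      apply tendsto_const_nhds.congr'
      filter_upwards [eventually_ge_atTop (k0, k0)] with p hp
      have h1 : ∀ k ≥ k0, φ k =ᶠ[𝓝 x] wlim φ := fun k hk => by
        filter_upwards [hU] with y hy
        exact (hk0 k hk y hy).1
      simp only [Adm.coe_tf]
      rw [hsub, ((h1 p.1 hp.1).iteratedFDeriv ℝ m).eq_of_nhds,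
        ((h1 p.2 hp.2).iteratedFDeriv ℝ m).eq_of_nhds, sub_self]
      simp
  · intro K hK hKΩ
    obtain ⟨k0, hk0⟩ := hA.loc_compact hK hKΩ
    apply tendsto_const_nhds.congr'
    filter_upwards [eventually_ge_atTop k0] with k hk
    symm
    rw [← lintegral_zero (μ := volume.restrict K)]
    apply setLIntegral_congr_fun hK.measurableSet
    intro x hx
    simp [(hk0 k hk x hx).1]

theorem Adm.isSol (hA : Adm m Ω A r f φ) : IsSol m hA.dom f (wlim φ) := by
  refine ⟨hA.memW, fun ψ => ?_⟩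
  rw [Adm.coe_dom]
  have hψ := ψ.contDiff
  have hψc := ψ.hasCompactSupport
  have hψs : tsupport ψ ⊆ Ω := ψ.tsupport_subset
  obtain ⟨k0, hk0⟩ := hA.loc_compact hψc hψs
  have hk := hk0 k0 le_rfl
  have hout : ∀ x, x ∉ tsupport ψ → nlap m ψ x = 0 ∧ ψ x = 0 := by
    intro x hx
    constructor
    · by_contra hcon
      exact hx (tsupport_nlap_subset _ _ (subset_tsupport _ hcon))
    · exact image_eq_zero_of_notMem_tsupport hx
  have e1 : ∀ x, wlim φ x * nlap m ψ x = φ k0 x * nlap m ψ x := by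
    intro x
    by_cases hx : x ∈ tsupport ψ
    · rw [(hk x hx).1]
    · rw [(hout x hx).1]; simp
  have e2 : ∀ x, nlap m (φ k0) x * ψ x = f x * ψ x := by
    intro x
    by_cases hx : x ∈ tsupport ψ
    · rw [(hk x hx).2]
    · rw [(hout x hx).2]; simp
  simp_rw [e1]
  rw [setIntegral_eq_integral_of_forall_compl_eq_zero, setIntegral_eq_integral_of_forall_compl_eq_zero,
    integral_mul_nlap_parts m (hA.smooth k0) hψ (hA.cpt k0) hψc]
  · simp_rw [e2]
  · intro x hx
    rw [(hout x (fun h => hx (hψs h))).2, mul_zero]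
  · intro x hx
    rw [(hout x (fun h => hx (hψs h))).1, mul_zero]

end Pool.Agent.Lib.MP_9ca4ac_an
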