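import Mathlib
import Pool.Agent.Lib.MP_9ca4ac_an.Sol
import Pool.Agent.Lib.MP_9ca4ac_an.Gadget6

open MeasureTheory Metric Set Filter Topology InnerProductSpace Laplacian TopologicalSpace
open scoped ContDiff ENNReal NNReal Distributions

noncomputable section

namespace Pool.Agent.Lib.MP_9ca4ac_an

set_option linter.unusedSectionVars false

lemma kernel_bound {n m N : ℕ} {Ω : Set (EuclideanSpace ℝ (Fin n))} {A r : ℝ}
    {f : EuclideanSpace ℝ (Fin n) → ℝ} {φ : ℕ → EuclideanSpace ℝ (Fin n) → ℝ}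
    (hA : Adm m Ω A r f φ) {J : ℝ}
    (hJ : ∫⁻ x, ENNReal.ofReal (ip N x * |f x|) ≤ ENNReal.ofReal J)
    {x : EuclideanSpace ℝ (Fin n)} (hx : ‖x‖ < r / 2) {c : ℝ} (hc : 0 ≤ c)
    (g : EuclideanSpace ℝ (Fin n) → ℝ) (hg0 : ∀ y, f y = 0 → g y = 0)
    (hg : ∀ y ∈ Ω, x ≠ y → |g y| ≤ c * ip N (x - y) * |f y|) :
    ENNReal.ofReal |∫ y in Ω, g y| ≤ ENNReal.ofReal (c * 2 ^ N * J) := by
  have hΩm : MeasurableSet Ω := hA.opn.measurableSet
  have hr := hA.r_pos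
  calc ENNReal.ofReal |∫ y in Ω, g y| = ‖∫ y in Ω, g y‖ₑ := by
        rw [← ofReal_norm, Real.norm_eq_abs]
    _ ≤ ∫⁻ y in Ω, ‖g y‖ₑ := enorm_integral_le_lintegral_enorm _
    _ ≤ ∫⁻ y in Ω, ENNReal.ofReal (c * 2 ^ N) * ENNReal.ofReal (ip N y * |f y|) := by
        apply lintegral_mono_ae
        filter_upwards [ae_restrict_mem hΩm] with y hy
        rw [← ofReal_norm, Real.norm_eq_abs, ← ENNReal.ofReal_mul (by positivity)]
        apply ENNReal.ofReal_le_ofReal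
        by_cases hf : f y = 0
        · rw [hg0 y hf, hf]; simp
        · have hyr : r ≤ ‖y‖ := by
            by_contra hcon
            exact hf (hA.f_inner y (not_le.1 hcon))
          have hxy : x ≠ y := by
            rintro rfl; linarith
          have hy0 : y ≠ 0 := by
            rintro rfl
            rw [norm_zero] at hyr; linarith
          have h1 : 1 / 2 * ‖y‖ ≤ ‖x - y‖ := by
            have := norm_sub_norm_le y x
            rw [norm_sub_rev] at this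
            linarith
          have h2 := ip_comp N (c := 1 / 2) (by norm_num) hy0 h1
          have h3 : ((1 / 2 : ℝ) ^ N)⁻¹ = 2 ^ N := by
            rw [one_div, inv_pow, inv_inv]
          rw [h3] at h2
          calc |g y| ≤ c * ip N (x - y) * |f y| := hg y hy hxy
            _ ≤ c * (2 ^ N * ip N y) * |f y| := by gcongr
            _ = c * 2 ^ N * (ip N y * |f y|) := by ring
    _ = ENNReal.ofReal (c * 2 ^ N) * ∫⁻ y in Ω, ENNReal.ofReal (ip N y * |f y|) := by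
        rw [lintegral_const_mul' _ _ ENNReal.ofReal_ne_top]
    _ ≤ ENNReal.ofReal (c * 2 ^ N) * ENNReal.ofReal J := by
        gcongr
        exact (setLIntegral_le_lintegral _ _).trans hJ
    _ = ENNReal.ofReal (c * 2 ^ N * J) := by
        rw [← ENNReal.ofReal_mul (by positivity)]

lemma zpow_eq_ip {n m : ℕ} (hn : 2 * m ≤ n) (v : EuclideanSpace ℝ (Fin n)) :
    ‖v‖ ^ (2 * (m : ℤ) - n) = ip (n - 2 * m) v := by
  unfold ip
  have h : (2 * (m : ℤ) - n) = -((n - 2 * m : ℕ) : ℤ) := by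
    push_cast [Nat.cast_sub hn]; ring
  rw [h, zpow_neg, zpow_natCast]

lemma erase_inst {α : Type*} (i1 i2 : DecidableEq α) (s : Finset α) (a : α) :
    @Finset.erase α i1 s a = @Finset.erase α i2 s a := by
  rw [Subsingleton.elim i1 i2]

open scoped Classical in
theorem final_of {m n : ℕ} (hm : 3 ≤ m) (hn : 2 * m + 3 ≤ n)
    (HD : ∃ κ β C1 : ℝ, 0 < κ ∧ 0 < β ∧ 0 < C1 ∧ ∀ d0 : ℝ, 0 < d0 → ∃ d : ℝ, 0 < d ∧ d < d0 ∧
      ∃ X : Finset (EuclideanSpace ℝ (Fin n)),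
        (∀ x ∈ X, 1 ≤ ‖x‖ ∧ ‖x‖ ≤ 2) ∧
        (∀ x ∈ X, ∀ y ∈ X, x ≠ y → d ≤ ‖x - y‖) ∧
        (∀ x ∈ X, ∑ y ∈ X.erase x, κ * d ^ n * (‖x - y‖ ^ (n - 2 * m))⁻¹ ≤ 1 - β) ∧
        (2 + β ≤ ∑ x ∈ X, κ * d ^ n * (‖x‖ ^ (n - 2 * m))⁻¹) ∧
        (∀ x ∈ X, ∑ y ∈ X.erase x, κ * d ^ n * (‖x - y‖ ^ (n - 2 * m + 1))⁻¹ ≤ C1) ∧
        κ * d ^ n * (X.card : ℝ) ≤ C1)
    (HU : ∀ (Ω : Opens (EuclideanSpace ℝ (Fin n)))
      (_ : Bornology.IsBounded (Ω : Set (EuclideanSpace ℝ (Fin n))))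
      (u v : EuclideanSpace ℝ (Fin n) → ℝ) (_ : MemW m Ω u) (_ : MemW m Ω v)
      (_ : ∀ ψ : 𝓓(Ω, ℝ), ∫ x in (Ω : Set (EuclideanSpace ℝ (Fin n))), u x * nlap m ψ x =
        ∫ x in (Ω : Set (EuclideanSpace ℝ (Fin n))), v x * nlap m ψ x),
      u =ᵐ[volume.restrict (Ω : Set (EuclideanSpace ℝ (Fin n)))] v)
    (C : ℝ) :
    ∃ Ω : Opens (EuclideanSpace ℝ (Fin n)),
      Bornology.IsBounded (Ω : Set (EuclideanSpace ℝ (Fin n))) ∧
      (∀ G : EuclideanSpace ℝ (Fin n) → EuclideanSpace ℝ (Fin n) → ℝ, IsGreen m Ω G →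
        ∃ x ∈ Ω, ∃ y ∈ Ω, x ≠ y ∧ C * ‖x - y‖ ^ (2 * (m : ℤ) - n) < |G x y|) ∧
      (∃ (f : 𝓓(Ω, ℝ)) (u : EuclideanSpace ℝ (Fin n) → ℝ) (x₀ : EuclideanSpace ℝ (Fin n)) (r : ℝ),
        IsSol m Ω f u ∧
        (∀ v, IsSol m Ω f v →
          v =ᵐ[volume.restrict (Ω : Set (EuclideanSpace ℝ (Fin n)))] u) ∧
        0 < r ∧ ball x₀ r ⊆ (Ω : Set (EuclideanSpace ℝ (Fin n))) ∧
        ∀ x ∈ ball x₀ r, C * ∫ y in (Ω : Set (EuclideanSpace ℝ (Fin n))),
          ‖x - y‖ ^ (2 * (m : ℤ) - n) * |f y| < |u x|) := by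
  obtain ⟨N, rfl⟩ : ∃ N, n = N + 2 * m := ⟨n - 2 * m, by omega⟩
  have hNm : N + 2 * m - 2 * m = N := by omega
  simp only [hNm] at HD
  have hN : 1 ≤ N := by omega
  have hm1 : 1 ≤ m := by omega
  have hE : Module.finrank ℝ (EuclideanSpace ℝ (Fin (N + 2 * m))) = N + 2 * m := by simp
  obtain ⟨θ, hθ, HG⟩ := exists_gadgets (E := EuclideanSpace ℝ (Fin (N + 2 * m))) hN hm1 hE (by
    obtain ⟨κ, β, C1, g1, g2, g3, g4⟩ := HD
    refine ⟨κ, β, C1, g1, g2, g3, fun d0 hd0 => ?_⟩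
    obtain ⟨d, k1, k2, X, k3, k4, k5, k6, k7, k8⟩ := g4 d0 hd0
    refine ⟨d, k1, k2, X, k3, k4, fun x hx => ?_, k6, fun x hx => ?_, k8⟩
    · have h := k5 x hx
      rw [erase_inst _ (fun a b => Classical.propDecidable (a = b))] at h
      exact h
    · have h := k7 x hx
      rw [erase_inst _ (fun a b => Classical.propDecidable (a = b))] at h
      exact h)
  obtain ⟨J0, hJ0, HK⟩ := exists_adm (E := EuclideanSpace ℝ (Fin (N + 2 * m))) hm1 hE hθ HG
  set Cp : ℝ := max C 0 with hCp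
  have hCp0 : 0 ≤ Cp := le_max_right _ _
  have hCCp : C ≤ Cp := le_max_left _ _
  obtain ⟨K, hK⟩ := pow_unbounded_of_one_lt (Cp * 2 ^ N * (J0 + 1)) hθ
  obtain ⟨Ω, A, r, f, φ, hA, hAK, hJ⟩ := HK K 1 one_pos
  have hA1 : Cp * 2 ^ N * (J0 + 1) < |A| := hK.trans_le hAK
  have hr := hA.r_pos
  have huniq : ∀ v, IsSol m hA.dom f v →
      v =ᵐ[volume.restrict (hA.dom : Set (EuclideanSpace ℝ (Fin (N + 2 * m))))] wlim φ := by
    intro v hv
    apply HU hA.dom hA.bdd_dom v (wlim φ) hv.1 hA.memW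
    intro ψ
    rw [hv.2 ψ, hA.isSol.2 ψ]
  refine ⟨hA.dom, hA.bdd_dom, ?_, hA.rhs, wlim φ, 0, r / 2, hA.isSol, huniq, by positivity, ?_, ?_⟩
  · intro G hG
    by_contra hcon
    push Not at hcon
    have hv := huniq _ (hG hA.rhs)
    -- a point where the two solutions agree
    have hball : (ball (0 : EuclideanSpace ℝ (Fin (N + 2 * m))) (r / 2)) ⊆ Ω :=
      (ball_subset_ball (by linarith)).trans hA.ball_sub
    obtain ⟨x, hx1, hx2⟩ : ∃ x ∈ ball (0 : EuclideanSpace ℝ (Fin (N + 2 * m))) (r / 2),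
        (∫ y in (hA.dom : Set (EuclideanSpace ℝ (Fin (N + 2 * m)))), G x y * hA.rhs y) =
          wlim φ x := by
      by_contra hcon2
      push Not at hcon2
      have h1 : volume (ball (0 : EuclideanSpace ℝ (Fin (N + 2 * m))) (r / 2)) = 0 := by
        have h2 : ball (0 : EuclideanSpace ℝ (Fin (N + 2 * m))) (r / 2) ⊆
            {x | ¬ ((∫ y in (hA.dom : Set (EuclideanSpace ℝ (Fin (N + 2 * m)))),
              G x y * hA.rhs y) = wlim φ x)} ∩ Ω := fun x hx => ⟨hcon2 x hx, hball hx⟩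
        have h3 := ae_iff.1 hv
        rw [Measure.restrict_apply' (by exact hA.opn.measurableSet)] at h3
        exact measure_mono_null h2 h3
      exact (measure_ball_pos volume _ (by positivity)).ne' h1
    have hxr : ‖x‖ < r / 2 := by simpa using hx1
    rw [hA.wlim_inner (by linarith)] at hx2
    have hb := kernel_bound (N := N) hA hJ hxr hCp0 (fun y => G x y * f y)
      (fun y hy => by simp [hy]) ?_
    · have e1 : ∫ y in Ω, G x y * f y = A := hx2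
      rw [e1] at hb
      rw [ENNReal.ofReal_le_ofReal_iff (by positivity)] at hb
      linarith
    · intro y hy hxy
      have h1 := hcon x (hball hx1) y hy hxy
      rw [zpow_eq_ip (by omega), hNm] at h1
      rw [abs_mul]
      have h2 := ip_nonneg N (x - y)
      have h3 : |G x y| ≤ Cp * ip N (x - y) := h1.trans (by gcongr)
      gcongr
  · exact (ball_subset_ball (by linarith)).trans hA.ball_sub
  · intro x hx
    have hxr : ‖x‖ < r / 2 := by simpa using hx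
    rw [hA.wlim_inner (by linarith)]
    have hb := kernel_bound (N := N) hA hJ hxr zero_le_one
      (fun y => ‖x - y‖ ^ (2 * (m : ℤ) - (N + 2 * m : ℕ)) * |f y|)
      (fun y hy => by simp [hy]) ?_
    · rw [ENNReal.ofReal_le_ofReal_iff (by positivity)] at hb
      have h1 : (∫ y in Ω, ‖x - y‖ ^ (2 * (m : ℤ) - (N + 2 * m : ℕ)) * |f y|) ≤
          1 * 2 ^ N * (J0 + 1) := (le_abs_self _).trans hb
      have h0 : 0 ≤ ∫ y in Ω, ‖x - y‖ ^ (2 * (m : ℤ) - (N + 2 * m : ℕ)) * |f y| :=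
        integral_nonneg fun y => by positivity
      calc C * ∫ y in Ω, ‖x - y‖ ^ (2 * (m : ℤ) - (N + 2 * m : ℕ)) * |f y|
          ≤ Cp * (1 * 2 ^ N * (J0 + 1)) := by
            gcongr
        _ = Cp * 2 ^ N * (J0 + 1) := by ring
        _ < |A| := hA1
    · intro y _ _
      rw [zpow_eq_ip (by omega), hNm, abs_mul, abs_abs, abs_of_nonneg (ip_nonneg _ _), one_mul]

end Pool.Agent.Lib.MP_9ca4ac_an
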