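import Mathlib

set_option autoImplicit false

open MeasureTheory

namespace Pool.Agent.Lib.MP_9ca4ac_an

/-- lattice point `d z` -/
noncomputable def dpt {n : ℕ} (d : ℝ) (z : Fin n → ℤ) : EuclideanSpace ℝ (Fin n) :=
  WithLp.toLp 2 (fun i => d * z i)

/-- lattice cube `d (z + [0,1)^n)` -/
def dcube {n : ℕ} (d : ℝ) (z : Fin n → ℤ) : Set (EuclideanSpace ℝ (Fin n)) :=
  {y | ∀ i, d * z i ≤ y i ∧ y i < d * z i + d}

theorem dpt_apply {n : ℕ} (d : ℝ) (z : Fin n → ℤ) (i : Fin n) : dpt d z i = d * z i := rfl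

theorem dcube_eq {n : ℕ} (d : ℝ) (z : Fin n → ℤ) :
    dcube d z = (WithLp.ofLp (p := 2) (V := Fin n → ℝ)) ⁻¹'
      (Set.pi Set.univ fun i => Set.Ico (d * z i) (d * z i + d)) := by
  ext y
  simp [dcube]

theorem dcube_meas {n : ℕ} (d : ℝ) (z : Fin n → ℤ) : MeasurableSet (dcube d z) := by
  rw [dcube_eq]
  exact (PiLp.volume_preserving_ofLp (Fin n)).measurable
    (MeasurableSet.univ_pi fun i => measurableSet_Ico)

theorem dcube_vol {n : ℕ} {d : ℝ} (hd : 0 < d) (z : Fin n → ℤ) :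
    volume (dcube d z) = ENNReal.ofReal (d ^ n) := by
  rw [dcube_eq, (PiLp.volume_preserving_ofLp (Fin n)).measure_preimage
    (MeasurableSet.univ_pi fun i => measurableSet_Ico).nullMeasurableSet, Real.volume_pi_Ico]
  simp [ENNReal.ofReal_pow hd.le]

theorem dcube_floor {n : ℕ} {d : ℝ} (hd : 0 < d) {z : Fin n → ℤ} {y : EuclideanSpace ℝ (Fin n)}
    (hy : y ∈ dcube d z) : z = fun i => ⌊y i / d⌋ := by
  funext i
  symm
  rw [Int.floor_eq_iff]
  obtain ⟨h1, h2⟩ := hy i
  constructor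
  · rw [le_div_iff₀ hd]; linarith
  · rw [div_lt_iff₀ hd]; linarith

theorem mem_dcube_floor {n : ℕ} {d : ℝ} (hd : 0 < d) (y : EuclideanSpace ℝ (Fin n)) :
    y ∈ dcube d (fun i => ⌊y i / d⌋) := by
  intro i
  have h1 := Int.floor_le (y i / d)
  have h2 := Int.lt_floor_add_one (y i / d)
  rw [le_div_iff₀ hd] at h1
  rw [div_lt_iff₀ hd] at h2
  constructor <;> linarith

theorem dcube_disj {n : ℕ} {d : ℝ} (hd : 0 < d) {z z' : Fin n → ℤ} (h : z ≠ z') :
    Disjoint (dcube d z) (dcube d z') := by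
  rw [Set.disjoint_left]
  intro y hy hy'
  exact h ((dcube_floor hd hy).trans (dcube_floor hd hy').symm)

theorem dpt_mem {n : ℕ} {d : ℝ} (hd : 0 < d) (z : Fin n → ℤ) : dpt d z ∈ dcube d z := by
  intro i
  rw [dpt_apply]
  constructor <;> linarith

theorem norm_le_of_coord {n : ℕ} {d : ℝ} (hd : 0 ≤ d) (v : EuclideanSpace ℝ (Fin n))
    (h : ∀ i, |v i| ≤ d) : ‖v‖ ≤ n * d := by
  have h1 : ‖v‖ ^ 2 ≤ (n * d) ^ 2 := by
    rw [EuclideanSpace.real_norm_sq_eq]
    calc ∑ i, (v i) ^ 2 ≤ ∑ _i : Fin n, d ^ 2 :=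
          Finset.sum_le_sum fun i _ => by
            rw [← sq_abs]; exact pow_le_pow_left₀ (abs_nonneg _) (h i) 2
      _ = n * d ^ 2 := by simp
      _ ≤ (n * d) ^ 2 := by
        rw [mul_pow]
        apply mul_le_mul_of_nonneg_right _ (sq_nonneg d)
        rcases Nat.eq_zero_or_pos n with h0 | h0
        · simp [h0]
        · have : (1 : ℝ) ≤ n := by exact_mod_cast h0
          nlinarith
  exact le_of_sq_le_sq h1 (by positivity)

theorem dcube_dist {n : ℕ} {d : ℝ} (hd : 0 < d) {z : Fin n → ℤ} {y y' : EuclideanSpace ℝ (Fin n)}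
    (hy : y ∈ dcube d z) (hy' : y' ∈ dcube d z) : ‖y - y'‖ ≤ n * d := by
  apply norm_le_of_coord hd.le
  intro i
  obtain ⟨h1, h2⟩ := hy i
  obtain ⟨h3, h4⟩ := hy' i
  rw [PiLp.sub_apply, abs_le]
  constructor <;> linarith

theorem dpt_far {n : ℕ} {d : ℝ} (hd : 0 < d) {z z' : Fin n → ℤ} {k : ℕ} (i : Fin n)
    (h : (k : ℤ) ≤ |z i - z' i|) : d * k ≤ ‖dpt d z - dpt d z'‖ := by
  have h1 : ‖(dpt d z - dpt d z') i‖ ≤ ‖dpt d z - dpt d z'‖ := PiLp.norm_apply_le _ i
  rw [PiLp.sub_apply, dpt_apply, dpt_apply, ← mul_sub, norm_mul, Real.norm_eq_abs,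
    Real.norm_eq_abs, abs_of_pos hd] at h1
  refine le_trans ?_ h1
  apply mul_le_mul_of_nonneg_left _ hd.le
  have h2 : ((k : ℤ) : ℝ) ≤ ((|z i - z' i| : ℤ) : ℝ) := by exact_mod_cast h
  simpa using h2

theorem dpt_sep {n : ℕ} {d : ℝ} (hd : 0 < d) {z z' : Fin n → ℤ} (h : z ≠ z') :
    d ≤ ‖dpt d z - dpt d z'‖ := by
  obtain ⟨i, hi⟩ := Function.ne_iff.1 h
  have := dpt_far (k := 1) hd i (z := z) (z' := z') (by
    have : z i - z' i ≠ 0 := sub_ne_zero.2 hi
    have := Int.one_le_abs this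
    simpa using this)
  simpa using this

theorem dpt_inj {n : ℕ} {d : ℝ} (hd : 0 < d) : Function.Injective (dpt (n := n) d) := by
  intro z z' h
  by_contra hne
  have := dpt_sep hd hne
  rw [h, sub_self, norm_zero] at this
  linarith

/-- number of near lattice points -/
theorem near_card {n : ℕ} (Z : Finset (Fin n → ℤ)) (z : Fin n → ℤ) (M : ℕ) :
    (Z.filter (fun z' => ∀ i, |z i - z' i| ≤ (M : ℤ))).card ≤ (2 * M + 1) ^ n := by
  classical
  calc (Z.filter (fun z' => ∀ i, |z i - z' i| ≤ (M : ℤ))).card ≤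
      (Fintype.piFinset fun i => Finset.Icc (z i - M) (z i + M)).card := by
        apply Finset.card_le_card
        intro w hw
        rw [Finset.mem_filter] at hw
        rw [Fintype.mem_piFinset]
        intro i
        have := hw.2 i
        rw [abs_le] at this
        rw [Finset.mem_Icc]
        constructor <;> linarith
    _ = (2 * M + 1) ^ n := by
        rw [Fintype.card_piFinset]
        have : ∀ i : Fin n, (Finset.Icc (z i - (M : ℤ)) (z i + M)).card = 2 * M + 1 := by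
          intro i
          rw [Int.card_Icc]
          omega
        simp [this]

/-- **Main comparison** of a lattice sum with an integral. -/
theorem lattice_sum_le {n : ℕ} {d : ℝ} (hd : 0 < d) {M : ℕ} (hM : 1 ≤ M) (p : ℕ)
    (A : Set (EuclideanSpace ℝ (Fin n))) (Z : Finset (Fin n → ℤ))
    (hZ : ∀ z ∈ Z, dcube d z ⊆ A) (z : Fin n → ℤ) (I : ℝ)
    (hI0 : 0 ≤ I)
    (hI : ∫⁻ y in A, ENNReal.ofReal ((‖dpt d z - y‖ ^ p)⁻¹) ≤ ENNReal.ofReal I) :
    ∑ z' ∈ Z.erase z, d ^ n * (‖dpt d z - dpt d z'‖ ^ p)⁻¹ ≤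
      (1 + n / M) ^ p * I + (2 * M + 1) ^ n * (d ^ n * (d ^ p)⁻¹) := by
  classical
  have hMr : (0 : ℝ) < M := by exact_mod_cast hM
  rw [← Finset.sum_filter_add_sum_filter_not (Z.erase z) (fun z' => ∀ i, |z i - z' i| ≤ (M : ℤ)),
    add_comm]
  apply add_le_add
  · -- far part
    set F := (Z.erase z).filter (fun z' => ¬ ∀ i, |z i - z' i| ≤ (M : ℤ)) with hF
    have hFZ : F ⊆ Z := (Finset.filter_subset _ _).trans (Finset.erase_subset _ _)
    have hterm : ∀ z' ∈ F, ENNReal.ofReal (d ^ n * (‖dpt d z - dpt d z'‖ ^ p)⁻¹) ≤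
        ∫⁻ y in dcube d z', ENNReal.ofReal ((1 + n / M) ^ p) *
          ENNReal.ofReal ((‖dpt d z - y‖ ^ p)⁻¹) := by
      intro z' hz'
      rw [hF, Finset.mem_filter] at hz'
      obtain ⟨hz1, hz2⟩ := hz'
      push Not at hz2
      obtain ⟨i, hi⟩ := hz2
      have hfar : d * M ≤ ‖dpt d z - dpt d z'‖ := dpt_far hd i hi.le
      have hpos : 0 < ‖dpt d z - dpt d z'‖ := lt_of_lt_of_le (by positivity) hfar
      have hne : (z : Fin n → ℤ) ≠ z' := by
        rintro rfl
        simp at hpos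
      calc ENNReal.ofReal (d ^ n * (‖dpt d z - dpt d z'‖ ^ p)⁻¹)
          = ENNReal.ofReal ((‖dpt d z - dpt d z'‖ ^ p)⁻¹) * volume (dcube d z') := by
            rw [dcube_vol hd, ← ENNReal.ofReal_mul (by positivity), mul_comm]
        _ = ∫⁻ _ in dcube d z', ENNReal.ofReal ((‖dpt d z - dpt d z'‖ ^ p)⁻¹) := by
            rw [setLIntegral_const]
        _ ≤ _ := by
            apply setLIntegral_mono' (dcube_meas d z')
            intro y hy
            rw [← ENNReal.ofReal_mul (by positivity)]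
            apply ENNReal.ofReal_le_ofReal
            have h1 : ‖dpt d z - y‖ ≤ (1 + n / M) * ‖dpt d z - dpt d z'‖ := by
              have e : dpt d z - y = (dpt d z - dpt d z') + (dpt d z' - y) := by abel
              have h2 : ‖dpt d z' - y‖ ≤ n * d := dcube_dist hd (dpt_mem hd z') hy
              have h3 : n * d ≤ n / M * ‖dpt d z - dpt d z'‖ := by
                have : n * d = n / M * (d * M) := by field_simp
                rw [this]
                exact mul_le_mul_of_nonneg_left hfar (by positivity)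
              calc ‖dpt d z - y‖ ≤ ‖dpt d z - dpt d z'‖ + ‖dpt d z' - y‖ := by
                    rw [e]; exact norm_add_le _ _
                _ ≤ (1 + n / M) * ‖dpt d z - dpt d z'‖ := by linarith
            have h0 : 0 < ‖dpt d z - y‖ := by
              rw [norm_pos_iff, sub_ne_zero]
              rintro rfl
              exact (Set.disjoint_left.1 (dcube_disj hd hne)) (dpt_mem hd z) hy
            rw [← div_eq_mul_inv, le_div_iff₀ (by positivity), inv_mul_le_iff₀ (by positivity),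
              mul_comm, ← mul_pow]
            exact pow_le_pow_left₀ h0.le h1 p
    have hsum : ENNReal.ofReal (∑ z' ∈ F, d ^ n * (‖dpt d z - dpt d z'‖ ^ p)⁻¹) ≤
        ENNReal.ofReal ((1 + n / M) ^ p * I) := by
      rw [ENNReal.ofReal_sum_of_nonneg (fun _ _ => by positivity)]
      calc ∑ z' ∈ F, ENNReal.ofReal (d ^ n * (‖dpt d z - dpt d z'‖ ^ p)⁻¹)
          ≤ ∑ z' ∈ F, ∫⁻ y in dcube d z', ENNReal.ofReal ((1 + n / M) ^ p) *
            ENNReal.ofReal ((‖dpt d z - y‖ ^ p)⁻¹) := Finset.sum_le_sum hterm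
        _ = ∫⁻ y in ⋃ z' ∈ F, dcube d z', ENNReal.ofReal ((1 + n / M) ^ p) *
            ENNReal.ofReal ((‖dpt d z - y‖ ^ p)⁻¹) := by
            rw [lintegral_biUnion_finset]
            · intro a _ b _ hab
              exact dcube_disj hd hab
            · intro a _
              exact dcube_meas d a
        _ ≤ ∫⁻ y in A, ENNReal.ofReal ((1 + n / M) ^ p) *
            ENNReal.ofReal ((‖dpt d z - y‖ ^ p)⁻¹) := by
            apply lintegral_mono_set
            exact Set.iUnion₂_subset fun z' hz' => hZ z' (hFZ hz')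
        _ = ENNReal.ofReal ((1 + n / M) ^ p) *
            ∫⁻ y in A, ENNReal.ofReal ((‖dpt d z - y‖ ^ p)⁻¹) := by
            rw [lintegral_const_mul' _ _ ENNReal.ofReal_ne_top]
        _ ≤ ENNReal.ofReal ((1 + n / M) ^ p) * ENNReal.ofReal I := by
            gcongr
        _ = ENNReal.ofReal ((1 + n / M) ^ p * I) := by
            rw [ENNReal.ofReal_mul (by positivity)]
    rwa [ENNReal.ofReal_le_ofReal_iff (by positivity)] at hsum
  · -- near part
    calc ∑ z' ∈ (Z.erase z).filter (fun z' => ∀ i, |z i - z' i| ≤ (M : ℤ)),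
          d ^ n * (‖dpt d z - dpt d z'‖ ^ p)⁻¹
        ≤ ∑ _z' ∈ (Z.erase z).filter (fun z' => ∀ i, |z i - z' i| ≤ (M : ℤ)),
          d ^ n * (d ^ p)⁻¹ := by
          apply Finset.sum_le_sum
          intro z' hz'
          rw [Finset.mem_filter, Finset.mem_erase] at hz'
          have h1 := dpt_sep hd (Ne.symm hz'.1.1)
          apply mul_le_mul_of_nonneg_left _ (by positivity)
          apply inv_anti₀ (by positivity)
          exact pow_le_pow_left₀ hd.le h1 p
      _ = ((Z.erase z).filter (fun z' => ∀ i, |z i - z' i| ≤ (M : ℤ))).card *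
          (d ^ n * (d ^ p)⁻¹) := by
          rw [Finset.sum_const, nsmul_eq_mul]
      _ ≤ (2 * M + 1) ^ n * (d ^ n * (d ^ p)⁻¹) := by
          apply mul_le_mul_of_nonneg_right _ (by positivity)
          exact_mod_cast near_card (Z.erase z) z M

/-- the closed shell -/
def dshell (n : ℕ) (a b : ℝ) : Set (EuclideanSpace ℝ (Fin n)) := {y | a ≤ ‖y‖ ∧ ‖y‖ ≤ b}

theorem dshell_meas (n : ℕ) (a b : ℝ) : MeasurableSet (dshell n a b) := by
  have : dshell n a b = (fun y : EuclideanSpace ℝ (Fin n) => ‖y‖) ⁻¹' (Set.Icc a b) := by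
    ext y; simp [dshell]
  rw [this]
  exact continuous_norm.measurable measurableSet_Icc

theorem dshell_lt_top (n : ℕ) (a b : ℝ) : volume (dshell n a b) < ⊤ := by
  apply lt_of_le_of_lt (measure_mono (t := Metric.closedBall 0 b) _) measure_closedBall_lt_top
  intro y hy
  simpa using hy.2

/-- uniform bound for weakly singular integrals -/
theorem sing_bound {n p : ℕ} (hp : p < n) :
    ∃ I : ℝ, 0 ≤ I ∧ ∀ x : EuclideanSpace ℝ (Fin n), ‖x‖ ≤ 2 →
      ∫⁻ y in dshell n 1 2, ENNReal.ofReal ((‖x - y‖ ^ p)⁻¹) ≤ ENNReal.ofReal I := by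
  let f : ℝ → ℝ := fun r => if r ≤ 4 then (r ^ p)⁻¹ else 0
  have : Nonempty (Fin n) := ⟨⟨0, by omega⟩⟩
  have hint : Integrable (fun w : EuclideanSpace ℝ (Fin n) => f ‖w‖) := by
    rw [integrable_fun_norm_addHaar]
    have hdim : Module.finrank ℝ (EuclideanSpace ℝ (Fin n)) = n := by simp
    rw [hdim]
    have h1 : IntegrableOn (fun y : ℝ => y ^ (n - 1) • f y) (Set.Ioc 0 4) := by
      apply IntegrableOn.congr_fun (f := fun y : ℝ => y ^ (n - 1 - p))
      · exact (continuous_pow _).integrableOn_Ioc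
      · intro y hy
        have hy0 : 0 < y := hy.1
        simp only [f, if_pos hy.2, smul_eq_mul]
        rw [← div_eq_mul_inv, eq_div_iff (by positivity), ← pow_add]
        congr 1
        omega
      · exact measurableSet_Ioc
    have h2 : IntegrableOn (fun y : ℝ => y ^ (n - 1) • f y) (Set.Ioi 4) := by
      apply IntegrableOn.congr_fun (f := fun _ : ℝ => (0 : ℝ))
      · exact integrableOn_zero
      · intro y hy
        have : ¬ y ≤ 4 := not_le.2 hy
        simp [f, this]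
      · exact measurableSet_Ioi
    have h3 := h1.union h2
    rwa [Set.Ioc_union_Ioi_eq_Ioi (by norm_num)] at h3
  have hfin : ∫⁻ w : EuclideanSpace ℝ (Fin n), ENNReal.ofReal (f ‖w‖) < ⊤ := hint.lintegral_lt_top
  refine ⟨(∫⁻ w : EuclideanSpace ℝ (Fin n), ENNReal.ofReal (f ‖w‖)).toReal,
    ENNReal.toReal_nonneg, ?_⟩
  intro x hx
  rw [ENNReal.ofReal_toReal hfin.ne]
  calc ∫⁻ y in dshell n 1 2, ENNReal.ofReal ((‖x - y‖ ^ p)⁻¹)
      ≤ ∫⁻ y in dshell n 1 2, ENNReal.ofReal (f ‖x - y‖) := by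
        apply setLIntegral_mono' (dshell_meas n 1 2)
        intro y hy
        have : ‖x - y‖ ≤ 4 := by
          calc ‖x - y‖ ≤ ‖x‖ + ‖y‖ := norm_sub_le _ _
            _ ≤ 2 + 2 := add_le_add hx hy.2
            _ = 4 := by norm_num
        simp [f, this]
    _ ≤ ∫⁻ y, ENNReal.ofReal (f ‖x - y‖) := setLIntegral_le_lintegral _ _
    _ = ∫⁻ w, ENNReal.ofReal (f ‖w‖) :=
        lintegral_sub_left_eq_self (fun w : EuclideanSpace ℝ (Fin n) => ENNReal.ofReal (f ‖w‖)) x

/-- inner shells exhaust the shell -/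
theorem inner_shell {n : ℕ} (hn : 1 ≤ n) {R : ℝ} {c : ℝ}
    (hc : ENNReal.ofReal c < volume (dshell n 1 R)) :
    ∃ d1 : ℝ, 0 < d1 ∧ ∀ d : ℝ, d ≤ d1 →
      ENNReal.ofReal c ≤ volume (dshell n (1 + n * d) (R - n * d)) := by
  have : Nonempty (Fin n) := ⟨⟨0, by omega⟩⟩
  have hnr : (1 : ℝ) ≤ n := by exact_mod_cast hn
  let s : ℕ → Set (EuclideanSpace ℝ (Fin n)) := fun k =>
    dshell n (1 + n * (1 / ((k : ℝ) + 1))) (R - n * (1 / ((k : ℝ) + 1)))
  have hmono : Monotone s := by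
    intro a b hab y hy
    have h1 : 1 / ((b : ℝ) + 1) ≤ 1 / ((a : ℝ) + 1) := by
      apply one_div_le_one_div_of_le (by positivity)
      have : (a : ℝ) ≤ b := by exact_mod_cast hab
      linarith
    have h2 : (n : ℝ) * (1 / ((b : ℝ) + 1)) ≤ n * (1 / ((a : ℝ) + 1)) :=
      mul_le_mul_of_nonneg_left h1 (by positivity)
    exact ⟨by linarith [hy.1], by linarith [hy.2]⟩
  have hlim := tendsto_measure_iUnion_atTop (μ := volume) hmono
  have hU : volume (dshell n 1 R) ≤ volume (⋃ k, s k) := by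
    have hsub : dshell n 1 R ⊆ (⋃ k, s k) ∪ (Metric.sphere 0 1 ∪ Metric.sphere 0 R) := by
      intro y hy
      rcases eq_or_lt_of_le hy.1 with h1 | h1
      · right; left; simp [← h1]
      · rcases eq_or_lt_of_le hy.2 with h2 | h2
        · right; right; simp [h2]
        · left
          rw [Set.mem_iUnion]
          obtain ⟨k, hk⟩ := exists_nat_one_div_lt
            (show 0 < min (‖y‖ - 1) (R - ‖y‖) / n from
              div_pos (lt_min (by linarith) (by linarith)) (by linarith))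
          refine ⟨k, ?_⟩
          rw [lt_div_iff₀ (by linarith)] at hk
          have h3 := hk.trans_le (min_le_left _ _)
          have h4 := hk.trans_le (min_le_right _ _)
          constructor <;> linarith
    calc volume (dshell n 1 R) ≤ volume ((⋃ k, s k) ∪ (Metric.sphere 0 1 ∪ Metric.sphere 0 R)) :=
          measure_mono hsub
      _ ≤ volume (⋃ k, s k) + volume (Metric.sphere (0 : EuclideanSpace ℝ (Fin n)) 1 ∪
            Metric.sphere 0 R) := measure_union_le _ _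
      _ ≤ volume (⋃ k, s k) + (volume (Metric.sphere (0 : EuclideanSpace ℝ (Fin n)) 1) +
            volume (Metric.sphere (0 : EuclideanSpace ℝ (Fin n)) R)) := by
          gcongr
          exact measure_union_le _ _
      _ = volume (⋃ k, s k) := by
          rw [Measure.addHaar_sphere, Measure.addHaar_sphere]
          simp
  have hev := hlim.eventually (lt_mem_nhds (hc.trans_le hU))
  obtain ⟨k, hk⟩ := hev.exists
  refine ⟨1 / ((k : ℝ) + 1), by positivity, ?_⟩
  intro d hd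
  refine hk.le.trans (measure_mono ?_)
  intro y hy
  have : (n : ℝ) * d ≤ n * (1 / ((k : ℝ) + 1)) := mul_le_mul_of_nonneg_left hd (by positivity)
  exact ⟨by linarith [hy.1], by linarith [hy.2]⟩

/-- the lattice points whose cube is inside the shell -/
theorem exists_lattice {n : ℕ} {d R : ℝ} (hd : 0 < d) :
    ∃ Z : Finset (Fin n → ℤ), (∀ z ∈ Z, dcube d z ⊆ dshell n 1 R) ∧
      volume (dshell n (1 + n * d) (R - n * d)) ≤ ENNReal.ofReal (d ^ n * Z.card) ∧
      ENNReal.ofReal (d ^ n * Z.card) ≤ volume (dshell n 1 R) := by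
  classical
  let Z : Finset (Fin n → ℤ) :=
    (Fintype.piFinset fun _ => Finset.Icc (-⌈R / d⌉) ⌈R / d⌉).filter
      (fun z => dcube d z ⊆ dshell n 1 R)
  have hvol : volume (⋃ z ∈ Z, dcube d z) = ENNReal.ofReal (d ^ n * Z.card) := by
    rw [measure_biUnion_finset]
    · simp only [dcube_vol hd, Finset.sum_const, nsmul_eq_mul]
      rw [ENNReal.ofReal_mul (by positivity), ENNReal.ofReal_natCast, mul_comm]
    · intro a _ b _ hab
      exact dcube_disj hd hab
    · intro a _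
      exact dcube_meas d a
  have hmem : ∀ z, z ∈ Z ↔ dcube d z ⊆ dshell n 1 R := by
    intro z
    simp only [Z, Finset.mem_filter, Fintype.mem_piFinset, Finset.mem_Icc, and_iff_right_iff_imp]
    intro h i
    have h1 := (h (dpt_mem hd z)).2
    have h2 : |d * (z i : ℝ)| ≤ R := by
      have := (PiLp.norm_apply_le (dpt d z) i).trans h1
      rwa [dpt_apply, Real.norm_eq_abs] at this
    rw [abs_mul, abs_of_pos hd, mul_comm, ← le_div_iff₀ hd] at h2
    have h3 := h2.trans (Int.le_ceil (R / d))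
    have h4 : |z i| ≤ ⌈R / d⌉ := by exact_mod_cast h3
    exact abs_le.1 h4
  refine ⟨Z, fun z hz => (hmem z).1 hz, ?_, ?_⟩
  · rw [← hvol]
    apply measure_mono
    intro y hy
    rw [Set.mem_iUnion₂]
    refine ⟨fun i => ⌊y i / d⌋, ?_, mem_dcube_floor hd y⟩
    rw [hmem]
    intro y' hy'
    have h1 := dcube_dist hd (mem_dcube_floor hd y) hy'
    have h2 := abs_le.1 ((abs_norm_sub_norm_le y y').trans h1)
    exact ⟨by linarith [hy.1], by linarith [hy.2]⟩
  · rw [← hvol]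
    apply measure_mono
    exact Set.iUnion₂_subset fun z hz => (hmem z).1 hz

open scoped Classical in
theorem exists_discrete {m n : ℕ} (hm : 3 ≤ m) (hn : 2 * m + 3 ≤ n) {g1 : ℝ} (hg0 : 0 < g1)
    (hg1 : g1 < 1 / 2)
    (H : ∀ R : ℝ, 1 < R → ∀ x : EuclideanSpace ℝ (Fin n), 1 ≤ ‖x‖ →
      ∫⁻ y in {y : EuclideanSpace ℝ (Fin n) | 1 ≤ ‖y‖ ∧ ‖y‖ ≤ R},
          ENNReal.ofReal ((‖x - y‖ ^ (n - 2 * m))⁻¹)
        ≤ ENNReal.ofReal g1 * volume {y : EuclideanSpace ℝ (Fin n) | 1 ≤ ‖y‖ ∧ ‖y‖ ≤ R}) :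
    ∃ κ β C1 : ℝ, 0 < κ ∧ 0 < β ∧ 0 < C1 ∧ ∀ d0 : ℝ, 0 < d0 → ∃ d : ℝ, 0 < d ∧ d < d0 ∧
      ∃ X : Finset (EuclideanSpace ℝ (Fin n)),
        (∀ x ∈ X, 1 ≤ ‖x‖ ∧ ‖x‖ ≤ 2) ∧
        (∀ x ∈ X, ∀ y ∈ X, x ≠ y → d ≤ ‖x - y‖) ∧
        (∀ x ∈ X, ∑ y ∈ X.erase x, κ * d ^ n * (‖x - y‖ ^ (n - 2 * m))⁻¹ ≤ 1 - β) ∧
        (2 + β ≤ ∑ x ∈ X, κ * d ^ n * (‖x‖ ^ (n - 2 * m))⁻¹) ∧
        (∀ x ∈ X, ∑ y ∈ X.erase x, κ * d ^ n * (‖x - y‖ ^ (n - 2 * m + 1))⁻¹ ≤ C1) ∧
        κ * d ^ n * (X.card : ℝ) ≤ C1 := by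
  set N := n - 2 * m with hN
  have hnN : n = N + 2 * m := by omega
  have hn1 : 1 ≤ n := by omega
  set ε := 1 - 2 * g1 with hε
  have hε0 : 0 < ε := by rw [hε]; linarith
  have hε1 : ε < 1 := by rw [hε]; linarith
  set β := ε / 12 with hβ
  have hβ0 : 0 < β := by rw [hβ]; linarith
  set Q := 2 + ε with hQ
  have hQ0 : 0 < Q := by rw [hQ]; linarith
  have hQg : Q * g1 ≤ 1 - 3 * β := by
    have : g1 = (1 - ε) / 2 := by rw [hε]; ring
    rw [this, hQ, hβ]
    nlinarith
  -- choice of R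
  obtain ⟨R, hR1, hR2, hRQ⟩ : ∃ R : ℝ, 1 < R ∧ R ≤ 2 ∧ R ^ N * (2 + 2 * β) ≤ Q := by
    have hcont : Continuous fun r : ℝ => r ^ N * (2 + 2 * β) := by fun_prop
    have h1 : (1 : ℝ) ^ N * (2 + 2 * β) < Q := by
      rw [one_pow, one_mul, hQ, hβ]; linarith
    have hev := hcont.continuousAt.eventually (gt_mem_nhds h1)
    rw [Metric.eventually_nhds_iff] at hev
    obtain ⟨δ, hδ, hball⟩ := hev
    refine ⟨1 + min (δ / 2) 1, by have := lt_min (half_pos hδ) one_pos; linarith,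
      by have := min_le_right (δ / 2) 1; linarith, ?_⟩
    apply le_of_lt
    apply hball
    have h2 : 0 < min (δ / 2) 1 := lt_min (half_pos hδ) one_pos
    have h3 : min (δ / 2) 1 ≤ δ / 2 := min_le_left _ _
    rw [Real.dist_eq, add_sub_cancel_left, abs_of_pos h2]
    linarith
  have hA : {y : EuclideanSpace ℝ (Fin n) | 1 ≤ ‖y‖ ∧ ‖y‖ ≤ R} = dshell n 1 R := rfl
  set V := (volume (dshell n 1 R)).toReal with hV
  have hVtop : volume (dshell n 1 R) ≠ ⊤ := (dshell_lt_top n 1 R).ne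
  have hVof : ENNReal.ofReal V = volume (dshell n 1 R) := ENNReal.ofReal_toReal hVtop
  have : Nonempty (Fin n) := ⟨⟨0, by omega⟩⟩
  have hVpos : 0 < V := by
    rw [hV, ENNReal.toReal_pos_iff]
    refine ⟨?_, dshell_lt_top n 1 R⟩
    obtain ⟨w, hw⟩ : ∃ w : EuclideanSpace ℝ (Fin n), ‖w‖ = (1 + R) / 2 := by
      refine ⟨EuclideanSpace.single ⟨0, by omega⟩ ((1 + R) / 2), ?_⟩
      rw [EuclideanSpace.norm_single, Real.norm_eq_abs, abs_of_pos (by linarith)]
    have hopen : IsOpen {y : EuclideanSpace ℝ (Fin n) | 1 < ‖y‖ ∧ ‖y‖ < R} :=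
      (isOpen_lt continuous_const continuous_norm).inter
        (isOpen_lt continuous_norm continuous_const)
    refine lt_of_lt_of_le (hopen.measure_pos volume ⟨w, ?_⟩) (measure_mono ?_)
    · constructor <;> rw [hw] <;> linarith
    · intro y hy
      exact ⟨hy.1.le, hy.2.le⟩
  set κ := Q / V with hκ
  have hκ0 : 0 < κ := div_pos hQ0 hVpos
  have hκV : κ * V = Q := by rw [hκ]; field_simp
  -- choice of M
  obtain ⟨M, hM1, hM⟩ : ∃ M : ℕ, 1 ≤ M ∧ Q * g1 * (1 + n / M) ^ N ≤ 1 - 2 * β := by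
    have hlim : Filter.Tendsto (fun M : ℕ => Q * g1 * (1 + (n : ℝ) / M) ^ N) Filter.atTop
        (nhds (Q * g1 * (1 + 0) ^ N)) := by
      apply Filter.Tendsto.const_mul
      apply Filter.Tendsto.pow
      apply Filter.Tendsto.const_add
      exact tendsto_const_div_atTop_nhds_zero_nat _
    have h1 : Q * g1 * (1 + 0) ^ N < 1 - 2 * β := by
      rw [add_zero, one_pow, mul_one]; linarith
    have hev := hlim.eventually (gt_mem_nhds h1)
    obtain ⟨M, hM⟩ := (hev.and (Filter.eventually_ge_atTop 1)).exists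
    exact ⟨M, hM.2, hM.1.le⟩
  -- singular integral bound
  obtain ⟨I, hI0, hI⟩ := sing_bound (n := n) (p := N + 1) (by omega)
  -- volume
  have hfrac : V * ((2 + β) / (2 + 2 * β)) < V := by
    have h1 : (2 + β) / (2 + 2 * β) < 1 := by
      rw [div_lt_one (by linarith)]; linarith
    calc V * ((2 + β) / (2 + 2 * β)) < V * 1 := mul_lt_mul_of_pos_left h1 hVpos
      _ = V := mul_one V
  obtain ⟨d1, hd1, hvol⟩ := inner_shell hn1 (c := V * ((2 + β) / (2 + 2 * β))) (by
    rw [← hVof]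
    exact (ENNReal.ofReal_lt_ofReal_iff hVpos).2 hfrac)
  refine ⟨κ, β, κ * ((1 + n) ^ (N + 1) * I + 3 ^ n) + Q, hκ0, hβ0, by positivity, ?_⟩
  intro d0 hd0
  -- choice of d
  obtain ⟨d, hd, hdd0, hdd1, hd11, hdβ⟩ : ∃ d : ℝ, 0 < d ∧ d < d0 ∧ d ≤ d1 ∧ d ≤ 1 ∧
      κ * (2 * M + 1) ^ n * d ≤ β := by
    refine ⟨min (min (d0 / 2) d1) (min 1 (β / (κ * (2 * M + 1) ^ n))), ?_, ?_, ?_, ?_, ?_⟩
    · exact lt_min (lt_min (half_pos hd0) hd1) (lt_min one_pos (by positivity))
    · exact ((min_le_left _ _).trans (min_le_left _ _)).trans_lt (half_lt_self hd0)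
    · exact (min_le_left _ _).trans (min_le_right _ _)
    · exact (min_le_right _ _).trans (min_le_left _ _)
    · calc κ * (2 * M + 1) ^ n * min (min (d0 / 2) d1) (min 1 (β / (κ * (2 * M + 1) ^ n)))
          ≤ κ * (2 * M + 1) ^ n * (β / (κ * (2 * M + 1) ^ n)) := by
            apply mul_le_mul_of_nonneg_left _ (by positivity)
            exact (min_le_right _ _).trans (min_le_right _ _)
        _ = β := by field_simp
  obtain ⟨Z, hZ, hZ1, hZ2⟩ := exists_lattice (n := n) (R := R) hd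
  have hcardV : d ^ n * Z.card ≤ V := by
    rw [← hVof] at hZ2
    exact (ENNReal.ofReal_le_ofReal_iff hVpos.le).1 hZ2
  have hcardL : V * ((2 + β) / (2 + 2 * β)) ≤ d ^ n * Z.card := by
    have h1 := (hvol d hdd1).trans hZ1
    exact (ENNReal.ofReal_le_ofReal_iff (mul_nonneg (pow_nonneg hd.le n) (Nat.cast_nonneg _))).1 h1
  have hshell : ∀ z ∈ Z, 1 ≤ ‖dpt d z‖ ∧ ‖dpt d z‖ ≤ R := fun z hz => hZ z hz (dpt_mem hd z)
  have hdn : ∀ p : ℕ, p ≤ n → d ^ n * (d ^ p)⁻¹ = d ^ (n - p) := by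
    intro p hp
    rw [← div_eq_mul_inv, div_eq_iff (by positivity), ← pow_add]
    congr 1
    omega
  refine ⟨d, hd, hdd0, Z.image (dpt d), ?_, ?_, ?_, ?_, ?_, ?_⟩
  · intro x hx
    rw [Finset.mem_image] at hx
    obtain ⟨z, hz, rfl⟩ := hx
    exact ⟨(hshell z hz).1, (hshell z hz).2.trans hR2⟩
  · intro x hx y hy hxy
    rw [Finset.mem_image] at hx hy
    obtain ⟨z, hz, rfl⟩ := hx
    obtain ⟨z', hz', rfl⟩ := hy
    exact dpt_sep hd (fun h => hxy (by rw [h]))
  · intro x hx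
    rw [Finset.mem_image] at hx
    obtain ⟨z, hz, rfl⟩ := hx
    rw [← Finset.image_erase (dpt_inj hd), Finset.sum_image (fun a _ b _ h => dpt_inj hd h)]
    have h1 := lattice_sum_le hd hM1 N (dshell n 1 R) Z hZ z (g1 * V) (by positivity) (by
      have := H R hR1 (dpt d z) (hshell z hz).1
      rw [hA, ← hVof, ← ENNReal.ofReal_mul hg0.le] at this
      exact this)
    calc ∑ z' ∈ Z.erase z, κ * d ^ n * (‖dpt d z - dpt d z'‖ ^ N)⁻¹
        = κ * ∑ z' ∈ Z.erase z, d ^ n * (‖dpt d z - dpt d z'‖ ^ N)⁻¹ := by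
          rw [Finset.mul_sum]
          exact Finset.sum_congr rfl fun _ _ => by ring
      _ ≤ κ * ((1 + n / M) ^ N * (g1 * V) + (2 * M + 1) ^ n * (d ^ n * (d ^ N)⁻¹)) :=
          mul_le_mul_of_nonneg_left h1 hκ0.le
      _ = Q * g1 * (1 + n / M) ^ N + κ * (2 * M + 1) ^ n * d ^ (n - N) := by
          rw [hdn N (by omega), ← hκV]; ring
      _ ≤ (1 - 2 * β) + κ * (2 * M + 1) ^ n * d := by
          apply add_le_add hM
          apply mul_le_mul_of_nonneg_left _ (by positivity)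
          exact pow_le_of_le_one hd.le hd11 (by omega)
      _ ≤ 1 - β := by linarith
  · rw [Finset.sum_image (fun a _ b _ h => dpt_inj hd h)]
    calc 2 + β ≤ κ * (R ^ N)⁻¹ * (V * ((2 + β) / (2 + 2 * β))) := by
          have h1 : (R ^ N)⁻¹ * Q ≥ 2 + 2 * β := by
            rw [ge_iff_le, le_inv_mul_iff₀ (by positivity)]
            exact hRQ
          have h2 : κ * (R ^ N)⁻¹ * (V * ((2 + β) / (2 + 2 * β))) =
              ((R ^ N)⁻¹ * Q) * ((2 + β) / (2 + 2 * β)) := by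
            rw [← hκV]; ring
          rw [h2]
          calc 2 + β = (2 + 2 * β) * ((2 + β) / (2 + 2 * β)) := by field_simp
            _ ≤ _ := mul_le_mul_of_nonneg_right h1 (by positivity)
      _ ≤ κ * (R ^ N)⁻¹ * (d ^ n * Z.card) := mul_le_mul_of_nonneg_left hcardL (by positivity)
      _ = ∑ _z ∈ Z, κ * d ^ n * (R ^ N)⁻¹ := by
          rw [Finset.sum_const, nsmul_eq_mul]; ring
      _ ≤ ∑ z ∈ Z, κ * d ^ n * (‖dpt d z‖ ^ N)⁻¹ := by
          apply Finset.sum_le_sum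
          intro z hz
          apply mul_le_mul_of_nonneg_left _ (by positivity)
          have h0 : 0 < ‖dpt d z‖ := lt_of_lt_of_le one_pos (hshell z hz).1
          apply inv_anti₀ (by positivity)
          exact pow_le_pow_left₀ (norm_nonneg _) (hshell z hz).2 N
  · intro x hx
    rw [Finset.mem_image] at hx
    obtain ⟨z, hz, rfl⟩ := hx
    rw [← Finset.image_erase (dpt_inj hd), Finset.sum_image (fun a _ b _ h => dpt_inj hd h)]
    have h1 := lattice_sum_le hd le_rfl (N + 1) (dshell n 1 R) Z hZ z I hI0 (by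
      refine le_trans (lintegral_mono_set ?_) (hI (dpt d z) ((hshell z hz).2.trans hR2))
      intro y hy
      exact ⟨hy.1, hy.2.trans hR2⟩)
    calc ∑ z' ∈ Z.erase z, κ * d ^ n * (‖dpt d z - dpt d z'‖ ^ (N + 1))⁻¹
        = κ * ∑ z' ∈ Z.erase z, d ^ n * (‖dpt d z - dpt d z'‖ ^ (N + 1))⁻¹ := by
          rw [Finset.mul_sum]
          exact Finset.sum_congr rfl fun _ _ => by ring
      _ ≤ κ * ((1 + n / (1 : ℕ)) ^ (N + 1) * I + (2 * (1 : ℕ) + 1) ^ n *
            (d ^ n * (d ^ (N + 1))⁻¹)) := mul_le_mul_of_nonneg_left h1 hκ0.le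
      _ ≤ κ * ((1 + n) ^ (N + 1) * I + 3 ^ n) := by
          apply mul_le_mul_of_nonneg_left _ hκ0.le
          rw [hdn (N + 1) (by omega)]
          apply add_le_add
          · simp
          · have h2 : d ^ (n - (N + 1)) ≤ 1 := pow_le_one₀ hd.le hd11
            calc (2 * ((1 : ℕ) : ℝ) + 1) ^ n * d ^ (n - (N + 1)) ≤
                (2 * ((1 : ℕ) : ℝ) + 1) ^ n * 1 := mul_le_mul_of_nonneg_left h2 (by positivity)
              _ = 3 ^ n := by norm_num
      _ ≤ _ := by linarith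
  · rw [Finset.card_image_of_injective _ (dpt_inj hd)]
    calc κ * d ^ n * (Z.card : ℝ) = κ * (d ^ n * Z.card) := by ring
      _ ≤ κ * V := mul_le_mul_of_nonneg_left hcardV hκ0.le
      _ = Q := hκV
      _ ≤ _ := by
        have : 0 ≤ κ * ((1 + n) ^ (N + 1) * I + 3 ^ n) := by positivity
        linarith

end Pool.Agent.Lib.MP_9ca4ac_an
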