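import Mathlib

set_option autoImplicit false

/-!
# The average of `‖e - y‖ ^ (-(n - 2 m))` over the unit sphere

Piece S of MP_9ca4ac_an (`sphere_bound`).
-/

open MeasureTheory Set Metric ENNReal Measure

namespace Pool.Agent.Lib.MP_9ca4ac_an


section polar

variable {E : Type*} [NormedAddCommGroup E] [NormedSpace ℝ E] [MeasurableSpace E] [BorelSpace E]
  [FiniteDimensional ℝ E] [Nontrivial E] (μ : Measure E) [μ.IsAddHaarMeasure]

/-- Polar coordinates for the product of a homogeneous function of degree zero and a radial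
weight. -/
theorem lintegral_polar (K : E → ℝ≥0∞) (hK : Measurable K)
    (hK0 : ∀ (r : ℝ) (y : E), 0 < r → K (r • y) = K y) (w : ℝ → ℝ≥0∞) (hw : Measurable w) :
    ∫⁻ y, K y * w ‖y‖ ∂μ = (∫⁻ z : sphere (0 : E) 1, K z ∂μ.toSphere) *
      ∫⁻ r in Ioi (0 : ℝ), ENNReal.ofReal (r ^ (Module.finrank ℝ E - 1)) * w r := by
  calc
    ∫⁻ y, K y * w ‖y‖ ∂μ = ∫⁻ y : ({(0 : E)}ᶜ : Set E), K y.1 * w ‖y.1‖ ∂(μ.comap (↑)) := by
      rw [lintegral_subtype_comap (measurableSet_singleton _).compl (fun y => K y * w ‖y‖),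
        restrict_compl_singleton]
    _ = ∫⁻ p, (fun q : sphere (0 : E) 1 × Ioi (0 : ℝ) => K q.1 * w q.2) p
          ∂(μ.toSphere.prod (.volumeIoiPow (Module.finrank ℝ E - 1))) := by
      rw [← μ.measurePreserving_homeomorphUnitSphereProd.lintegral_comp_emb
        (Homeomorph.measurableEmbedding _)]
      apply lintegral_congr
      intro y
      have hy : 0 < ‖y.1‖ := norm_pos_iff.mpr y.2
      simp only [homeomorphUnitSphereProd_apply_fst_coe, homeomorphUnitSphereProd_apply_snd_coe]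
      rw [hK0 _ _ (inv_pos.mpr hy)]
    _ = (∫⁻ z : sphere (0 : E) 1, K z ∂μ.toSphere) *
        ∫⁻ r : Ioi (0 : ℝ), w r ∂(.volumeIoiPow (Module.finrank ℝ E - 1)) := by
      exact lintegral_prod_mul (f := fun z : sphere (0 : E) 1 => K z)
        (g := fun r : Ioi (0 : ℝ) => w r) (hK.comp measurable_subtype_coe).aemeasurable
        (hw.comp measurable_subtype_coe).aemeasurable
    _ = _ := by
      congr 1
      rw [Measure.volumeIoiPow, lintegral_withDensity_eq_lintegral_mul _ (by fun_prop)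
        (g := fun r : Ioi (0 : ℝ) => w r) (hw.comp measurable_subtype_coe)]
      exact lintegral_subtype_comap measurableSet_Ioi
        (fun r => ENNReal.ofReal (r ^ (Module.finrank ℝ E - 1)) * w r)

end polar



/-- The substitution `ξ = √(t ^ 2 + s ^ 2) - t`. -/
theorem lintegral_subst (α s : ℝ) (hs : 0 < s) :
    ∫⁻ t : ℝ, ENNReal.ofReal ((√(t ^ 2 + s ^ 2) - t) ^ (-α) * (√(t ^ 2 + s ^ 2))⁻¹ *
        Real.exp (-√(t ^ 2 + s ^ 2))) =
      ∫⁻ ξ in Ioi (0 : ℝ), ENNReal.ofReal (ξ ^ (-α - 1) * Real.exp (-((ξ + s ^ 2 / ξ) / 2))) := by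
  set g : ℝ → ℝ≥0∞ := fun t => ENNReal.ofReal ((√(t ^ 2 + s ^ 2) - t) ^ (-α) *
    (√(t ^ 2 + s ^ 2))⁻¹ * Real.exp (-√(t ^ 2 + s ^ 2))) with hg
  set f : ℝ → ℝ := fun ξ => (s ^ 2 / ξ - ξ) / 2 with hf
  have hsq : ∀ ξ : ℝ, 0 < ξ → √((f ξ) ^ 2 + s ^ 2) = (ξ + s ^ 2 / ξ) / 2 := by
    intro ξ hξ
    have h1 : (f ξ) ^ 2 + s ^ 2 = ((ξ + s ^ 2 / ξ) / 2) ^ 2 := by
      rw [hf]
      field_simp
      ring
    rw [h1, Real.sqrt_sq (by positivity)]
  have himg : f '' (Ioi 0) = univ := by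
    apply eq_univ_of_forall
    intro t
    have h0 : |t| < √(t ^ 2 + s ^ 2) := by
      rw [← Real.sqrt_sq_eq_abs]
      exact Real.sqrt_lt_sqrt (sq_nonneg t) (by nlinarith [sq_nonneg s, mul_pos hs hs])
    have hpos : 0 < √(t ^ 2 + s ^ 2) - t := by
      have := le_abs_self t
      linarith
    refine ⟨√(t ^ 2 + s ^ 2) - t, hpos, ?_⟩
    have h2 : √(t ^ 2 + s ^ 2) ^ 2 = t ^ 2 + s ^ 2 := Real.sq_sqrt (by positivity)
    rw [hf]
    simp only
    rw [div_eq_iff two_ne_zero, sub_eq_iff_eq_add, div_eq_iff hpos.ne']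
    nlinarith
  have hderiv : ∀ ξ ∈ Ioi (0 : ℝ), HasDerivWithinAt f (-((s ^ 2 / ξ ^ 2 + 1) / 2)) (Ioi 0) ξ := by
    intro ξ hξ
    have hξ0 : ξ ≠ 0 := (ne_of_gt hξ)
    have h1 : HasDerivAt (fun ξ : ℝ => (s ^ 2 / ξ - ξ) / 2)
        ((s ^ 2 * (-(ξ ^ 2)⁻¹) - 1) / 2) ξ := by
      have h2 := ((hasDerivAt_inv hξ0).const_mul (s ^ 2)).sub (hasDerivAt_id ξ)
      have h3 := h2.div_const 2
      simpa [div_eq_mul_inv] using h3
    have h4 : (s ^ 2 * (-(ξ ^ 2)⁻¹) - 1) / 2 = -((s ^ 2 / ξ ^ 2 + 1) / 2) := by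
      field_simp
      ring
    rw [h4] at h1
    exact h1.hasDerivWithinAt
  have hinj : InjOn f (Ioi 0) := by
    intro a ha b hb hab
    have ha' : 0 < a := ha
    have hb' : 0 < b := hb
    have h1 : √((f a) ^ 2 + s ^ 2) - f a = a := by
      rw [hsq a ha', hf]; ring
    have h2 : √((f b) ^ 2 + s ^ 2) - f b = b := by
      rw [hsq b hb', hf]; ring
    rw [← h1, ← h2, hab]
  calc
    ∫⁻ t : ℝ, g t = ∫⁻ t in f '' (Ioi 0), g t := by rw [himg, Measure.restrict_univ]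
    _ = ∫⁻ ξ in Ioi 0, ENNReal.ofReal |(-((s ^ 2 / ξ ^ 2 + 1) / 2))| * g (f ξ) :=
      lintegral_image_eq_lintegral_abs_deriv_mul measurableSet_Ioi hderiv hinj g
    _ = _ := by
      apply setLIntegral_congr_fun measurableSet_Ioi
      intro ξ hξ
      have hξ0 : 0 < ξ := hξ
      simp only [hg]
      rw [← ENNReal.ofReal_mul (abs_nonneg _)]
      congr 1
      rw [hsq ξ hξ0, abs_neg, abs_of_pos (by positivity)]
      have h1 : (ξ + s ^ 2 / ξ) / 2 - f ξ = ξ := by
        rw [hf]; ring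
      rw [h1, Real.rpow_sub_one hξ0.ne']
      have h2 : (s ^ 2 / ξ ^ 2 + 1) / 2 * (ξ ^ (-α) * ((ξ + s ^ 2 / ξ) / 2)⁻¹ *
          Real.exp (-((ξ + s ^ 2 / ξ) / 2))) = ((s ^ 2 / ξ ^ 2 + 1) / 2 *
          ((ξ + s ^ 2 / ξ) / 2)⁻¹) * (ξ ^ (-α) * Real.exp (-((ξ + s ^ 2 / ξ) / 2))) := by ring
      rw [h2]
      have h3 : (s ^ 2 / ξ ^ 2 + 1) / 2 * ((ξ + s ^ 2 / ξ) / 2)⁻¹ = ξ⁻¹ := by
        have : ξ + s ^ 2 / ξ ≠ 0 := by positivity
        field_simp
        ring
      rw [h3]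
      ring



/-- The Gaussian integral in several variables. -/
theorem lintegral_gauss (k : ℕ) {b : ℝ} (hb : 0 < b) :
    ∫⁻ v : Fin k → ℝ, ENNReal.ofReal (Real.exp (-b * ∑ i, v i ^ 2)) =
      ENNReal.ofReal ((Real.pi / b) ^ ((k : ℝ) / 2)) := by
  have h1 : ∀ v : Fin k → ℝ, Real.exp (-b * ∑ i, v i ^ 2) = ∏ i, Real.exp (-b * v i ^ 2) := by
    intro v
    rw [Finset.mul_sum, Real.exp_sum]
  have hint : Integrable (fun v : Fin k → ℝ => ∏ i, Real.exp (-b * v i ^ 2)) :=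
    Integrable.fintype_prod (f := fun _ x => Real.exp (-b * x ^ 2))
      (fun _ => integrable_exp_neg_mul_sq hb)
  simp only [h1]
  rw [← ofReal_integral_eq_lintegral_ofReal hint
    (Filter.Eventually.of_forall fun v => Finset.prod_nonneg fun i _ => (Real.exp_pos _).le)]
  congr 1
  rw [integral_fintype_prod_volume_eq_pow (fun x : ℝ => Real.exp (-b * x ^ 2)), integral_gaussian,
    Fintype.card_fin, Real.sqrt_eq_rpow, ← Real.rpow_natCast, ← Real.rpow_mul (by positivity)]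
  congr 1
  ring

theorem lintegral_cart (k : ℕ) (hk : 0 < k) (α : ℝ) (hp : 0 < (k : ℝ) / 2 - α) :
    ∫⁻ y : EuclideanSpace ℝ (Fin (k + 1)), ENNReal.ofReal ((‖y‖ - y 0) ^ (-α) * ‖y‖⁻¹ *
      Real.exp (-‖y‖)) = ENNReal.ofReal ((2 * Real.pi) ^ ((k : ℝ) / 2) *
        (2 ^ ((k : ℝ) / 2 - α) * Real.Gamma ((k : ℝ) / 2 - α))) := by
  set F : EuclideanSpace ℝ (Fin (k + 1)) → ℝ≥0∞ := fun y =>
    ENNReal.ofReal ((‖y‖ - y 0) ^ (-α) * ‖y‖⁻¹ * Real.exp (-‖y‖)) with hF
  have hFm : Measurable F := by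
    rw [hF]
    fun_prop
  have hnorm : ∀ (t : ℝ) (v : Fin k → ℝ), ‖(WithLp.toLp 2 (Fin.cons t v : Fin (k + 1) → ℝ) :
      EuclideanSpace ℝ (Fin (k + 1)))‖ = √(t ^ 2 + ∑ i, v i ^ 2) := by
    intro t v
    rw [EuclideanSpace.norm_eq]
    congr 1
    rw [Fin.sum_univ_succ]
    simp
  calc
    ∫⁻ y, F y = ∫⁻ v : Fin (k + 1) → ℝ, F (WithLp.toLp 2 v) :=
      ((PiLp.volume_preserving_toLp (Fin (k + 1))).lintegral_comp hFm).symm
    _ = ∫⁻ p : ℝ × (Fin k → ℝ), F (WithLp.toLp 2 (Fin.cons p.1 p.2 : Fin (k + 1) → ℝ)) := by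
      have h := (volume_preserving_piFinSuccAbove (fun _ : Fin (k + 1) => ℝ) 0).symm
      rw [← h.lintegral_comp (f := fun v => F (WithLp.toLp 2 v)) (by fun_prop)]
      apply lintegral_congr
      intro p
      simp [MeasurableEquiv.piFinSuccAbove, Fin.insertNthEquiv]
    _ = ∫⁻ v : Fin k → ℝ, ∫⁻ t : ℝ, F (WithLp.toLp 2 (Fin.cons t v : Fin (k + 1) → ℝ)) := by
      rw [volume_eq_prod, lintegral_prod_symm]
      exact (hFm.comp (by fun_prop)).aemeasurable
    _ = ∫⁻ v : Fin k → ℝ, ∫⁻ ξ in Ioi (0 : ℝ), ENNReal.ofReal (ξ ^ (-α - 1) *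
          Real.exp (-((ξ + (∑ i, v i ^ 2) / ξ) / 2))) := by
      have : Nonempty (Fin k) := ⟨⟨0, hk⟩⟩
      have h0 : ∀ᵐ v : Fin k → ℝ, v ≠ 0 := by
        rw [ae_iff]
        simp
      apply lintegral_congr_ae
      filter_upwards [h0] with v hv
      have hpos : 0 < ∑ i, v i ^ 2 := by
        obtain ⟨i, hi⟩ := Function.ne_iff.mp hv
        exact Finset.sum_pos' (fun i _ => sq_nonneg _) ⟨i, Finset.mem_univ _, by
          have : v i ≠ 0 := hi
          positivity⟩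
      have h1 := lintegral_subst α (√(∑ i, v i ^ 2)) (Real.sqrt_pos.mpr hpos)
      rw [Real.sq_sqrt hpos.le] at h1
      rw [← h1]
      apply lintegral_congr
      intro t
      simp only [hF]
      rw [hnorm]
      simp
    _ = ∫⁻ ξ in Ioi (0 : ℝ), ∫⁻ v : Fin k → ℝ, ENNReal.ofReal (ξ ^ (-α - 1) *
          Real.exp (-((ξ + (∑ i, v i ^ 2) / ξ) / 2))) := by
      apply lintegral_lintegral_swap
      apply Measurable.aemeasurable
      unfold Function.uncurry
      fun_prop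
    _ = ∫⁻ ξ in Ioi (0 : ℝ), ENNReal.ofReal (((2 * Real.pi) ^ ((k : ℝ) / 2)) *
          (ξ ^ (((k : ℝ) / 2 - α) - 1) * Real.exp (-(1 / 2 * ξ)))) := by
      apply setLIntegral_congr_fun measurableSet_Ioi
      intro ξ hξ
      have hξ0 : 0 < ξ := hξ
      have h1 : ∀ v : Fin k → ℝ, ENNReal.ofReal (ξ ^ (-α - 1) *
          Real.exp (-((ξ + (∑ i, v i ^ 2) / ξ) / 2))) =
          ENNReal.ofReal (ξ ^ (-α - 1) * Real.exp (-(1 / 2 * ξ))) *
          ENNReal.ofReal (Real.exp (-(1 / (2 * ξ)) * ∑ i, v i ^ 2)) := by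
        intro v
        rw [← ENNReal.ofReal_mul (by positivity), mul_assoc, ← Real.exp_add]
        congr 3
        field_simp
        ring
      simp only [h1]
      rw [lintegral_const_mul _ (by fun_prop), lintegral_gauss k (by positivity),
        ← ENNReal.ofReal_mul (by positivity)]
      congr 1
      have h2 : Real.pi / (1 / (2 * ξ)) = (2 * Real.pi) * ξ := by
        field_simp
      rw [h2, Real.mul_rpow (by positivity) hξ0.le]
      have h3 : ξ ^ (((k : ℝ) / 2 - α) - 1) = ξ ^ (-α - 1) * ξ ^ ((k : ℝ) / 2) := by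
        rw [← Real.rpow_add hξ0]
        congr 1
        ring
      rw [h3]
      ring
    _ = _ := by
      have hint : IntegrableOn (fun ξ : ℝ => (2 * Real.pi) ^ ((k : ℝ) / 2) *
          (ξ ^ (((k : ℝ) / 2 - α) - 1) * Real.exp (-(1 / 2 * ξ)))) (Ioi 0) := by
        apply Integrable.const_mul
        have h := integrableOn_rpow_mul_exp_neg_mul_rpow (p := 1) (s := ((k : ℝ) / 2 - α) - 1)
          (b := 1 / 2) (by linarith) one_pos (by norm_num)
        refine h.congr_fun ?_ measurableSet_Ioi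
        intro x _
        simp only [Real.rpow_one]
        rw [neg_mul]
      rw [← ofReal_integral_eq_lintegral_ofReal hint]
      · congr 1
        rw [integral_const_mul, Real.integral_rpow_mul_exp_neg_mul_Ioi hp (by norm_num)]
        norm_num
      · filter_upwards [ae_restrict_mem measurableSet_Ioi] with ξ hξ
        have hξ0 : 0 < ξ := hξ
        positivity



/-- The sphere average, as an explicit product. -/
noncomputable def gOne (M n : ℕ) : ℝ := ∏ i ∈ Finset.range M, 4 * (2 * (i : ℝ) + 1) / (n + 2 * i)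

theorem gOne_pos (M n : ℕ) (hn : 0 < n) : 0 < gOne M n := by
  unfold gOne
  apply Finset.prod_pos
  intro i _
  positivity

theorem gOne_anti (M n n' : ℕ) (hn : 0 < n) (h : n ≤ n') : gOne M n' ≤ gOne M n := by
  unfold gOne
  apply Finset.prod_le_prod
  · intro i _
    positivity
  · intro i _
    have : (n : ℝ) ≤ n' := by exact_mod_cast h
    gcongr

theorem gOne_diag (M : ℕ) (hM : 2 ≤ M) : gOne M (2 * M + 5) < 1 / 2 := by
  induction M, hM using Nat.le_induction with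
  | base =>
    simp [gOne, Finset.prod_range_succ]
    norm_num
  | succ M hM ih =>
    have hrec : gOne (M + 1) (2 * (M + 1) + 5) * ((4 * M + 5) * (4 * M + 7)) =
        gOne M (2 * M + 5) * (4 * (2 * M + 1) * (2 * M + 5)) := by
      unfold gOne
      rw [Finset.prod_div_distrib, Finset.prod_div_distrib]
      have h1 : (∏ i ∈ Finset.range (M + 1), (((2 * (M + 1) + 5 : ℕ) : ℝ) + 2 * i)) * (2 * M + 5) =
          (∏ i ∈ Finset.range M, (((2 * M + 5 : ℕ) : ℝ) + 2 * i)) *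
            ((4 * M + 5) * (4 * M + 7)) := by
        have h2 := Finset.prod_range_succ' (fun i : ℕ => (((2 * M + 5 : ℕ) : ℝ) + 2 * i)) (M + 1)
        have h3 := Finset.prod_range_succ (fun i : ℕ => (((2 * M + 5 : ℕ) : ℝ) + 2 * i)) (M + 1)
        have h4 := Finset.prod_range_succ (fun i : ℕ => (((2 * M + 5 : ℕ) : ℝ) + 2 * i)) M
        rw [h3, h4] at h2
        have h5 : ∏ i ∈ Finset.range (M + 1), (((2 * (M + 1) + 5 : ℕ) : ℝ) + 2 * i) =
            ∏ i ∈ Finset.range (M + 1), (((2 * M + 5 : ℕ) : ℝ) + 2 * ((i + 1 : ℕ) : ℝ)) := by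
          apply Finset.prod_congr rfl
          intro i _
          push_cast
          ring
        rw [h5]
        push_cast at h2 ⊢
        linear_combination -h2
      have hp1 : 0 < ∏ i ∈ Finset.range (M + 1), (((2 * (M + 1) + 5 : ℕ) : ℝ) + 2 * i) := by
        apply Finset.prod_pos
        intro i _
        positivity
      have hp2 : 0 < ∏ i ∈ Finset.range M, (((2 * M + 5 : ℕ) : ℝ) + 2 * i) := by
        apply Finset.prod_pos
        intro i _
        positivity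
      rw [Finset.prod_range_succ]
      rw [div_mul_eq_mul_div, div_mul_eq_mul_div, div_eq_div_iff hp1.ne' hp2.ne']
      linear_combination (-(∏ i ∈ Finset.range M, 4 * (2 * (i : ℝ) + 1)) *
        (4 * (2 * (M : ℝ) + 1))) * h1
    have h6 : 0 < gOne M (2 * M + 5) := gOne_pos _ _ (by omega)
    have hM0 : (0 : ℝ) ≤ M := by positivity
    nlinarith [mul_nonneg hM0 hM0, hrec]

theorem gOne_lt {m n : ℕ} (hm : 3 ≤ m) (hn : 2 * m + 3 ≤ n) : gOne (m - 1) n < 1 / 2 := by
  obtain ⟨M, rfl⟩ : ∃ M, m = M + 1 := ⟨m - 1, by omega⟩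
  refine lt_of_le_of_lt (gOne_anti _ (2 * M + 5) n (by omega) (by omega)) ?_
  exact gOne_diag M (by omega)

theorem Gamma_half_add (M : ℕ) :
    Real.Gamma (1 / 2 + M) = √Real.pi * ∏ i ∈ Finset.range M, ((i : ℝ) + 1 / 2) := by
  induction M with
  | zero =>
    have := Real.Gamma_one_half_eq
    simpa using this
  | succ M ih =>
    rw [Finset.prod_range_succ]
    have : (1 / 2 + ((M + 1 : ℕ) : ℝ)) = (1 / 2 + (M : ℝ)) + 1 := by push_cast; ring
    rw [this, Real.Gamma_add_one (by positivity), ih]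
    ring

theorem Gamma_add_nat (x : ℝ) (hx : 0 < x) (M : ℕ) :
    Real.Gamma (x + M) = Real.Gamma x * ∏ i ∈ Finset.range M, (x + i) := by
  induction M with
  | zero => simp
  | succ M ih =>
    rw [Finset.prod_range_succ]
    have : (x + ((M + 1 : ℕ) : ℝ)) = (x + (M : ℝ)) + 1 := by push_cast; ring
    rw [this, Real.Gamma_add_one (by positivity), ih]
    ring

/-- The two sides of the normalisation. -/
theorem gamma_identity (M n : ℕ) (hn : 0 < n) (α : ℝ) (hα : α = (n : ℝ) / 2 - (M + 1)) :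
    2 ^ (-α) * ((2 * Real.pi) ^ (((n : ℝ) - 1) / 2) * (2 ^ (((n : ℝ) - 1) / 2 - α) *
      Real.Gamma (((n : ℝ) - 1) / 2 - α))) =
    gOne M n * (n * (√Real.pi ^ n / Real.Gamma ((n : ℝ) / 2 + 1))) *
      Real.Gamma ((n : ℝ) - 1 - α) := by
  have hn' : (0 : ℝ) < n := by exact_mod_cast hn
  have e1 : ((n : ℝ) - 1) / 2 - α = 1 / 2 + M := by rw [hα]; ring
  have e2 : (n : ℝ) - 1 - α = (n : ℝ) / 2 + M := by rw [hα]; ring
  rw [e1, e2, Gamma_half_add, Gamma_add_nat _ (by positivity), Real.Gamma_add_one (by positivity)]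
  have hG : Real.Gamma ((n : ℝ) / 2) ≠ 0 := (Real.Gamma_pos_of_pos (by positivity)).ne'
  have hpi : √Real.pi ^ n = Real.pi ^ (((n : ℝ) - 1) / 2) * √Real.pi := by
    rw [Real.sqrt_eq_rpow, ← Real.rpow_natCast, ← Real.rpow_mul Real.pi_pos.le,
      ← Real.rpow_add Real.pi_pos]
    congr 1
    ring
  have hprod : gOne M n * ∏ i ∈ Finset.range M, ((n : ℝ) / 2 + i) =
      4 ^ M * ∏ i ∈ Finset.range M, ((i : ℝ) + 1 / 2) := by
    unfold gOne
    rw [← Finset.prod_mul_distrib]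
    have : (4 : ℝ) ^ M = ∏ i ∈ Finset.range M, 4 := by simp
    rw [this, ← Finset.prod_mul_distrib]
    apply Finset.prod_congr rfl
    intro i _
    have : (n : ℝ) + 2 * i ≠ 0 := by positivity
    field_simp
  have h2pow : (2 : ℝ) ^ (-α) * (2 ^ (((n : ℝ) - 1) / 2) * 2 ^ (1 / 2 + (M : ℝ))) =
      2 * 4 ^ M := by
    rw [← Real.rpow_add two_pos, ← Real.rpow_add two_pos]
    have : -α + (((n : ℝ) - 1) / 2 + (1 / 2 + (M : ℝ))) = 1 + 2 * M := by rw [hα]; ring
    rw [this, Real.rpow_add two_pos, Real.rpow_one, Real.rpow_mul two_pos.le]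
    norm_num
  rw [Real.mul_rpow two_pos.le Real.pi_pos.le, hpi]
  calc
    _ = ((2 : ℝ) ^ (-α) * (2 ^ (((n : ℝ) - 1) / 2) * 2 ^ (1 / 2 + (M : ℝ)))) *
        (∏ i ∈ Finset.range M, ((i : ℝ) + 1 / 2)) * (Real.pi ^ (((n : ℝ) - 1) / 2) * √Real.pi) := by
      ring
    _ = 2 * (gOne M n * ∏ i ∈ Finset.range M, ((n : ℝ) / 2 + i)) *
        (Real.pi ^ (((n : ℝ) - 1) / 2) * √Real.pi) := by
      rw [h2pow, hprod]
      ring
    _ = _ := by
      field_simp


section Main

/-- The kernel on the sphere, extended homogeneously of degree zero. -/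
noncomputable def ker (N : ℕ) {E : Type*} [NormedAddCommGroup E] [NormedSpace ℝ E] (u y : E) :
    ℝ≥0∞ := ENNReal.ofReal ((‖u - ‖y‖⁻¹ • y‖ ^ N)⁻¹)

theorem ker_smul (N : ℕ) {E : Type*} [NormedAddCommGroup E] [NormedSpace ℝ E] (u : E) (r : ℝ)
    (y : E) (hr : 0 < r) : ker N u (r • y) = ker N u y := by
  unfold ker
  rw [norm_smul, Real.norm_eq_abs, abs_of_pos hr, smul_smul, mul_inv]
  congr 5
  field_simp

theorem measurable_ker (N : ℕ) {k : ℕ} (u : EuclideanSpace ℝ (Fin k)) :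
    Measurable (ker N u) := by
  unfold ker
  fun_prop

/-- The kernel in coordinates. -/
theorem ker_mul_weight (N k : ℕ) (_hN : 0 < N) (y : EuclideanSpace ℝ (Fin (k + 1))) (hy : y ≠ 0) :
    ker N (EuclideanSpace.single 0 (1 : ℝ)) y *
      ENNReal.ofReal (‖y‖ ^ (-((N : ℝ) / 2) - 1) * Real.exp (-‖y‖)) =
    ENNReal.ofReal (2 ^ (-((N : ℝ) / 2))) *
      ENNReal.ofReal ((‖y‖ - y 0) ^ (-((N : ℝ) / 2)) * ‖y‖⁻¹ * Real.exp (-‖y‖)) := by
  have hy0 : 0 < ‖y‖ := norm_pos_iff.mpr hy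
  unfold ker
  rw [← ENNReal.ofReal_mul (by positivity), ← ENNReal.ofReal_mul (by positivity)]
  congr 1
  have hle : y 0 ≤ ‖y‖ := (le_abs_self _).trans (PiLp.norm_apply_le y 0)
  have hsq : ‖(EuclideanSpace.single 0 (1 : ℝ) : EuclideanSpace ℝ (Fin (k + 1))) -
      ‖y‖⁻¹ • y‖ ^ 2 = 2 * (‖y‖ - y 0) * ‖y‖⁻¹ := by
    have hn1 : ‖(EuclideanSpace.single 0 (1 : ℝ) : EuclideanSpace ℝ (Fin (k + 1)))‖ = 1 := by
      simp
    rw [norm_sub_sq_real, norm_smul, hn1, inner_smul_right,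
      EuclideanSpace.inner_single_left]
    simp only [map_one, one_mul, norm_inv, norm_norm]
    field_simp
    ring
  have hpow : (‖(EuclideanSpace.single 0 (1 : ℝ) : EuclideanSpace ℝ (Fin (k + 1))) -
      ‖y‖⁻¹ • y‖ ^ N)⁻¹ = (2 * (‖y‖ - y 0) * ‖y‖⁻¹) ^ (-((N : ℝ) / 2)) := by
    rw [← hsq, Real.rpow_neg (sq_nonneg _), ← Real.rpow_natCast _ 2,
      ← Real.rpow_mul (norm_nonneg _)]
    push_cast
    rw [mul_div_cancel₀ (N : ℝ) two_ne_zero, Real.rpow_natCast]
  rw [hpow, Real.mul_rpow (by nlinarith) (by positivity), Real.mul_rpow two_pos.le (by linarith),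
    Real.inv_rpow hy0.le, Real.rpow_sub_one hy0.ne']
  have : ‖y‖ ^ (-((N : ℝ) / 2)) ≠ 0 := (Real.rpow_pos_of_pos hy0 _).ne'
  field_simp

/-- The integral of the kernel over the sphere. -/
theorem lintegral_ker_sphere {m n : ℕ} (hm : 1 ≤ m) (hn : 2 * m + 1 ≤ n) :
    ∫⁻ z : sphere (0 : EuclideanSpace ℝ (Fin n)) 1,
      ker (n - 2 * m) (EuclideanSpace.single ⟨0, by omega⟩ (1 : ℝ)) (z : EuclideanSpace ℝ (Fin n))
        ∂(volume : Measure (EuclideanSpace ℝ (Fin n))).toSphere =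
    ENNReal.ofReal (gOne (m - 1) n) *
      (volume : Measure (EuclideanSpace ℝ (Fin n))).toSphere univ := by
  obtain ⟨k, rfl⟩ : ∃ k, n = k + 1 := ⟨n - 1, by omega⟩
  have hk : 0 < k := by omega
  set N := k + 1 - 2 * m with hN
  have hN0 : 0 < N := by omega
  set α : ℝ := (N : ℝ) / 2 with hα
  have hNr : (N : ℝ) = (k + 1 : ℝ) - 2 * m := by
    rw [hN, Nat.cast_sub (by omega)]
    push_cast
    ring
  have hpos1 : 0 < (k : ℝ) / 2 - α := by
    have : (1 : ℝ) ≤ m := by exact_mod_cast hm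
    rw [hα, hNr]
    linarith
  have hpos2 : 0 < (k : ℝ) - α := by
    have : (0 : ℝ) < k := by exact_mod_cast hk
    linarith
  have hdim : Module.finrank ℝ (EuclideanSpace ℝ (Fin (k + 1))) - 1 = k := by simp
  -- the weight
  set w : ℝ → ℝ≥0∞ := fun r => ENNReal.ofReal (r ^ (-α - 1) * Real.exp (-r)) with hw
  have hwm : Measurable w := by
    rw [hw]
    fun_prop
  have hW : ∫⁻ r in Ioi (0 : ℝ), ENNReal.ofReal (r ^
      (Module.finrank ℝ (EuclideanSpace ℝ (Fin (k + 1))) - 1)) * w r =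
      ENNReal.ofReal (Real.Gamma ((k : ℝ) - α)) := by
    rw [hdim]
    have hint : IntegrableOn (fun r : ℝ => r ^ (((k : ℝ) - α) - 1) * Real.exp (-(1 * r)))
        (Ioi 0) := by
      have h := integrableOn_rpow_mul_exp_neg_mul_rpow (p := 1) (s := ((k : ℝ) - α) - 1)
        (b := 1) (by linarith) one_pos one_pos
      refine h.congr_fun ?_ measurableSet_Ioi
      intro x _
      simp only [Real.rpow_one]
      rw [neg_mul]
    calc
      _ = ∫⁻ r in Ioi (0 : ℝ), ENNReal.ofReal (r ^ (((k : ℝ) - α) - 1) * Real.exp (-(1 * r))) := by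
        apply setLIntegral_congr_fun measurableSet_Ioi
        intro r hr
        have hr0 : 0 < r := hr
        simp only [hw]
        rw [← ENNReal.ofReal_mul (by positivity)]
        congr 1
        rw [← mul_assoc, one_mul, ← Real.rpow_natCast r k, ← Real.rpow_add hr0]
        congr 2
        ring
      _ = _ := by
        rw [← ofReal_integral_eq_lintegral_ofReal hint]
        · congr 1
          rw [Real.integral_rpow_mul_exp_neg_mul_Ioi hpos2 one_pos]
          simp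
        · filter_upwards [ae_restrict_mem measurableSet_Ioi] with r hr
          have hr0 : 0 < r := hr
          positivity
  have hfull : ∫⁻ y : EuclideanSpace ℝ (Fin (k + 1)),
      ker N (EuclideanSpace.single 0 (1 : ℝ)) y * w ‖y‖ =
      ENNReal.ofReal (2 ^ (-α)) * ENNReal.ofReal ((2 * Real.pi) ^ ((k : ℝ) / 2) *
        (2 ^ ((k : ℝ) / 2 - α) * Real.Gamma ((k : ℝ) / 2 - α))) := by
    rw [← lintegral_cart k hk α hpos1, ← lintegral_const_mul _ (by fun_prop)]
    apply lintegral_congr_ae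
    have h0 : ∀ᵐ y : EuclideanSpace ℝ (Fin (k + 1)), y ≠ 0 := by
      rw [ae_iff]
      simp
    filter_upwards [h0] with y hy
    exact ker_mul_weight N k hN0 y hy
  have hpolar := lintegral_polar (volume : Measure (EuclideanSpace ℝ (Fin (k + 1))))
    (ker N (EuclideanSpace.single 0 (1 : ℝ))) (measurable_ker N _)
    (fun r y hr => ker_smul N _ r y hr) w hwm
  rw [hfull, hW] at hpolar
  have hid := gamma_identity (m - 1) (k + 1) (by omega) α (by
    rw [hα, hNr, Nat.cast_sub hm]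
    push_cast
    ring)
  have e1 : (((k + 1 : ℕ) : ℝ) - 1) = k := by push_cast; ring
  rw [e1] at hid
  have hΓ : 0 < Real.Gamma ((k : ℝ) - α) := Real.Gamma_pos_of_pos hpos2
  have hσ : (volume : Measure (EuclideanSpace ℝ (Fin (k + 1)))).toSphere univ =
      ENNReal.ofReal (((k + 1 : ℕ) : ℝ) * (√Real.pi ^ (k + 1) /
        Real.Gamma (((k + 1 : ℕ) : ℝ) / 2 + 1))) := by
    rw [Measure.toSphere_apply_univ, EuclideanSpace.volume_ball]
    simp only [finrank_euclideanSpace, Fintype.card_fin, ENNReal.ofReal_one, one_pow, one_mul]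
    rw [ENNReal.ofReal_mul (by positivity), ENNReal.ofReal_natCast]
  have hg0 : 0 ≤ gOne (m - 1) (k + 1) := (gOne_pos _ _ (by omega)).le
  have hfin : ENNReal.ofReal (Real.Gamma ((k : ℝ) - α)) ≠ ∞ := ENNReal.ofReal_ne_top
  have hne : ENNReal.ofReal (Real.Gamma ((k : ℝ) - α)) ≠ 0 := by
    simpa using hΓ
  rw [← ENNReal.mul_left_inj hne hfin, hσ]
  change (∫⁻ z : sphere (0 : EuclideanSpace ℝ (Fin (k + 1))) 1,
    ker N (EuclideanSpace.single 0 (1 : ℝ)) (z : EuclideanSpace ℝ (Fin (k + 1)))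
      ∂(volume : Measure (EuclideanSpace ℝ (Fin (k + 1)))).toSphere) * _ = _
  rw [← hpolar, ← ENNReal.ofReal_mul (by positivity), ← ENNReal.ofReal_mul hg0,
    ← ENNReal.ofReal_mul (by positivity), hid]

/-- Normalising two points outside the unit ball does not increase their distance. -/
theorem norm_normalize_sub_le {E : Type*} [NormedAddCommGroup E] [InnerProductSpace ℝ E]
    {x y : E} (hx : 1 ≤ ‖x‖) (hy : 1 ≤ ‖y‖) :
    ‖‖x‖⁻¹ • x - ‖y‖⁻¹ • y‖ ≤ ‖x - y‖ := by
  have hx0 : 0 < ‖x‖ := by linarith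
  have hy0 : 0 < ‖y‖ := by linarith
  rw [← abs_of_nonneg (norm_nonneg (x - y)), ← abs_of_nonneg (norm_nonneg (‖x‖⁻¹ • x - _)),
    ← sq_le_sq, norm_sub_sq_real, norm_sub_sq_real, norm_smul, norm_smul, inner_smul_left,
    inner_smul_right]
  simp only [norm_inv, norm_norm, RCLike.conj_to_real]
  rw [inv_mul_cancel₀ hx0.ne', inv_mul_cancel₀ hy0.ne']
  have hcs := real_inner_le_norm x y
  have hcs2 := abs_real_inner_le_norm x y
  -- it suffices that `‖x‖ ^ 2 + ‖y‖ ^ 2 - 2 ‖x‖ ‖y‖ c` is minimal at `‖x‖ = ‖y‖ = 1`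
  set a := ‖x‖ with ha
  set b := ‖y‖ with hb
  set c := inner ℝ x y with hc
  have h1 : a⁻¹ * (b⁻¹ * c) = c / (a * b) := by
    field_simp
  rw [h1]
  have hab : 0 < a * b := by positivity
  have hc1 : c / (a * b) ≤ 1 := by
    rw [div_le_one hab]
    exact hcs
  have h2 : c = (c / (a * b)) * (a * b) := by
    field_simp
  set t := c / (a * b) with ht
  rw [h2]
  nlinarith [sq_nonneg (a - b), mul_nonneg (sub_nonneg.mpr hx) (sub_nonneg.mpr hy),
    mul_nonneg (sub_nonneg.mpr hc1) (show (0 : ℝ) ≤ a * b - 1 by nlinarith)]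

/-- The main estimate of piece S. -/
theorem sphere_bound {m n : ℕ} (hm : 3 ≤ m) (hn : 2 * m + 3 ≤ n) :
    ∃ g1 : ℝ, 0 < g1 ∧ g1 < 1 / 2 ∧ ∀ R : ℝ, 1 < R →
      ∀ x : EuclideanSpace ℝ (Fin n), 1 ≤ ‖x‖ →
      ∫⁻ y in {y : EuclideanSpace ℝ (Fin n) | 1 ≤ ‖y‖ ∧ ‖y‖ ≤ R},
          ENNReal.ofReal ((‖x - y‖ ^ (n - 2 * m))⁻¹)
        ≤ ENNReal.ofReal g1 * volume {y : EuclideanSpace ℝ (Fin n) | 1 ≤ ‖y‖ ∧ ‖y‖ ≤ R} := by
  classical
  refine ⟨gOne (m - 1) n, gOne_pos _ _ (by omega), gOne_lt hm hn, ?_⟩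
  intro R hR x hx
  have : Nonempty (Fin n) := ⟨⟨0, by omega⟩⟩
  have : Nontrivial (EuclideanSpace ℝ (Fin n)) := inferInstance
  set N := n - 2 * m with hN
  set e : EuclideanSpace ℝ (Fin n) := EuclideanSpace.single ⟨0, by omega⟩ (1 : ℝ) with he
  have hen : ‖e‖ = 1 := by simp [he]
  set A : Set (EuclideanSpace ℝ (Fin n)) := {y | 1 ≤ ‖y‖ ∧ ‖y‖ ≤ R} with hA
  have hAm : MeasurableSet A := by
    rw [hA]
    exact (measurableSet_le measurable_const measurable_norm).inter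
      (measurableSet_le measurable_norm measurable_const)
  have hx0 : 0 < ‖x‖ := by linarith
  set u : EuclideanSpace ℝ (Fin n) := ‖x‖⁻¹ • x with hu
  have hun : ‖u‖ = 1 := by
    rw [hu, norm_smul, norm_inv, norm_norm, inv_mul_cancel₀ hx0.ne']
  -- step 1: pointwise comparison off the line through `x`
  have hline : ∀ᵐ y : EuclideanSpace ℝ (Fin n), y ∉ (ℝ ∙ x : Submodule ℝ _) := by
    rw [ae_iff]
    simp only [not_not]
    refine Measure.addHaar_submodule volume (ℝ ∙ x : Submodule ℝ (EuclideanSpace ℝ (Fin n))) ?_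
    intro htop
    have h1 := finrank_span_singleton (K := ℝ) (v := x) (norm_pos_iff.mp hx0)
    rw [htop, finrank_top, finrank_euclideanSpace, Fintype.card_fin] at h1
    omega
  have step1 : ∫⁻ y in A, ENNReal.ofReal ((‖x - y‖ ^ N)⁻¹) ≤ ∫⁻ y in A, ker N u y := by
    apply lintegral_mono_ae
    filter_upwards [ae_restrict_mem hAm, ae_restrict_of_ae hline] with y hy hyl
    unfold ker
    apply ENNReal.ofReal_le_ofReal
    have hpos : 0 < ‖u - ‖y‖⁻¹ • y‖ := by
      rw [norm_pos_iff, sub_ne_zero]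
      intro h
      apply hyl
      have hy0 : ‖y‖ ≠ 0 := by
        have := hy.1
        intro h0
        linarith
      have h2 : y = (‖y‖ * ‖x‖⁻¹) • x := by
        have h3 := congrArg (fun z => ‖y‖ • z) h
        simp only [hu, smul_smul] at h3
        rw [mul_inv_cancel₀ hy0, one_smul] at h3
        exact h3.symm
      rw [h2]
      exact Submodule.smul_mem _ _ (Submodule.mem_span_singleton_self x)
    gcongr
    exact norm_normalize_sub_le hx hy.1
  -- step 2: rotate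
  obtain ⟨ρ, hρ⟩ : ∃ ρ : EuclideanSpace ℝ (Fin n) ≃ₗᵢ[ℝ] EuclideanSpace ℝ (Fin n), ρ e = u :=
    ⟨_, Submodule.reflection_sub (hen.trans hun.symm)⟩
  have step2 : ∫⁻ y in A, ker N u y = ∫⁻ y in A, ker N e y := by
    rw [← ρ.measurePreserving.setLIntegral_comp_preimage_emb
      ρ.toHomeomorph.measurableEmbedding (ker N u) A]
    have hpre : (ρ : EuclideanSpace ℝ (Fin n) → EuclideanSpace ℝ (Fin n)) ⁻¹' A = A := by
      ext y
      simp [hA]
    rw [hpre]
    apply lintegral_congr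
    intro y
    unfold ker
    rw [← hρ, ρ.norm_map, ← map_smul, ← map_sub, ρ.norm_map]
  -- step 3: polar coordinates
  set w : ℝ → ℝ≥0∞ := (Icc 1 R).indicator 1 with hw
  have hwm : Measurable w := measurable_one.indicator measurableSet_Icc
  have hind : ∀ K : EuclideanSpace ℝ (Fin n) → ℝ≥0∞,
      ∫⁻ y in A, K y = ∫⁻ y, K y * w ‖y‖ := by
    intro K
    rw [← lintegral_indicator hAm]
    apply lintegral_congr
    intro y
    by_cases hy : y ∈ A
    · have : ‖y‖ ∈ Icc 1 R := hy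
      simp [hw, hy, this]
    · have : ‖y‖ ∉ Icc 1 R := hy
      simp [hw, hy, this]
  have hp1 := lintegral_polar (volume : Measure (EuclideanSpace ℝ (Fin n)))
    (ker N e) (measurable_ker N _) (fun r y hr => ker_smul N _ r y hr) w hwm
  have hp2 := lintegral_polar (volume : Measure (EuclideanSpace ℝ (Fin n)))
    (fun _ => 1) measurable_const (fun r y hr => rfl) w hwm
  have hvol : volume A = ∫⁻ y in A, (fun _ => 1) y := by simp
  have hvol2 : volume A = (volume : Measure (EuclideanSpace ℝ (Fin n))).toSphere univ *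
      ∫⁻ r in Ioi (0 : ℝ), ENNReal.ofReal (r ^
        (Module.finrank ℝ (EuclideanSpace ℝ (Fin n)) - 1)) * w r := by
    rw [hvol, hind, hp2, lintegral_one]
  refine step1.trans ?_
  rw [step2, hind, hp1, lintegral_ker_sphere (by omega) (by omega), hvol2, mul_assoc]

end Main

end Pool.Agent.Lib.MP_9ca4ac_an
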