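import Mathlib
import Pool.Agent.Lib.MP_9ca4ac_an.Defs
import Pool.Agent.Lib.MP_9ca4ac_an.Calc2

open MeasureTheory Metric Set Filter Topology InnerProductSpace Laplacian TopologicalSpace
open scoped ContDiff ENNReal NNReal Distributions

noncomputable section

set_option linter.unusedSectionVars false

namespace Pool.Agent.Lib.MP_9ca4ac_an

section general

variable {E : Type*} [NormedAddCommGroup E] [InnerProductSpace ℝ E] [FiniteDimensional ℝ E]

/-- smooth and compactly supported -/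
structure IsT (u : E → ℝ) : Prop where
  smooth : ContDiff ℝ ∞ u
  cs : HasCompactSupport u

lemma nlap_zero_fun (m : ℕ) : nlap m (0 : E → ℝ) = 0 := by
  rcases Nat.eq_zero_or_pos m with rfl | hm
  · rfl
  · exact nlap_const hm 0

lemma support_nlap_subset (m : ℕ) (u : E → ℝ) :
    Function.support (nlap m u) ⊆ tsupport u := by
  intro x hx
  by_contra hx'
  apply hx
  have h : u =ᶠ[𝓝 x] 0 := notMem_tsupport_iff_eventuallyEq.1 hx'
  rw [nlap_congr_at h, nlap_zero_fun]; rfl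

lemma tsupport_nlap_subset (m : ℕ) (u : E → ℝ) : tsupport (nlap m u) ⊆ tsupport u :=
  closure_minimal (support_nlap_subset m u) (isClosed_tsupport u)

namespace IsT

variable {u v : E → ℝ}

lemma nlap (hu : IsT u) (m : ℕ) : IsT (nlap m u) where
  smooth := contDiff_nlap_infty hu.smooth
  cs := hu.cs.mono' (support_nlap_subset m u)

lemma sub (hu : IsT u) (hv : IsT v) : IsT (u - v) where
  smooth := hu.smooth.sub hv.smooth
  cs := by
    rw [sub_eq_add_neg]
    exact hu.cs.add hv.cs.neg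

lemma add (hu : IsT u) (hv : IsT v) : IsT (u + v) where
  smooth := hu.smooth.add hv.smooth
  cs := hu.cs.add hv.cs

lemma continuous (hu : IsT u) : Continuous u := hu.smooth.continuous

lemma contDiffAt (hu : IsT u) (k : ℕ) (x : E) : ContDiffAt ℝ (k : ℕ∞ω) u x :=
  contDiffAt_infty.1 (hu.smooth.contDiffAt) k

end IsT

variable [MeasurableSpace E] [BorelSpace E]

lemma IsT.integrable_mul {u : E → ℝ} {w : E → ℝ} (hu : IsT u) (hw : Continuous w) :
    Integrable (fun x => u x * w x) := by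
  have : HasCompactSupport (fun x => u x * w x) := hu.cs.mul_right
  exact (hu.continuous.mul hw).integrable_of_hasCompactSupport this

/-- the bilinear form `∫ u (-Δ)^m v` -/
def BB (m : ℕ) (u v : E → ℝ) : ℝ := ∫ x, u x * nlap m v x

lemma ibp {u v : E → ℝ} (hu : IsT u) (hv : IsT v) :
    ∫ x, u x * nlap 1 v x = ∫ x, nlap 1 u x * v x := by
  have h := SchwartzMap.integral_mul_laplacian_right_eq_left (μ := (volume : Measure E))
    (hu.cs.toSchwartzMap hu.smooth) (hv.cs.toSchwartzMap hv.smooth)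
  simp only [SchwartzMap.laplacian_apply] at h
  have e : ∀ w : E → ℝ, nlap 1 w = fun x => -(Δ w x) := fun w => rfl
  simp only [e, mul_neg, neg_mul, integral_neg]
  rw [neg_inj]
  exact h

lemma nlap_nlap (k m : ℕ) (u : E → ℝ) : nlap k (nlap m u) = nlap (k + m) u := by
  simp only [nlap, Function.iterate_add_apply]

lemma BB_succ {m : ℕ} {u v : E → ℝ} (hu : IsT u) (hv : IsT v) :
    BB (m + 1) u v = BB m (nlap 1 u) v := by
  unfold BB
  rw [show m + 1 = 1 + m by ring, ← nlap_nlap]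
  exact ibp hu (hv.nlap m)

lemma BB_symm {m : ℕ} {u v : E → ℝ} (hu : IsT u) (hv : IsT v) :
    BB m u v = BB m v u := by
  induction m generalizing u v with
  | zero => unfold BB; simp [mul_comm]
  | succ m ih =>
    rw [BB_succ hu hv, ih (hu.nlap 1) hv]
    unfold BB
    rw [nlap_nlap]

lemma BB_add_two {m : ℕ} {u v : E → ℝ} (hu : IsT u) (hv : IsT v) :
    BB (m + 2) u v = BB m (nlap 1 u) (nlap 1 v) := by
  rw [show m + 2 = (m + 1) + 1 by ring, BB_succ hu hv, BB_symm (hu.nlap 1) hv,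
    BB_succ hv (hu.nlap 1), BB_symm (hv.nlap 1) (hu.nlap 1)]

lemma BB_sub_left {m : ℕ} {u v w : E → ℝ} (hu : IsT u) (hv : IsT v) (hw : IsT w) :
    BB m (u - v) w = BB m u w - BB m v w := by
  unfold BB
  rw [← integral_sub (hu.integrable_mul (hw.nlap m).continuous)
    (hv.integrable_mul (hw.nlap m).continuous)]
  congr 1; ext x; simp [sub_mul]

lemma BB_sub_right {m : ℕ} {u v w : E → ℝ} (hu : IsT u) (hv : IsT v) (hw : IsT w) :
    BB m w (u - v) = BB m w u - BB m w v := by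
  rw [BB_symm hw (hu.sub hv), BB_sub_left hu hv hw, BB_symm hu hw, BB_symm hv hw]

lemma BB_zero (u : E → ℝ) : BB 0 u u = ∫ x, u x ^ 2 := by
  unfold BB; simp [sq]

lemma norm_sq_dual (L : E →L[ℝ] ℝ) :
    ‖L‖ ^ 2 = ∑ i, (L (stdOrthonormalBasis ℝ E i)) ^ 2 := by
  have h1 : ‖(toDual ℝ E).symm L‖ = ‖L‖ := LinearIsometryEquiv.norm_map _ _
  rw [← h1, ← (stdOrthonormalBasis ℝ E).sum_sq_norm_inner_left]
  refine Finset.sum_congr rfl fun i _ => ?_
  rw [toDual_symm_apply, Real.norm_eq_abs, sq_abs]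

lemma BB_one {u : E → ℝ} (hu : IsT u) : BB 1 u u = ∫ x, ‖fderiv ℝ u x‖ ^ 2 := by
  set f := hu.cs.toSchwartzMap hu.smooth with hf
  have hfu : (f : E → ℝ) = u := rfl
  have e : ∀ x, nlap 1 u x = -(Δ u x) := fun x => rfl
  have e2 : ∀ x, ‖fderiv ℝ u x‖ ^ 2 = ∑ i,
      (LineDeriv.lineDerivOp (stdOrthonormalBasis ℝ E i) f) x *
      (LineDeriv.lineDerivOp (stdOrthonormalBasis ℝ E i) f) x := by
    intro x
    rw [norm_sq_dual]
    refine Finset.sum_congr rfl fun i _ => ?_
    rw [SchwartzMap.lineDerivOp_apply_eq_fderiv, hfu, sq]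
  have e3 : ∀ x, u x * nlap 1 u x = ∑ i, -(f x *
      (LineDeriv.lineDerivOp (stdOrthonormalBasis ℝ E i)
        (LineDeriv.lineDerivOp (stdOrthonormalBasis ℝ E i) f)) x) := by
    intro x
    rw [e, ← hfu, ← SchwartzMap.laplacian_apply,
      SchwartzMap.laplacian_eq_sum (stdOrthonormalBasis ℝ E)]
    simp [Finset.mul_sum]
  unfold BB
  simp_rw [e2, e3]
  rw [integral_finsetSum, integral_finsetSum]
  · refine Finset.sum_congr rfl fun i _ => ?_
    rw [integral_neg, SchwartzMap.integral_mul_lineDerivOp_right_eq_neg_left]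
    ring
  · intro i _
    exact (SchwartzMap.pairing (ContinuousLinearMap.mul ℝ ℝ) _ _).integrable
  · intro i _
    exact (SchwartzMap.pairing (ContinuousLinearMap.mul ℝ ℝ) _ _).integrable.neg

end general

section general

variable {E : Type*} [NormedAddCommGroup E] [InnerProductSpace ℝ E] [FiniteDimensional ℝ E]
  [MeasurableSpace E] [BorelSpace E]

lemma BB_add_two_mul {k : ℕ} {u v : E → ℝ} (hu : IsT u) (hv : IsT v) (j : ℕ) :
    BB (k + 2 * j) u v = BB k (nlap j u) (nlap j v) := by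
  induction j generalizing u v with
  | zero => simp
  | succ j ih =>
    rw [show k + 2 * (j + 1) = (k + 2 * j) + 2 by ring, BB_add_two hu hv,
      ih (hu.nlap 1) (hv.nlap 1), nlap_nlap, nlap_nlap]

lemma exists_eq_add_two_mul (m : ℕ) : ∃ k j, k ≤ 1 ∧ m = k + 2 * j :=
  ⟨m % 2, m / 2, by omega, by omega⟩

lemma BB_nonneg (m : ℕ) {u : E → ℝ} (hu : IsT u) : 0 ≤ BB m u u := by
  obtain ⟨k, j, hk, rfl⟩ := exists_eq_add_two_mul m
  rw [BB_add_two_mul hu hu]
  interval_cases k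
  · rw [BB_zero]; positivity
  · rw [BB_one (hu.nlap j)]; positivity

lemma IsT.integrable_iteratedFDeriv_sq {u : E → ℝ} (hu : IsT u) (m : ℕ) :
    Integrable (fun x => ‖iteratedFDeriv ℝ m u x‖ ^ 2) := by
  have h1 : HasCompactSupport (fun x => ‖iteratedFDeriv ℝ m u x‖ ^ 2) := by
    have := (hu.cs.iteratedFDeriv (𝕜 := ℝ) m).norm
    exact this.comp_left (g := fun t : ℝ => t ^ 2) (by simp)
  have h2 : Continuous (fun x => iteratedFDeriv ℝ m u x) :=
    hu.smooth.continuous_iteratedFDeriv (by exact_mod_cast le_top)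
  exact (h2.norm.pow 2).integrable_of_hasCompactSupport h1

lemma BB_le (m : ℕ) : ∃ C : ℝ, 0 ≤ C ∧ ∀ u : E → ℝ, IsT u →
    BB m u u ≤ C * ∫ x, ‖iteratedFDeriv ℝ m u x‖ ^ 2 := by
  obtain ⟨k, j, hk, rfl⟩ := exists_eq_add_two_mul m
  refine ⟨((Module.finrank ℝ E : ℝ) ^ j) ^ 2, by positivity, fun u hu => ?_⟩
  have key : BB k (nlap j u) (nlap j u) = ∫ x, ‖iteratedFDeriv ℝ k (nlap j u) x‖ ^ 2 := by
    interval_cases k
    · rw [BB_zero]; simp
    · rw [BB_one (hu.nlap j)]; simp [norm_iteratedFDeriv_one]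
  rw [BB_add_two_mul hu hu, key, ← integral_const_mul]
  apply integral_mono ((hu.nlap j).integrable_iteratedFDeriv_sq k)
    ((hu.integrable_iteratedFDeriv_sq (k + 2 * j)).const_mul _)
  intro x
  have := norm_iteratedFDeriv_nlap_le (k := k) (m := j) (hu.contDiffAt (k + 2 * j) x)
  calc ‖iteratedFDeriv ℝ k (nlap j u) x‖ ^ 2
      ≤ ((Module.finrank ℝ E : ℝ) ^ j * ‖iteratedFDeriv ℝ (k + 2 * j) u x‖) ^ 2 := by gcongr
    _ = _ := by ring

lemma lintegral_enorm_sq_eq {F : Type*} [NormedAddCommGroup F]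
    {f : E → F} (hc : Continuous f) (hs : HasCompactSupport f) :
    ∫⁻ x, ‖f x‖ₑ ^ 2 = ENNReal.ofReal (∫ x, ‖f x‖ ^ 2) := by
  have h1 : HasCompactSupport (fun x => ‖f x‖ ^ 2) :=
    hs.norm.comp_left (g := fun t : ℝ => t ^ 2) (by simp)
  have h2 : Integrable (fun x => ‖f x‖ ^ 2) :=
    (hc.norm.pow 2).integrable_of_hasCompactSupport h1
  rw [ofReal_integral_eq_lintegral_ofReal h2 (Eventually.of_forall fun x => by positivity)]
  congr 1
  ext x
  rw [ENNReal.ofReal_pow (norm_nonneg _), ofReal_norm]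

lemma eLpNorm_two_sq {F : Type*} [NormedAddCommGroup F] (f : E → F) :
    (eLpNorm f 2 volume) ^ 2 = ∫⁻ x, ‖f x‖ₑ ^ 2 := by
  have := eLpNorm_nnreal_pow_eq_lintegral (μ := (volume : Measure E)) (f := f)
    (p := 2) (by norm_num)
  norm_num at this
  exact_mod_cast this

lemma poincare (hn : 2 < Module.finrank ℝ E) {s : Set E} (hs : Bornology.IsBounded s) :
    ∃ C : ℝ, 0 < C ∧ ∀ u : E → ℝ, IsT u → Function.support u ⊆ s →
      ∫ x, u x ^ 2 ≤ C * BB 1 u u := by
  set C₀ : ℝ≥0 := eLpNormLESNormFDerivOfLeConst ℝ (volume : Measure E) s 2 2 with hC₀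
  refine ⟨(C₀ : ℝ) ^ 2 + 1, by positivity, fun u hu hus => ?_⟩
  have h := eLpNorm_le_eLpNorm_fderiv (volume : Measure E) (u := u) (s := s) (p := 2)
    (hu.smooth.of_le (by exact_mod_cast le_top)) hus (by norm_num) (by exact_mod_cast hn) hs
  have h2 : (eLpNorm u 2 volume) ^ 2 ≤ (C₀ * eLpNorm (fderiv ℝ u) 2 volume) ^ 2 := by
    gcongr; exact h
  have hc : Continuous (fderiv ℝ u) := hu.smooth.continuous_fderiv (by simp)
  have hcs : HasCompactSupport (fderiv ℝ u) := hu.cs.fderiv (𝕜 := ℝ)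
  rw [mul_pow, eLpNorm_two_sq, eLpNorm_two_sq, lintegral_enorm_sq_eq hu.continuous hu.cs,
    lintegral_enorm_sq_eq hc hcs, ← BB_one hu] at h2
  have h3 : (∫ x, ‖u x‖ ^ 2) ≤ (C₀ : ℝ) ^ 2 * BB 1 u u := by
    have hC : ((C₀ : ℝ≥0∞)) ^ 2 * ENNReal.ofReal (BB 1 u u)
        = ENNReal.ofReal ((C₀ : ℝ) ^ 2 * BB 1 u u) := by
      rw [ENNReal.ofReal_mul (by positivity), ENNReal.ofReal_pow (by positivity),
        ENNReal.ofReal_coe_nnreal]
    rw [hC] at h2
    exact (ENNReal.ofReal_le_ofReal_iff (mul_nonneg (by positivity) (BB_nonneg 1 hu))).1 h2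
  have h4 : (∫ x, ‖u x‖ ^ 2) = ∫ x, u x ^ 2 := by simp
  rw [h4] at h3
  have := BB_nonneg 1 hu
  linarith [h3]

end general

section general

variable {E : Type*} [NormedAddCommGroup E] [InnerProductSpace ℝ E] [FiniteDimensional ℝ E]
  [MeasurableSpace E] [BorelSpace E]

lemma IsT.integrable_sq {u : E → ℝ} (hu : IsT u) : Integrable (fun x => u x ^ 2) := by
  have := hu.integrable_mul hu.continuous
  simpa [sq] using this

lemma sq_le_of_poincare {C : ℝ} (hC : 0 < C) {u : E → ℝ} (hu : IsT u)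
    (h : ∫ x, u x ^ 2 ≤ C * BB 1 u u) :
    ∫ x, u x ^ 2 ≤ C ^ 2 * ∫ x, (nlap 1 u x) ^ 2 := by
  have h1 : C * BB 1 u u ≤ ∫ x, (u x ^ 2 / 2 + C ^ 2 * (nlap 1 u x) ^ 2 / 2) := by
    unfold BB
    rw [← integral_const_mul]
    apply integral_mono ((hu.integrable_mul (hu.nlap 1).continuous).const_mul C)
    · exact (hu.integrable_sq.div_const 2).add
        (((hu.nlap 1).integrable_sq.const_mul (C ^ 2)).div_const 2)
    · intro x
      simp only
      nlinarith [sq_nonneg (u x - C * nlap 1 u x)]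
  rw [integral_add (hu.integrable_sq.div_const 2)
        (((hu.nlap 1).integrable_sq.const_mul (C ^ 2)).div_const 2), integral_div, integral_div,
      integral_const_mul] at h1
  linarith

lemma coercive (hn : 2 < Module.finrank ℝ E) {s : Set E} (hs : Bornology.IsBounded s) (m : ℕ) :
    ∃ C : ℝ, 0 < C ∧ ∀ u : E → ℝ, IsT u → tsupport u ⊆ s →
      ∫ x, u x ^ 2 ≤ C * BB m u u := by
  obtain ⟨C₁, hC₁, h₁⟩ := poincare hn hs
  induction m using Nat.twoStepInduction with
  | zero =>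
    refine ⟨1, one_pos, fun u hu hus => ?_⟩
    rw [BB_zero, one_mul]
  | one => exact ⟨C₁, hC₁, fun u hu hus => h₁ u hu ((subset_tsupport u).trans hus)⟩
  | more m ih _ =>
    obtain ⟨C, hC, h⟩ := ih
    refine ⟨C₁ ^ 2 * C, by positivity, fun u hu hus => ?_⟩
    have e1 := sq_le_of_poincare hC₁ hu (h₁ u hu ((subset_tsupport u).trans hus))
    have e2 := h (nlap 1 u) (hu.nlap 1) ((tsupport_nlap_subset 1 u).trans hus)
    rw [BB_add_two hu hu]
    calc ∫ x, u x ^ 2 ≤ C₁ ^ 2 * ∫ x, (nlap 1 u x) ^ 2 := e1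
      _ ≤ C₁ ^ 2 * (C * BB m (nlap 1 u) (nlap 1 u)) := by gcongr
      _ = _ := by ring

/-- abstract limit argument -/
lemma BB_tendsto_zero (m : ℕ) {h : ℕ → E → ℝ} (hT : ∀ k, IsT (h k))
    (hC : Tendsto (fun p : ℕ × ℕ => BB m (h p.1 - h p.2) (h p.1 - h p.2)) atTop (𝓝 0))
    (hw : ∀ l, Tendsto (fun k => BB m (h k) (h l)) atTop (𝓝 0)) :
    Tendsto (fun k => BB m (h k) (h k)) atTop (𝓝 0) := by
  rw [Metric.tendsto_atTop]
  intro ε hε
  rw [Metric.tendsto_atTop] at hC
  obtain ⟨⟨N₁, N₂⟩, hN⟩ := hC (ε / 2) (by positivity)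
  set N := max N₁ N₂ with hNdef
  have hN' : ∀ k, N ≤ k → BB m (h k - h N) (h k - h N) < ε / 2 := by
    intro k hk
    have := hN (k, N) ⟨(le_max_left _ _).trans hk, le_max_right _ _⟩
    rw [Real.dist_eq, sub_zero] at this
    exact (le_abs_self _).trans_lt this
  obtain ⟨M, hM⟩ := (Metric.tendsto_atTop.1 (hw N)) (ε / 4) (by positivity)
  refine ⟨max M N, fun k hk => ?_⟩
  have h1 := hN' k ((le_max_right _ _).trans hk)
  have h2 := hM k ((le_max_left _ _).trans hk)
  rw [Real.dist_eq, sub_zero] at h2 ⊢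
  have h2' := (le_abs_self _).trans_lt h2
  rw [abs_of_nonneg (BB_nonneg m (hT k))]
  have hkN := (hT k).sub (hT N)
  have e1 : BB m (h k - h N) (h k - h N) = BB m (h k) (h k) - 2 * BB m (h k) (h N)
      + BB m (h N) (h N) := by
    rw [BB_sub_left (hT k) (hT N) hkN, BB_sub_right (hT k) (hT N) (hT k),
      BB_sub_right (hT k) (hT N) (hT N), BB_symm (hT N) (hT k)]
    ring
  have e2 := BB_nonneg m (hT N)
  linarith

end general

variable {n : ℕ} {Ω : Opens (EuclideanSpace ℝ (Fin n))}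

lemma isT_test (φ : 𝓓(Ω, ℝ)) : IsT (φ : EuclideanSpace ℝ (Fin n) → ℝ) where
  smooth := by simpa using φ.contDiff
  cs := φ.hasCompactSupport

lemma integrableOn_of_limit {u : EuclideanSpace ℝ (Fin n) → ℝ}
    (hu : AEStronglyMeasurable u (volume.restrict (Ω : Set (EuclideanSpace ℝ (Fin n)))))
    {φ : ℕ → 𝓓(Ω, ℝ)} {K : Set (EuclideanSpace ℝ (Fin n))} (hK : IsCompact K) (hKΩ : K ⊆ Ω)
    (h : Tendsto (fun k => ∫⁻ x in K, ‖φ k x - u x‖ₑ) atTop (𝓝 0)) :
    IntegrableOn u K := by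
  obtain ⟨k, hk⟩ := ((tendsto_order.1 h).2 1 one_pos).exists
  have hφ : IntegrableOn (φ k) K := (φ k).continuous.continuousOn.integrableOn_compact hK
  have hm : AEStronglyMeasurable u (volume.restrict K) :=
    hu.mono_measure (Measure.restrict_mono hKΩ le_rfl)
  have h1 : IntegrableOn (fun x => φ k x - u x) K :=
    ⟨hφ.1.sub hm, by
      rw [hasFiniteIntegral_iff_enorm]
      exact hk.trans ENNReal.one_lt_top⟩
  have h2 := hφ.sub h1
  refine h2.congr (Eventually.of_forall fun x => ?_)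
  simp

lemma tendsto_pairing {u : EuclideanSpace ℝ (Fin n) → ℝ}
    (hu : AEStronglyMeasurable u (volume.restrict (Ω : Set (EuclideanSpace ℝ (Fin n)))))
    {φ : ℕ → 𝓓(Ω, ℝ)}
    (h : ∀ K : Set (EuclideanSpace ℝ (Fin n)), IsCompact K → K ⊆ Ω →
      Tendsto (fun k => ∫⁻ x in K, ‖φ k x - u x‖ₑ) atTop (𝓝 0))
    (m : ℕ) (ψ : 𝓓(Ω, ℝ)) :
    Tendsto (fun k => BB m (φ k) ψ) atTop
      (𝓝 (∫ x in (Ω : Set (EuclideanSpace ℝ (Fin n))), u x * nlap m ψ x)) := by
  set w := nlap m (ψ : EuclideanSpace ℝ (Fin n) → ℝ) with hw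
  have hwT : IsT w := (isT_test ψ).nlap m
  set K := tsupport (ψ : EuclideanSpace ℝ (Fin n) → ℝ) with hKdef
  have hK : IsCompact K := ψ.hasCompactSupport
  have hKΩ : K ⊆ Ω := ψ.tsupport_subset
  have hw0 : ∀ x, x ∉ K → w x = 0 := by
    intro x hx
    by_contra h0
    exact hx (support_nlap_subset m _ h0)
  obtain ⟨M, hM⟩ := hwT.continuous.bounded_above_of_compact_support hwT.cs
  have e1 : ∀ k, BB m (φ k) ψ = ∫ x in K, φ k x * w x := by
    intro k
    unfold BB
    rw [setIntegral_eq_integral_of_forall_compl_eq_zero]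
    intro x hx
    rw [hw0 x hx, mul_zero]
  have e2 : ∫ x in (Ω : Set (EuclideanSpace ℝ (Fin n))), u x * w x = ∫ x in K, u x * w x := by
    apply setIntegral_eq_of_subset_of_forall_sdiff_eq_zero Ω.isOpen.measurableSet hKΩ
    intro x hx
    rw [hw0 x hx.2, mul_zero]
  rw [e2]
  simp_rw [e1]
  have hKi := integrableOn_of_limit hu hK hKΩ (h K hK hKΩ)
  apply tendsto_integral_of_L1
  · exact (hKi.1.mul hwT.continuous.aestronglyMeasurable)
  · refine Eventually.of_forall fun k => ?_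
    exact (((φ k).continuous.mul hwT.continuous).continuousOn.integrableOn_compact hK)
  · have h1 : Tendsto (fun k => ENNReal.ofReal M * ∫⁻ x in K, ‖φ k x - u x‖ₑ) atTop
        (𝓝 (ENNReal.ofReal M * 0)) :=
      ENNReal.Tendsto.const_mul (h K hK hKΩ) (Or.inr ENNReal.ofReal_ne_top)
    rw [mul_zero] at h1
    refine tendsto_of_tendsto_of_tendsto_of_le_of_le tendsto_const_nhds h1
      (fun _ => zero_le) (fun k => ?_)
    simp only
    rw [← lintegral_const_mul' _ _ ENNReal.ofReal_ne_top]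
    refine lintegral_mono fun x => ?_
    rw [← sub_mul, enorm_mul, mul_comm]
    gcongr
    rw [← ofReal_norm]
    exact ENNReal.ofReal_le_ofReal (hM x)

/-- real version of the Cauchy condition -/
lemma energy_tendsto {m : ℕ} {φ : ℕ → 𝓓(Ω, ℝ)}
    (h : Tendsto (fun p : ℕ × ℕ =>
      ∫⁻ x in (Ω : Set (EuclideanSpace ℝ (Fin n))),
        ‖iteratedFDeriv ℝ m (fun y => φ p.1 y - φ p.2 y) x‖ₑ ^ 2) atTop (𝓝 0)) :
    Tendsto (fun p : ℕ × ℕ =>
      ∫ x, ‖iteratedFDeriv ℝ m (fun y => φ p.1 y - φ p.2 y) x‖ ^ 2) atTop (𝓝 0) := by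
  have h1 : ∀ p : ℕ × ℕ, (∫ x, ‖iteratedFDeriv ℝ m (fun y => φ p.1 y - φ p.2 y) x‖ ^ 2) =
      (∫⁻ x in (Ω : Set (EuclideanSpace ℝ (Fin n))),
        ‖iteratedFDeriv ℝ m (fun y => φ p.1 y - φ p.2 y) x‖ₑ ^ 2).toReal := by
    intro p
    have hT : IsT (fun y => φ p.1 y - φ p.2 y) := (isT_test (φ p.1)).sub (isT_test (φ p.2))
    have hc : Continuous (fun x => iteratedFDeriv ℝ m (fun y => φ p.1 y - φ p.2 y) x) :=
      hT.smooth.continuous_iteratedFDeriv (by exact_mod_cast le_top)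
    have hs : HasCompactSupport (fun x => iteratedFDeriv ℝ m (fun y => φ p.1 y - φ p.2 y) x) :=
      hT.cs.iteratedFDeriv (𝕜 := ℝ) m
    have hsub : Function.support (fun x => iteratedFDeriv ℝ m (fun y => φ p.1 y - φ p.2 y) x) ⊆ Ω := by
      refine (support_iteratedFDeriv_subset m).trans ?_
      exact (φ p.1 - φ p.2).tsupport_subset
    rw [setLIntegral_eq_of_support_subset, lintegral_enorm_sq_eq hc hs, ENNReal.toReal_ofReal]
    · positivity
    · intro x hx
      apply hsub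
      intro h0
      apply hx
      simp only at h0 ⊢
      rw [h0]; simp
  simp_rw [h1]
  have := (ENNReal.tendsto_toReal (a := 0) (by simp)).comp h
  simpa [Function.comp_def] using this

theorem unique_weak {m n : ℕ} (hm : 1 ≤ m) (hn : 3 ≤ n)
    {Ω : Opens (EuclideanSpace ℝ (Fin n))}
    (hΩ : Bornology.IsBounded (Ω : Set (EuclideanSpace ℝ (Fin n))))
    {u v : EuclideanSpace ℝ (Fin n) → ℝ} (hu : MemW m Ω u) (hv : MemW m Ω v)
    (h : ∀ ψ : 𝓓(Ω, ℝ), ∫ x in (Ω : Set (EuclideanSpace ℝ (Fin n))), u x * nlap m ψ x =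
      ∫ x in (Ω : Set (EuclideanSpace ℝ (Fin n))), v x * nlap m ψ x) :
    u =ᵐ[volume.restrict (Ω : Set (EuclideanSpace ℝ (Fin n)))] v := by
  obtain ⟨hum, φ, hφ1, hφ2⟩ := hu
  obtain ⟨hvm, φ', hφ1', hφ2'⟩ := hv
  set g : ℕ → EuclideanSpace ℝ (Fin n) → ℝ := fun k x => φ k x - φ' k x with hg
  have hgT : ∀ k, IsT (g k) := fun k => (isT_test (φ k)).sub (isT_test (φ' k))
  have hgD : ∀ k, g k = ((φ k - φ' k : 𝓓(Ω, ℝ)) : EuclideanSpace ℝ (Fin n) → ℝ) := by
    intro k; ext x; rfl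
  obtain ⟨C, hC0, hC⟩ := BB_le (E := EuclideanSpace ℝ (Fin n)) m
  -- weak convergence
  have hw : ∀ l, Tendsto (fun k => BB m (g k) (g l)) atTop (𝓝 0) := by
    intro l
    have e1 := tendsto_pairing hum hφ2 m (φ l - φ' l)
    have e2 := tendsto_pairing hvm hφ2' m (φ l - φ' l)
    have e3 := e1.sub e2
    rw [h, sub_self] at e3
    refine e3.congr fun k => ?_
    rw [hgD l]
    exact (BB_sub_left (isT_test (φ k)) (isT_test (φ' k)) (isT_test (φ l - φ' l))).symm
  -- Cauchy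
  have hCau : Tendsto (fun p : ℕ × ℕ => BB m (g p.1 - g p.2) (g p.1 - g p.2)) atTop (𝓝 0) := by
    have e := ((energy_tendsto hφ1).add (energy_tendsto hφ1')).const_mul (2 * C)
    rw [add_zero, mul_zero] at e
    refine tendsto_of_tendsto_of_tendsto_of_le_of_le tendsto_const_nhds e
      (fun p => BB_nonneg m ((hgT p.1).sub (hgT p.2))) (fun p => ?_)
    simp only
    have hT1 : IsT (fun y => φ p.1 y - φ p.2 y) := (isT_test (φ p.1)).sub (isT_test (φ p.2))
    have hT2 : IsT (fun y => φ' p.1 y - φ' p.2 y) := (isT_test (φ' p.1)).sub (isT_test (φ' p.2))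
    have hgg : g p.1 - g p.2 = (fun y => φ p.1 y - φ p.2 y) - (fun y => φ' p.1 y - φ' p.2 y) := by
      ext x; simp only [hg, Pi.sub_apply]; ring
    refine (hC _ ((hgT p.1).sub (hgT p.2))).trans ?_
    rw [mul_comm 2 C, mul_assoc]
    gcongr
    rw [← integral_add (hT1.integrable_iteratedFDeriv_sq m) (hT2.integrable_iteratedFDeriv_sq m),
      ← integral_const_mul]
    apply integral_mono (((hgT p.1).sub (hgT p.2)).integrable_iteratedFDeriv_sq m)
      (((hT1.integrable_iteratedFDeriv_sq m).add (hT2.integrable_iteratedFDeriv_sq m)).const_mul 2)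
    intro x
    simp only [Pi.add_apply]
    have e4 : iteratedFDeriv ℝ m (g p.1 - g p.2) x =
        iteratedFDeriv ℝ m (fun y => φ p.1 y - φ p.2 y) x -
        iteratedFDeriv ℝ m (fun y => φ' p.1 y - φ' p.2 y) x := by
      rw [hgg]
      exact iteratedFDeriv_sub_apply (hT1.contDiffAt m x) (hT2.contDiffAt m x)
    rw [e4]
    have e5 := norm_sub_le (iteratedFDeriv ℝ m (fun y => φ p.1 y - φ p.2 y) x)
      (iteratedFDeriv ℝ m (fun y => φ' p.1 y - φ' p.2 y) x)
    have e6 : ‖iteratedFDeriv ℝ m (fun y => φ p.1 y - φ p.2 y) x -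
        iteratedFDeriv ℝ m (fun y => φ' p.1 y - φ' p.2 y) x‖ ^ 2 ≤
        (‖iteratedFDeriv ℝ m (fun y => φ p.1 y - φ p.2 y) x‖ +
        ‖iteratedFDeriv ℝ m (fun y => φ' p.1 y - φ' p.2 y) x‖) ^ 2 := by gcongr
    nlinarith [sq_nonneg (‖iteratedFDeriv ℝ m (fun y => φ p.1 y - φ p.2 y) x‖ -
        ‖iteratedFDeriv ℝ m (fun y => φ' p.1 y - φ' p.2 y) x‖)]
  have hB := BB_tendsto_zero m hgT hCau hw
  -- L2 convergence to 0
  obtain ⟨C', hC'0, hC'⟩ := coercive (E := EuclideanSpace ℝ (Fin n))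
    (by rw [finrank_euclideanSpace_fin]; omega) hΩ m
  have hL2 : Tendsto (fun k => ∫ x, g k x ^ 2) atTop (𝓝 0) := by
    have e := hB.const_mul C'
    rw [mul_zero] at e
    refine tendsto_of_tendsto_of_tendsto_of_le_of_le tendsto_const_nhds e
      (fun k => by positivity) (fun k => ?_)
    refine hC' _ (hgT k) ?_
    rw [hgD k]
    exact (φ k - φ' k).tsupport_subset
  -- conclusion on compact sets
  have hKey : ∀ K : Set (EuclideanSpace ℝ (Fin n)), IsCompact K → K ⊆ Ω →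
      u =ᵐ[volume.restrict K] v := by
    intro K hK hKΩ
    have hmu : AEStronglyMeasurable u (volume.restrict K) :=
      hum.mono_measure (Measure.restrict_mono hKΩ le_rfl)
    have hmv : AEStronglyMeasurable v (volume.restrict K) :=
      hvm.mono_measure (Measure.restrict_mono hKΩ le_rfl)
    -- L1 convergence of g to 0 on K
    have hL1 : Tendsto (fun k => ∫⁻ x in K, ‖g k x‖ₑ) atTop (𝓝 0) := by
      have e1 : ∀ k, ∫⁻ x in K, ‖g k x‖ₑ ≤
          (volume K) ^ (1 / 2 : ℝ) * (ENNReal.ofReal (∫ x, g k x ^ 2)) ^ (1 / 2 : ℝ) := by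
        intro k
        have := ENNReal.lintegral_mul_le_Lp_mul_Lq (volume.restrict K)
          (Real.HolderConjugate.two_two) (f := fun _ => 1) (g := fun x => ‖g k x‖ₑ)
          aemeasurable_const (hgT k).continuous.enorm.aemeasurable
        simp only [Pi.mul_apply, one_mul, ENNReal.one_rpow, lintegral_const, one_mul,
          Measure.restrict_apply MeasurableSet.univ, univ_inter] at this
        refine this.trans ?_
        gcongr
        calc ∫⁻ x in K, ‖g k x‖ₑ ^ (2 : ℝ) ≤ ∫⁻ x, ‖g k x‖ₑ ^ (2 : ℝ) :=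
              setLIntegral_le_lintegral _ _
          _ = ∫⁻ x, ‖g k x‖ₑ ^ 2 := by simp
          _ = ENNReal.ofReal (∫ x, ‖g k x‖ ^ 2) :=
              lintegral_enorm_sq_eq (hgT k).continuous (hgT k).cs
          _ = _ := by simp
      have e2 : Tendsto (fun k => (volume K) ^ (1 / 2 : ℝ) *
          (ENNReal.ofReal (∫ x, g k x ^ 2)) ^ (1 / 2 : ℝ)) atTop (𝓝 0) := by
        have e3 : Tendsto (fun k => (ENNReal.ofReal (∫ x, g k x ^ 2)) ^ (1 / 2 : ℝ)) atTop
            (𝓝 0) := by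
          have := (ENNReal.continuous_rpow_const (y := 1 / 2)).continuousAt.tendsto.comp
            ((ENNReal.continuous_ofReal.tendsto 0).comp hL2)
          simpa [Function.comp_def] using this
        have := ENNReal.Tendsto.const_mul (a := (volume K) ^ (1 / 2 : ℝ)) e3
          (Or.inr (ENNReal.rpow_ne_top_of_nonneg (by norm_num) hK.measure_lt_top.ne))
        simpa using this
      exact tendsto_of_tendsto_of_tendsto_of_le_of_le tendsto_const_nhds e2
        (fun _ => zero_le) e1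
    have hzero : ∫⁻ x in K, ‖u x - v x‖ₑ = 0 := by
      have e1 : ∀ k, ∫⁻ x in K, ‖u x - v x‖ₑ ≤ (∫⁻ x in K, ‖φ k x - u x‖ₑ) +
          (∫⁻ x in K, ‖g k x‖ₑ) + ∫⁻ x in K, ‖φ' k x - v x‖ₑ := by
        intro k
        rw [← lintegral_add_right' _ ((hgT k).continuous.enorm.aemeasurable),
          ← lintegral_add_right']
        · refine lintegral_mono fun x => ?_
          have : u x - v x = -(φ k x - u x) + g k x + (φ' k x - v x) := by
            simp only [hg]; ring
          rw [this]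
          refine (enorm_add_le _ _).trans ?_
          gcongr
          refine (enorm_add_le _ _).trans ?_
          rw [enorm_neg]
        · exact (((φ' k).continuous.aestronglyMeasurable).sub hmv).enorm
      have e2 := ((hφ2 K hK hKΩ).add hL1).add (hφ2' K hK hKΩ)
      rw [add_zero, add_zero] at e2
      exact le_antisymm (ge_of_tendsto' e2 e1) zero_le
    have hmm : AEMeasurable (fun x => ‖u x - v x‖ₑ) (volume.restrict K) := (hmu.sub hmv).enorm
    rw [lintegral_eq_zero_iff' hmm] at hzero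
    filter_upwards [hzero] with x hx
    simpa [sub_eq_zero] using hx
  obtain ⟨F, hF1, hF2, hF3, _⟩ := Ω.isOpen.exists_iUnion_isClosed
  have hFc : ∀ k, IsCompact (F k) := fun k =>
    Metric.isCompact_of_isClosed_isBounded (hF1 k) (hΩ.subset (hF2 k))
  rw [← hF3, Filter.EventuallyEq, ae_restrict_iUnion_iff]
  intro k
  exact hKey (F k) (hFc k) (hF2 k)

end Pool.Agent.Lib.MP_9ca4ac_an
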